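import Pool.Agent.K7.H77.PF.Fam4

/-! # Families of polynomials of large degree: from the number of walks to the result -/

set_option autoImplicit false
set_option linter.unusedSectionVars false

namespace Pool.Agent.K7.H77.PF

open Finset Matrix Polynomial

/-- bilinear forms -/
theorem absfam1 (ν ε : ℝ) (hν : 0 ≤ ν) (hε : 0 < ε) (n : ℕ) (hn0 : n ≠ 0) (C : ℝ) (hC : 0 ≤ C) :
    ∃ τ : ℝ, 0 < τ ∧ ∃ p₀ : ℕ, ∀ (p : ℕ) [Fact p.Prime], p₀ ≤ p →
      ∀ (ι : Type) [Fintype ι] [DecidableEq ι] (G : ι → (ZMod p)[X]) (K : ℕ),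
        (∀ i, (G i).natDegree ≤ K) → (K : ℝ) ≤ (p : ℝ) ^ ν → 0 < Fintype.card ι →
        (p : ℝ) * (ngc G (2 * n) : ℝ) ≤ C * (Fintype.card ι : ℝ) ^ (2 * n) →
        (∀ χ : DirichletCharacter ℂ p, χ ≠ 1 →
          (Set.ncard {t : ZMod p | Large τ χ G t} : ℝ) ≤ (p : ℝ) ^ (1 / 2 + ν + ε)) ∧
        (Set.ncard {q : ZMod p × DirichletCharacter ℂ p | Large τ q.2 G q.1} : ℝ) ≤
          (p : ℝ) ^ (1 + ν + ε) := by
  have hnr : (0 : ℝ) < n := by
    have : 0 < n := Nat.pos_of_ne_zero hn0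
    exact_mod_cast this
  set C₃ : ℝ := C + (2 * n : ℕ) with hC₃
  have hC₃0 : 0 ≤ C₃ := by positivity
  set τ : ℝ := ε / (4 * n) with hτ
  have hτ0 : 0 < τ := by positivity
  obtain ⟨p₂, -, hp₂⟩ := exists_large C₃ (ε / 2) (by positivity)
  refine ⟨τ, hτ0, p₂, fun p _ hp ι _ _ G K hG hK hNn hd' => ?_⟩
  have hpp : p.Prime := Fact.out
  have hp0 : (0 : ℝ) < p := by exact_mod_cast hpp.pos
  have hp1 : (1 : ℝ) ≤ p := by exact_mod_cast hpp.one_lt.le
  have hp2' := hp₂ p hp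
  set N : ℝ := (Fintype.card ι : ℝ) with hN
  have hN0 : 0 < N := by rw [hN]; exact_mod_cast hNn
  have hpν : 1 ≤ (p : ℝ) ^ ν := Real.one_le_rpow hp1 hν
  have hlam : ((p : ℝ) ^ (-τ) * N) ^ (2 * n) = (p : ℝ) ^ (-(ε / 2)) * N ^ (2 * n) := by
    rw [mul_pow, ← Real.rpow_natCast ((p : ℝ) ^ (-τ)), ← Real.rpow_mul hp0.le]
    congr 2
    rw [hτ]
    push_cast
    field_simp
    ring
  have hsq1 : (1 : ℝ) ≤ Real.sqrt p := by
    rw [Real.one_le_sqrt]
    exact hp1
  have fin : ∀ x M : ℝ, 0 ≤ M → x * ((p : ℝ) ^ (-τ) * N) ^ (2 * n) ≤ C₃ * M * N ^ (2 * n) →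
      x ≤ M * (p : ℝ) ^ ε := by
    intro x M hM hx
    rw [hlam] at hx
    have h3 : 0 < N ^ (2 * n) := by positivity
    have h4 : x * (p : ℝ) ^ (-(ε / 2)) ≤ C₃ * M := by
      refine le_of_mul_le_mul_right ?_ h3
      calc x * (p : ℝ) ^ (-(ε / 2)) * N ^ (2 * n) = x * ((p : ℝ) ^ (-(ε / 2)) * N ^ (2 * n)) := by
            ring
        _ ≤ _ := hx
    calc x = x * (p : ℝ) ^ (-(ε / 2)) * (p : ℝ) ^ (ε / 2) := by
          rw [mul_assoc, ← Real.rpow_add hp0]
          norm_num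
      _ ≤ C₃ * M * (p : ℝ) ^ (ε / 2) := mul_le_mul_of_nonneg_right h4 (by positivity)
      _ ≤ (p : ℝ) ^ (ε / 2) * M * (p : ℝ) ^ (ε / 2) := by gcongr
      _ = M * ((p : ℝ) ^ (ε / 2) * (p : ℝ) ^ (ε / 2)) := by ring
      _ = M * (p : ℝ) ^ ε := by
          rw [← Real.rpow_add hp0]
          congr 2
          ring
  have hdeg : ((2 * n * K : ℕ) : ℝ) ≤ (2 * n : ℕ) * (p : ℝ) ^ ν := by
    push_cast
    gcongr
  constructor
  · intro χ hχ
    have h3 := sum_trace' χ hχ G K hG n hn0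
    have h4 := count_le {t : ZMod p | Large τ χ G t}
      (fun t => (((Km χ G t * (Km χ G t)ᴴ) ^ n).trace).re) (fun t => trace_nonneg _ n)
      (((p : ℝ) ^ (-τ) * N) ^ (2 * n)) (fun t ht => large_trace τ χ G t n hn0 ht)
    have h5 : ∑ t : ZMod p, (((Km χ G t * (Km χ G t)ᴴ) ^ n).trace).re ≤
        C₃ * ((p : ℝ) ^ ν * Real.sqrt p) * N ^ (2 * n) := by
      rw [← Complex.re_sum]
      refine (Complex.re_le_norm _).trans (h3.trans ?_)
      rw [ZMod.card]
      change (p : ℝ) * (ngc G (2 * n) : ℝ) + (2 * n * K : ℕ) * Real.sqrt p * N ^ (2 * n) ≤ _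
      have h6 : C * N ^ (2 * n) ≤ C * ((p : ℝ) ^ ν * Real.sqrt p) * N ^ (2 * n) := by
        refine mul_le_mul_of_nonneg_right ?_ (by positivity)
        have : 1 ≤ (p : ℝ) ^ ν * Real.sqrt p := one_le_mul_of_one_le_of_one_le hpν hsq1
        nlinarith
      have h7 : (2 * n * K : ℕ) * Real.sqrt p * N ^ (2 * n) ≤
          (2 * n : ℕ) * (p : ℝ) ^ ν * Real.sqrt p * N ^ (2 * n) := by
        gcongr
      calc _ ≤ C * ((p : ℝ) ^ ν * Real.sqrt p) * N ^ (2 * n) +
            (2 * n : ℕ) * (p : ℝ) ^ ν * Real.sqrt p * N ^ (2 * n) :=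
            add_le_add (hd'.trans h6) h7
        _ = _ := by rw [hC₃]; ring
    have h6 := fin _ _ (by positivity) (h4.trans h5)
    refine h6.trans (le_of_eq ?_)
    rw [Real.sqrt_eq_rpow, ← Real.rpow_add hp0, ← Real.rpow_add hp0]
    congr 1
    ring
  · have h3 := sum_trace_pair' G K hG n hn0
    have h4 := count_le {q : ZMod p × DirichletCharacter ℂ p | Large τ q.2 G q.1}
      (fun q => (((Km q.2 G q.1 * (Km q.2 G q.1)ᴴ) ^ n).trace).re) (fun q => trace_nonneg _ n)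
      (((p : ℝ) ^ (-τ) * N) ^ (2 * n)) (fun q hq => large_trace τ q.2 G q.1 n hn0 hq)
    have h5 : ∑ q : ZMod p × DirichletCharacter ℂ p,
        (((Km q.2 G q.1 * (Km q.2 G q.1)ᴴ) ^ n).trace).re ≤ C₃ * ((p : ℝ) ^ ν * p) * N ^ (2 * n) := by
      rw [Fintype.sum_prod_type, sum_comm]
      have e1 : ∑ χ : DirichletCharacter ℂ p, ∑ t : ZMod p,
          (((Km χ G t * (Km χ G t)ᴴ) ^ n).trace).re =
          (∑ χ : DirichletCharacter ℂ p, ∑ t : ZMod p,
            ((Km χ G t * (Km χ G t)ᴴ) ^ n).trace).re := by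
        simp only [Complex.re_sum]
      simp only
      rw [e1]
      refine (Complex.re_le_norm _).trans (h3.trans ?_)
      change (p : ℝ) ^ 2 * (ngc G (2 * n) : ℝ) + (2 * n * K : ℕ) * p * N ^ (2 * n) ≤ _
      have h6 : (p : ℝ) * (C * N ^ (2 * n)) ≤ C * ((p : ℝ) ^ ν * p) * N ^ (2 * n) := by
        have : (p : ℝ) ≤ (p : ℝ) ^ ν * p := by nlinarith
        calc (p : ℝ) * (C * N ^ (2 * n)) = C * p * N ^ (2 * n) := by ring
          _ ≤ _ := by gcongr
      have h7 : (2 * n * K : ℕ) * (p : ℝ) * N ^ (2 * n) ≤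
          (2 * n : ℕ) * (p : ℝ) ^ ν * p * N ^ (2 * n) := by
        gcongr
      calc _ = p * ((p : ℝ) * (ngc G (2 * n) : ℝ)) + (2 * n * K : ℕ) * p * N ^ (2 * n) := by ring
        _ ≤ C * ((p : ℝ) ^ ν * p) * N ^ (2 * n) + (2 * n : ℕ) * (p : ℝ) ^ ν * p * N ^ (2 * n) :=
            add_le_add ((mul_le_mul_of_nonneg_left hd' hp0.le).trans h6) h7
        _ = _ := by rw [hC₃]; ring
    have h6 := fin _ _ (by positivity) (h4.trans h5)
    refine h6.trans (le_of_eq ?_)
    have : (p : ℝ) ^ ν * p = (p : ℝ) ^ (ν + 1) := by rw [Real.rpow_add hp0, Real.rpow_one]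
    rw [this, ← Real.rpow_add hp0]
    congr 1
    ring

theorem absfam (ν ε : ℝ) (hν : 0 ≤ ν) (hε : 0 < ε) (n : ℕ) (hn0 : n ≠ 0) (C : ℝ) (hC : 0 ≤ C) :
    ∃ τ : ℝ, 0 < τ ∧ ∃ p₀ : ℕ, ∀ (p : ℕ) [Fact p.Prime], p₀ ≤ p →
      ∀ (ι : Type) [Fintype ι] [DecidableEq ι] (G : ι → (ZMod p)[X]) (K : ℕ),
        (∀ i, (G i).natDegree ≤ K) → (K : ℝ) ≤ (p : ℝ) ^ ν → 0 < Fintype.card ι →
        (p : ℝ) * (ngc G (2 * n) : ℝ) ≤ C * (Fintype.card ι : ℝ) ^ (2 * n) →
        Function.Injective G →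
        (∀ χ : DirichletCharacter ℂ p, χ ≠ 1 →
          (Set.ncard {t : ZMod p | Exc τ χ G t} : ℝ) ≤ (p : ℝ) ^ (1 / 2 + ν + ε)) ∧
        (Set.ncard {q : ZMod p × DirichletCharacter ℂ p | Exc τ q.2 G q.1} : ℝ) ≤
          (p : ℝ) ^ (1 + ν + ε) := by
  classical
  obtain ⟨τ₀, hτ₀, p₁, h⟩ := absfam1 ν (ε / 2) hν (by positivity) n hn0 C hC
  set τ : ℝ := min (τ₀ / 6) (ε / 16) with hτ
  have hτ0 : 0 < τ := lt_min (by positivity) (by positivity)
  have hτ1 : τ ≤ τ₀ / 6 := min_le_left _ _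
  have hτ2 : τ ≤ ε / 16 := min_le_right _ _
  obtain ⟨p₂, -, hp₂⟩ := exists_large 2 (τ₀ / 6) (by positivity)
  obtain ⟨p₃, -, hp₃⟩ := exists_large 5 (ε / 2) (by positivity)
  refine ⟨τ, hτ0, max p₁ (max p₂ p₃), fun p _ hp ι _ _ G K hG hK hNn hd h0 => ?_⟩
  have hpp : p.Prime := Fact.out
  have hp0 : (0 : ℝ) < p := by exact_mod_cast hpp.pos
  have hp1 : (1 : ℝ) < p := by exact_mod_cast hpp.one_lt
  have hp2' := hp₂ p (((le_max_left _ _).trans (le_max_right _ _)).trans hp)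
  have hp3' := hp₃ p (((le_max_right _ _).trans (le_max_right _ _)).trans hp)
  obtain ⟨hs, hpair⟩ := h p ((le_max_left _ _).trans hp) ι G K hG hK hNn hd
  have hinj : ∀ i, Set.ncard {j : ι | G j = G i} ≤ 1 := by
    intro i
    have : {j : ι | G j = G i} = {i} := by
      ext j
      exact ⟨fun hj => h0 hj, fun hj => by rw [Set.mem_singleton_iff] at hj; rw [hj]; rfl⟩
    rw [this, Set.ncard_singleton]
  have hNr : (0 : ℝ) < Fintype.card ι := by exact_mod_cast hNn
  have hne : Nonempty ι := Fintype.card_pos_iff.1 hNn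
  have himne : ∀ t, (imG G t).Nonempty := fun t => univ_nonempty.image _
  -- images that are not small
  have hbig : ∀ (χ : DirichletCharacter ℂ p) (t : ZMod p),
      ¬ 2 * 1 * (imG G t).card ≤ Fintype.card ι → BadSub τ χ (imG G t) → Large τ₀ χ G t := by
    rintro χ t hc2 ⟨A, hA, hA1, hA2⟩
    have hA0 : A.Nonempty := by
      by_contra hcon
      rw [not_nonempty_iff_eq_empty] at hcon
      rw [hcon, card_empty, Nat.cast_zero, mul_zero] at hA1
      have : (0 : ℝ) < (imG G t).card := by exact_mod_cast (himne t).card_pos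
      linarith
    have hAc : (0 : ℝ) < A.card := by exact_mod_cast hA0.card_pos
    have hA1' : (1 : ℝ) ≤ A.card := by exact_mod_cast hA0.card_pos
    refine large_of_set τ₀ hτ₀ χ G t A hA0 (fun a ha => ?_) ?_ ?_
    · obtain ⟨i, -, hi⟩ := mem_image.1 (hA ha)
      exact ⟨i, hi⟩
    · have h3 : (Fintype.card ι : ℝ) ≤ 2 * (imG G t).card := by
        have : Fintype.card ι ≤ 2 * (imG G t).card := by omega
        exact_mod_cast this
      calc (Fintype.card ι : ℝ) ≤ 2 * (imG G t).card := h3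
        _ ≤ (p : ℝ) ^ (τ₀ / 6) * ((p : ℝ) ^ τ * A.card) := by gcongr
        _ ≤ (p : ℝ) ^ (τ₀ / 6) * ((p : ℝ) ^ (τ₀ / 6) * A.card) := by
            gcongr
            exact hp1.le
        _ = (p : ℝ) ^ (τ₀ / 3) * A.card := by
            rw [← mul_assoc, ← Real.rpow_add hp0]
            congr 2
            ring
    · refine le_trans (Real.rpow_le_rpow_of_exponent_le hA1' ?_) hA2
      linarith
  set S : Finset (ZMod p) := univ.filter fun t => 2 * 1 * (imG G t).card ≤ Fintype.card ι with hS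
  have hSsum := inv_sum' G 1 hinj K hG hNn S (fun t ht => (mem_filter.1 ht).2)
  constructor
  · intro χ hχ
    set S' : Finset (ZMod p) := S.filter fun t => ((imG G t).card : ℝ) ≤ (p : ℝ) ^ (1 / 2 + ε / 4)
      with hS'
    have hS'c : (S'.card : ℝ) ≤ 2 * K * (p : ℝ) ^ (1 / 2 + ε / 4) := by
      have h3 : ∀ t ∈ S', (1 : ℝ) / (p : ℝ) ^ (1 / 2 + ε / 4) ≤ 1 / (imG G t).card := by
        intro t ht
        have h4 : (0 : ℝ) < (imG G t).card := by exact_mod_cast (himne t).card_pos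
        exact one_div_le_one_div_of_le h4 (mem_filter.1 ht).2
      have h5 : (S'.card : ℝ) * (1 / (p : ℝ) ^ (1 / 2 + ε / 4)) ≤ 2 * K := by
        calc (S'.card : ℝ) * (1 / (p : ℝ) ^ (1 / 2 + ε / 4)) =
            ∑ _t ∈ S', (1 : ℝ) / (p : ℝ) ^ (1 / 2 + ε / 4) := by rw [sum_const, nsmul_eq_mul]
          _ ≤ ∑ t ∈ S', (1 : ℝ) / (imG G t).card := sum_le_sum h3
          _ ≤ ∑ t ∈ S, (1 : ℝ) / (imG G t).card :=
              sum_le_sum_of_subset_of_nonneg (filter_subset _ _) fun t _ _ => by positivity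
          _ ≤ 2 * K := hSsum
      rw [mul_one_div, div_le_iff₀ (by positivity)] at h5
      exact h5
    have hsub : {t : ZMod p | Exc τ χ G t} ⊆ {t : ZMod p | Large τ₀ χ G t} ∪ (S' : Set (ZMod p)) := by
      intro t ht
      rw [Set.mem_ofPred_eq] at ht
      rcases ht with ht | ht
      · left
        exact large_mono (by linarith) ht
      · by_cases hc2 : 2 * 1 * (imG G t).card ≤ Fintype.card ι
        · right
          rw [mem_coe, hS', mem_filter, hS, mem_filter]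
          refine ⟨⟨mem_univ _, hc2⟩, ?_⟩
          by_contra hcon
          push Not at hcon
          obtain ⟨A, hA, hA1, hA2⟩ := ht
          have hA0 : (0 : ℝ) < A.card := by
            by_contra hcon2
            have h0 : (A.card : ℝ) = 0 := le_antisymm (not_lt.1 hcon2) (Nat.cast_nonneg _)
            rw [h0, mul_zero] at hA1
            have : (0 : ℝ) < (imG G t).card := by exact_mod_cast (himne t).card_pos
            linarith
          have hAp : (A.card : ℝ) ≤ p := by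
            have h := card_le_univ A
            rw [ZMod.card] at h
            exact_mod_cast h
          have h3 := hA2.trans (classical_bound χ hχ A)
          have h4 : (A.card : ℝ) ^ (1 - τ) ≤ Real.sqrt p := by
            refine le_of_mul_le_mul_right ?_ hA0
            refine le_trans (le_of_eq ?_) h3
            have : (2 - τ) = (1 - τ) + 1 := by ring
            rw [this, Real.rpow_add hA0, Real.rpow_one]
          have h5 : (p : ℝ) ^ (-τ) * A.card ≤ (A.card : ℝ) ^ (1 - τ) := by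
            calc (p : ℝ) ^ (-τ) * A.card ≤ (A.card : ℝ) ^ (-τ) * A.card := by
                  refine mul_le_mul_of_nonneg_right ?_ hA0.le
                  exact Real.rpow_le_rpow_of_nonpos hA0 hAp (by linarith)
              _ = (A.card : ℝ) ^ (1 - τ) := by
                  rw [sub_eq_neg_add, Real.rpow_add hA0, Real.rpow_one]
          have h6 : (p : ℝ) ^ (1 / 2 + ε / 4) < (p : ℝ) ^ (2 * τ) * Real.sqrt p := by
            calc (p : ℝ) ^ (1 / 2 + ε / 4) < (imG G t).card := hcon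
              _ ≤ (p : ℝ) ^ τ * A.card := hA1
              _ = (p : ℝ) ^ (2 * τ) * ((p : ℝ) ^ (-τ) * A.card) := by
                  rw [← mul_assoc, ← Real.rpow_add hp0]
                  congr 2
                  ring
              _ ≤ (p : ℝ) ^ (2 * τ) * Real.sqrt p := by
                  refine mul_le_mul_of_nonneg_left (h5.trans h4) (by positivity)
          rw [Real.sqrt_eq_rpow, ← Real.rpow_add hp0] at h6
          have h7 := (Real.rpow_lt_rpow_left_iff hp1).1 h6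
          linarith
        · left
          exact hbig χ t hc2 ht
    have h3 : (Set.ncard {t : ZMod p | Exc τ χ G t} : ℝ) ≤
        (p : ℝ) ^ (1 / 2 + ν + ε / 2) + 2 * K * (p : ℝ) ^ (1 / 2 + ε / 4) := by
      have h4 := (Set.ncard_le_ncard hsub (Set.toFinite _)).trans (Set.ncard_union_le _ _)
      rw [Set.ncard_coe_finset] at h4
      calc (Set.ncard {t : ZMod p | Exc τ χ G t} : ℝ) ≤
          (Set.ncard {t : ZMod p | Large τ₀ χ G t} : ℝ) + S'.card := by exact_mod_cast h4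
        _ ≤ _ := add_le_add (hs χ hχ) hS'c
    refine h3.trans ?_
    have h4 : (K : ℝ) * (p : ℝ) ^ (1 / 2 + ε / 4) ≤ (p : ℝ) ^ (1 / 2 + ν + ε / 2) := by
      calc (K : ℝ) * (p : ℝ) ^ (1 / 2 + ε / 4) ≤ (p : ℝ) ^ ν * (p : ℝ) ^ (1 / 2 + ε / 4) := by
            gcongr
        _ = (p : ℝ) ^ (ν + (1 / 2 + ε / 4)) := (Real.rpow_add hp0 _ _).symm
        _ ≤ _ := Real.rpow_le_rpow_of_exponent_le hp1.le (by linarith)
    calc (p : ℝ) ^ (1 / 2 + ν + ε / 2) + 2 * K * (p : ℝ) ^ (1 / 2 + ε / 4) ≤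
        5 * (p : ℝ) ^ (1 / 2 + ν + ε / 2) := by
          have : (0 : ℝ) < (p : ℝ) ^ (1 / 2 + ν + ε / 2) := by positivity
          nlinarith
      _ ≤ (p : ℝ) ^ (ε / 2) * (p : ℝ) ^ (1 / 2 + ν + ε / 2) := by gcongr
      _ = (p : ℝ) ^ (1 / 2 + ν + ε) := by
          rw [← Real.rpow_add hp0]
          congr 1
          ring
  · have hsub : {q : ZMod p × DirichletCharacter ℂ p | Exc τ q.2 G q.1} ⊆
        {q : ZMod p × DirichletCharacter ℂ p | Large τ₀ q.2 G q.1} ∪
        ((S.biUnion fun t => (univ.filter fun χ : DirichletCharacter ℂ p =>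
          BadSub τ χ (imG G t)).image fun χ => (t, χ) :
            Finset (ZMod p × DirichletCharacter ℂ p)) : Set (ZMod p × DirichletCharacter ℂ p)) := by
      rintro ⟨t, χ⟩ ht
      rw [Set.mem_ofPred_eq] at ht
      simp only at ht
      rcases ht with ht | ht
      · left
        exact large_mono (by linarith) ht
      · by_cases hc2 : 2 * 1 * (imG G t).card ≤ Fintype.card ι
        · right
          rw [mem_coe, mem_biUnion]
          refine ⟨t, mem_filter.2 ⟨mem_univ _, hc2⟩, mem_image.2 ⟨χ, mem_filter.2 ⟨mem_univ _, ht⟩, rfl⟩⟩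
        · left
          exact hbig χ t hc2 ht
    have h3 : ((S.biUnion fun t => (univ.filter fun χ : DirichletCharacter ℂ p =>
          BadSub τ χ (imG G t)).image fun χ => (t, χ) :
            Finset (ZMod p × DirichletCharacter ℂ p)).card : ℝ) ≤ 4 * K * (p : ℝ) ^ (1 + 8 * τ) := by
      have h4 : (S.biUnion fun t => (univ.filter fun χ : DirichletCharacter ℂ p =>
          BadSub τ χ (imG G t)).image fun χ => (t, χ) :
            Finset (ZMod p × DirichletCharacter ℂ p)).card ≤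
          ∑ t ∈ S, (univ.filter fun χ : DirichletCharacter ℂ p => BadSub τ χ (imG G t)).card :=
        card_biUnion_le.trans (sum_le_sum fun t _ => card_image_le)
      calc _ ≤ ((∑ t ∈ S, (univ.filter fun χ : DirichletCharacter ℂ p =>
            BadSub τ χ (imG G t)).card : ℕ) : ℝ) := by exact_mod_cast h4
        _ = ∑ t ∈ S, ((univ.filter fun χ : DirichletCharacter ℂ p =>
            BadSub τ χ (imG G t)).card : ℝ) := by push_cast; rfl
        _ ≤ ∑ t ∈ S, 2 * (p : ℝ) ^ (1 + 8 * τ) * (1 / (imG G t).card) := by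
            refine sum_le_sum fun t _ => ?_
            have h5 := few_char τ hτ0 (imG G t) (himne t)
            rw [Set.ncard_eq_toFinset_card', Set.toFinset_ofPred] at h5
            rw [mul_one_div]
            exact h5
        _ = 2 * (p : ℝ) ^ (1 + 8 * τ) * ∑ t ∈ S, 1 / ((imG G t).card : ℝ) := by rw [mul_sum]
        _ ≤ 2 * (p : ℝ) ^ (1 + 8 * τ) * (2 * K) := by gcongr
        _ = _ := by ring
    have h4 : (Set.ncard {q : ZMod p × DirichletCharacter ℂ p | Exc τ q.2 G q.1} : ℝ) ≤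
        (p : ℝ) ^ (1 + ν + ε / 2) + 4 * K * (p : ℝ) ^ (1 + 8 * τ) := by
      have h5 := (Set.ncard_le_ncard hsub (Set.toFinite _)).trans (Set.ncard_union_le _ _)
      rw [Set.ncard_coe_finset] at h5
      refine le_trans (by exact_mod_cast h5) (add_le_add hpair h3)
    refine h4.trans ?_
    have h5 : (K : ℝ) * (p : ℝ) ^ (1 + 8 * τ) ≤ (p : ℝ) ^ (1 + ν + ε / 2) := by
      calc (K : ℝ) * (p : ℝ) ^ (1 + 8 * τ) ≤ (p : ℝ) ^ ν * (p : ℝ) ^ (1 + 8 * τ) := by
            gcongr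
        _ = (p : ℝ) ^ (ν + (1 + 8 * τ)) := (Real.rpow_add hp0 _ _).symm
        _ ≤ _ := Real.rpow_le_rpow_of_exponent_le hp1.le (by linarith)
    calc (p : ℝ) ^ (1 + ν + ε / 2) + 4 * K * (p : ℝ) ^ (1 + 8 * τ) ≤
        5 * (p : ℝ) ^ (1 + ν + ε / 2) := by
          have : (0 : ℝ) < (p : ℝ) ^ (1 + ν + ε / 2) := by positivity
          nlinarith
      _ ≤ (p : ℝ) ^ (ε / 2) * (p : ℝ) ^ (1 + ν + ε / 2) := by gcongr
      _ = (p : ℝ) ^ (1 + ν + ε) := by
          rw [← Real.rpow_add hp0]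
          congr 1
          ring

end Pool.Agent.K7.H77.PF
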