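import Mathlib

/-! # Counting walks in which every edge is covered by another edge -/

set_option autoImplicit false
set_option linter.unusedSectionVars false
set_option linter.unusedVariables false

namespace Pool.Agent.K7.H77.PF

open Finset

section

variable {ι Ω : Type*} [Fintype ι] [DecidableEq ι] [DecidableEq Ω]

/-- the `k`-th edge of the walk `V` -/
def edge {m : ℕ} (V : Fin (m + 1) → ι) (k : Fin m) : ι × ι := (V k.castSucc, V k.succ)

/-- the `k`-th edge is bad or related to an earlier edge -/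
def NF (Rt : ι × ι → Finset Ω) (root : ι × ι → Ω) (B : ι × ι → Prop) {m : ℕ}
    (V : Fin (m + 1) → ι) (k : Fin m) : Prop :=
  B (edge V k) ∨ ∃ j : Fin m, j < k ∧
    (root (edge V k) ∈ Rt (edge V j) ∨ root (edge V j) ∈ Rt (edge V k))

/-- each edge is bad or its root belongs to another edge -/
def Deg (Rt : ι × ι → Finset Ω) (root : ι × ι → Ω) (B : ι × ι → Prop) {m : ℕ}
    (V : Fin (m + 1) → ι) : Prop :=
  ∀ k : Fin m, B (edge V k) ∨ ∃ j : Fin m, j ≠ k ∧ root (edge V k) ∈ Rt (edge V j)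

open Classical in
/-- the number of fresh edges -/
noncomputable def fr (Rt : ι × ι → Finset Ω) (root : ι × ι → Ω) (B : ι × ι → Prop) {m : ℕ}
    (V : Fin (m + 1) → ι) : ℕ := ∑ k : Fin m, if NF Rt root B V k then 0 else 1

theorem edge_snoc_castSucc {m : ℕ} (W : Fin (m + 1) → ι) (x : ι) (k : Fin m) :
    edge (Fin.snoc W x : Fin (m + 1 + 1) → ι) k.castSucc = edge W k := by
  unfold edge
  rw [Fin.snoc_castSucc, Fin.succ_castSucc, Fin.snoc_castSucc]

theorem edge_snoc_last {m : ℕ} (W : Fin (m + 1) → ι) (x : ι) :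
    edge (Fin.snoc W x : Fin (m + 1 + 1) → ι) (Fin.last m) = (W (Fin.last m), x) := by
  unfold edge
  rw [Fin.snoc_castSucc, Fin.succ_last, Fin.snoc_last]

theorem NF_snoc_castSucc (Rt : ι × ι → Finset Ω) (root : ι × ι → Ω) (B : ι × ι → Prop) {m : ℕ}
    (W : Fin (m + 1) → ι) (x : ι) (k : Fin m) :
    NF Rt root B (Fin.snoc W x : Fin (m + 1 + 1) → ι) k.castSucc ↔ NF Rt root B W k := by
  unfold NF
  rw [edge_snoc_castSucc]
  refine or_congr Iff.rfl ?_
  constructor
  · rintro ⟨j, hj, h⟩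
    have hjm : (j : ℕ) < m := by
      have : (j : ℕ) < k := hj
      omega
    obtain ⟨j', rfl⟩ : ∃ j' : Fin m, j = j'.castSucc := ⟨⟨j, hjm⟩, rfl⟩
    rw [edge_snoc_castSucc] at h
    exact ⟨j', by simpa using hj, h⟩
  · rintro ⟨j, hj, h⟩
    refine ⟨j.castSucc, by simpa using hj, ?_⟩
    rw [edge_snoc_castSucc]
    exact h

theorem fr_snoc (Rt : ι × ι → Finset Ω) (root : ι × ι → Ω) (B : ι × ι → Prop) {m : ℕ}
    (W : Fin (m + 1) → ι) (x : ι) [Decidable (NF Rt root B (Fin.snoc W x : Fin (m + 1 + 1) → ι) (Fin.last m))] :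
    fr Rt root B (Fin.snoc W x : Fin (m + 1 + 1) → ι) = fr Rt root B W +
      if NF Rt root B (Fin.snoc W x : Fin (m + 1 + 1) → ι) (Fin.last m) then 0 else 1 := by
  classical
  unfold fr
  rw [Fin.sum_univ_castSucc]
  congr 1
  · refine sum_congr rfl fun k _ => ?_
    simp only [NF_snoc_castSucc]
  · congr

theorem card_last (Rt : ι × ι → Finset Ω) (root : ι × ι → Ω) (B : ι × ι → Prop) (D L : ℕ)
    (hD : ∀ e, (Rt e).card ≤ D) (hr : ∀ e, ¬ B e → root e ∈ Rt e)
    (h1 : ∀ i, Set.ncard {x : ι | B (i, x)} ≤ L)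
    (h2 : ∀ v i, Set.ncard {x : ι | v ∈ Rt (i, x)} ≤ L) {m : ℕ} (W : Fin (m + 1) → ι) :
    Set.ncard {x : ι | NF Rt root B (Fin.snoc W x : Fin (m + 1 + 1) → ι) (Fin.last m)} ≤
      L * (1 + m * (D + 1)) := by
  classical
  set i := W (Fin.last m) with hi
  set S1 : Finset ι := univ.filter fun x => B (i, x) with hS1
  set S2 : Fin m → Finset ι := fun j => univ.filter fun x => ¬ B (i, x) ∧ root (i, x) ∈ Rt (edge W j)
    with hS2
  set S3 : Fin m → Finset ι := fun j => univ.filter fun x => root (edge W j) ∈ Rt (i, x) with hS3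
  have hsub : {x : ι | NF Rt root B (Fin.snoc W x : Fin (m + 1 + 1) → ι) (Fin.last m)} ⊆
      ((S1 ∪ univ.biUnion fun j => (S2 j ∪ S3 j) : Finset ι) : Set ι) := by
    intro x hx
    rw [Set.mem_ofPred_eq] at hx
    unfold NF at hx
    rw [edge_snoc_last] at hx
    rw [mem_coe, mem_union, mem_biUnion]
    by_cases hB : B (i, x)
    · exact Or.inl (mem_filter.2 ⟨mem_univ _, hB⟩)
    · rcases hx with h | ⟨j, hj, h⟩
      · exact absurd h hB
      · right
        have hjm : (j : ℕ) < m := hj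
        obtain ⟨j', rfl⟩ : ∃ j' : Fin m, j = j'.castSucc := ⟨⟨j, hjm⟩, rfl⟩
        rw [edge_snoc_castSucc] at h
        refine ⟨j', mem_univ _, mem_union.2 ?_⟩
        rcases h with h | h
        · exact Or.inl (mem_filter.2 ⟨mem_univ _, hB, h⟩)
        · exact Or.inr (mem_filter.2 ⟨mem_univ _, h⟩)
  have hc1 : S1.card ≤ L := by
    have := h1 i
    rwa [Set.ncard_eq_toFinset_card', Set.toFinset_ofPred] at this
  have hcv : ∀ v, (univ.filter fun x => v ∈ Rt (i, x)).card ≤ L := by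
    intro v
    have := h2 v i
    rwa [Set.ncard_eq_toFinset_card', Set.toFinset_ofPred] at this
  have hc3 : ∀ j, (S3 j).card ≤ L := fun j => hcv _
  have hc2 : ∀ j, (S2 j).card ≤ D * L := by
    intro j
    have hs : S2 j ⊆ (Rt (edge W j)).biUnion fun v => univ.filter fun x => v ∈ Rt (i, x) := by
      intro x hx
      obtain ⟨-, hB, h⟩ := mem_filter.1 hx
      exact mem_biUnion.2 ⟨root (i, x), h, mem_filter.2 ⟨mem_univ _, hr _ hB⟩⟩
    calc (S2 j).card ≤ ∑ v ∈ Rt (edge W j), (univ.filter fun x => v ∈ Rt (i, x)).card :=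
          (card_le_card hs).trans card_biUnion_le
      _ ≤ ∑ _v ∈ Rt (edge W j), L := sum_le_sum fun v _ => hcv v
      _ = (Rt (edge W j)).card * L := by rw [sum_const, smul_eq_mul]
      _ ≤ D * L := Nat.mul_le_mul_right _ (hD _)
  calc Set.ncard {x : ι | NF Rt root B (Fin.snoc W x : Fin (m + 1 + 1) → ι) (Fin.last m)}
      ≤ (S1 ∪ univ.biUnion fun j => (S2 j ∪ S3 j)).card := by
        rw [← Set.ncard_coe_finset]
        exact Set.ncard_le_ncard hsub (finite_toSet _)
    _ ≤ S1.card + ∑ j : Fin m, (S2 j ∪ S3 j).card :=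
        (card_union_le _ _).trans (Nat.add_le_add_left card_biUnion_le _)
    _ ≤ L + ∑ _j : Fin m, (D * L + L) :=
        Nat.add_le_add hc1 (sum_le_sum fun j _ => (card_union_le _ _).trans
          (Nat.add_le_add (hc2 j) (hc3 j)))
    _ = L * (1 + m * (D + 1)) := by
        rw [sum_const, card_univ, Fintype.card_fin, smul_eq_mul]
        ring

/-- sums over walks -/
theorem sum_snoc {M : Type*} [AddCommMonoid M] {m : ℕ} (f : (Fin (m + 1) → ι) → M) :
    ∑ V : Fin (m + 1) → ι, f V = ∑ W : Fin m → ι, ∑ x : ι, f (Fin.snoc W x) := by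
  rw [sum_comm, ← Fintype.sum_prod_type' (f := fun (x : ι) (W : Fin m → ι) => f (Fin.snoc W x))]
  exact (Fintype.sum_equiv (Fin.snocEquiv fun _ : Fin (m + 1) => ι) _ _ fun _ => rfl).symm

theorem weight_sum (Rt : ι × ι → Finset Ω) (root : ι × ι → Ω) (B : ι × ι → Prop) (D L : ℕ)
    (hD : ∀ e, (Rt e).card ≤ D) (hr : ∀ e, ¬ B e → root e ∈ Rt e)
    (h1 : ∀ i, Set.ncard {x : ι | B (i, x)} ≤ L)
    (h2 : ∀ v i, Set.ncard {x : ι | v ∈ Rt (i, x)} ≤ L) (M : ℕ) (L' y : ℝ) (hy : 0 ≤ y)
    (hy1 : y ≤ 1) (hyL : (Fintype.card ι : ℝ) * y ≤ L') (hL : (L * (1 + M * (D + 1)) : ℕ) ≤ L')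
    (m : ℕ) (hm : m ≤ M) :
    ∑ V : Fin (m + 1) → ι, y ^ fr Rt root B V ≤ Fintype.card ι * (2 * L') ^ m := by
  classical
  induction m with
  | zero =>
    have h : ∀ V : Fin (0 + 1) → ι, y ^ fr Rt root B V = 1 := by
      intro V
      unfold fr
      simp
    rw [sum_congr rfl fun V _ => h V, sum_const, card_univ, pow_zero, mul_one, nsmul_eq_mul,
      mul_one, Fintype.card_fun, Fintype.card_fin]
    simp
  | succ m ih =>
    have ih' := ih (by omega)
    rw [sum_snoc]
    have hL0 : 0 ≤ L' := le_trans (Nat.cast_nonneg _) hL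
    have h3 : ∀ W : Fin (m + 1) → ι, ∑ x : ι, y ^ fr Rt root B (Fin.snoc W x : Fin (m + 1 + 1) → ι) ≤
        y ^ fr Rt root B W * (2 * L') := by
      intro W
      have h4 : ∀ x : ι, y ^ fr Rt root B (Fin.snoc W x : Fin (m + 1 + 1) → ι) ≤
          y ^ fr Rt root B W *
            ((if NF Rt root B (Fin.snoc W x : Fin (m + 1 + 1) → ι) (Fin.last m) then 1 else 0) + y) := by
        intro x
        rw [fr_snoc, pow_add]
        refine mul_le_mul_of_nonneg_left ?_ (pow_nonneg hy _)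
        split_ifs with h
        · rw [pow_zero]; linarith
        · rw [pow_one, zero_add]
      refine (sum_le_sum fun x _ => h4 x).trans ?_
      rw [← mul_sum]
      refine mul_le_mul_of_nonneg_left ?_ (pow_nonneg hy _)
      rw [sum_add_distrib, sum_const, card_univ, nsmul_eq_mul, sum_boole]
      have h5 := card_last Rt root B D L hD hr h1 h2 W
      rw [Set.ncard_eq_toFinset_card', Set.toFinset_ofPred] at h5
      have h6 : ((univ.filter fun x => NF Rt root B (Fin.snoc W x : Fin (m + 1 + 1) → ι)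
          (Fin.last m)).card : ℝ) ≤ L' := by
        refine le_trans ?_ hL
        have h7 : L * (1 + m * (D + 1)) ≤ L * (1 + M * (D + 1)) :=
          Nat.mul_le_mul_left _ (Nat.add_le_add_left (Nat.mul_le_mul_right _ (by omega)) _)
        exact_mod_cast h5.trans h7
      linarith
    calc ∑ W : Fin (m + 1) → ι, ∑ x : ι, y ^ fr Rt root B (Fin.snoc W x : Fin (m + 1 + 1) → ι)
        ≤ ∑ W : Fin (m + 1) → ι, y ^ fr Rt root B W * (2 * L') := sum_le_sum fun W _ => h3 W
      _ = (∑ W : Fin (m + 1) → ι, y ^ fr Rt root B W) * (2 * L') := by rw [sum_mul]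
      _ ≤ (Fintype.card ι * (2 * L') ^ m) * (2 * L') :=
          mul_le_mul_of_nonneg_right ih' (by linarith)
      _ = _ := by rw [pow_succ]; ring

theorem fresh_le (Rt : ι × ι → Finset Ω) (root : ι × ι → Ω) (B : ι × ι → Prop) (D : ℕ)
    (hD : ∀ e, (Rt e).card ≤ D) (hr : ∀ e, ¬ B e → root e ∈ Rt e) {m : ℕ}
    (V : Fin (m + 1) → ι) (hV : Deg Rt root B V) : (D + 1) * fr Rt root B V ≤ D * m := by
  classical
  set Fs : Finset (Fin m) := univ.filter fun k => ¬ NF Rt root B V k with hFs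
  set Ns : Finset (Fin m) := univ.filter fun k => NF Rt root B V k with hNs
  have h1 : fr Rt root B V = Fs.card := by
    unfold fr
    rw [hFs, card_filter]
    refine sum_congr rfl fun k _ => ?_
    split_ifs <;> simp_all
  have h2 : Ns.card + Fs.card = m := by
    rw [hNs, hFs, card_filter_add_card_filter_not, card_univ, Fintype.card_fin]
  have h3 : ∀ j ∈ Fs, ∃ k ∈ Ns, j < k ∧ root (edge V j) ∈ Rt (edge V k) := by
    intro j hj
    have hj' := (mem_filter.1 hj).2
    unfold NF at hj'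
    push Not at hj'
    rcases hV j with h | ⟨k, hk, h⟩
    · exact absurd h hj'.1
    · have hjk : j < k := by
        by_contra hlt
        have hkj : k < j := lt_of_le_of_ne (not_lt.1 hlt) hk
        exact (hj'.2 k hkj).1 h
      exact ⟨k, mem_filter.2 ⟨mem_univ _, Or.inr ⟨j, hjk, Or.inr h⟩⟩, hjk, h⟩
  choose! c hc1 hc2 hc3 using h3
  have h4 : Fs.card ≤ D * (Fs.image c).card := by
    refine card_le_mul_card_image Fs D fun k _ => ?_
    refine le_trans ?_ (hD (edge V k))
    refine card_le_card_of_injOn (fun j => root (edge V j)) ?_ ?_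
    · intro j hj
      obtain ⟨h5, h6⟩ := mem_filter.1 (mem_coe.1 hj)
      rw [← h6]
      exact hc3 j h5
    · intro j hj j' hj' hjj
      have h5 := (mem_filter.1 (mem_coe.1 hj)).1
      have h5' := (mem_filter.1 (mem_coe.1 hj')).1
      have h6 := (mem_filter.1 h5).2
      have h6' := (mem_filter.1 h5').2
      unfold NF at h6 h6'
      push Not at h6 h6'
      simp only at hjj
      rcases lt_trichotomy j j' with h | h | h
      · exfalso
        have := (h6'.2 j h).2
        rw [hjj] at this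
        exact this (hr _ h6'.1)
      · exact h
      · exfalso
        have := (h6.2 j' h).2
        rw [← hjj] at this
        exact this (hr _ h6.1)
  have h5 : (Fs.image c).card ≤ Ns.card := by
    refine card_le_card fun k hk => ?_
    obtain ⟨j, hj, rfl⟩ := mem_image.1 hk
    exact hc1 j hj
  rw [h1]
  have h6 : Fs.card ≤ D * Ns.card := h4.trans (Nat.mul_le_mul_left _ h5)
  have h7 : D * m = D * Ns.card + D * Fs.card := by rw [← mul_add, h2]
  rw [h7]
  nlinarith

/-- the number of degenerate walks with `2 (D + 1) n` edges -/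
theorem card_Deg (Rt : ι × ι → Finset Ω) (root : ι × ι → Ω) (B : ι × ι → Prop) (D L : ℕ)
    (hD : ∀ e, (Rt e).card ≤ D) (hr : ∀ e, ¬ B e → root e ∈ Rt e)
    (h1 : ∀ i, Set.ncard {x : ι | B (i, x)} ≤ L)
    (h2 : ∀ v i, Set.ncard {x : ι | v ∈ Rt (i, x)} ≤ L) (n : ℕ) (hN : 0 < Fintype.card ι)
    (L' : ℝ) (hL'0 : 0 < L') (hL'N : L' ≤ (Fintype.card ι : ℝ))
    (hL : (L * (1 + ((D + 1) * n) * (D + 1)) : ℕ) ≤ L') :
    (Set.ncard {V : Fin ((D + 1) * n + 1) → ι | Deg Rt root B V} : ℝ) ≤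
      (Fintype.card ι : ℝ) * 2 ^ ((D + 1) * n) * (Fintype.card ι : ℝ) ^ (D * n) * L' ^ n := by
  classical
  set N : ℝ := (Fintype.card ι : ℝ) with hNdef
  have hN0 : 0 < N := by rw [hNdef]; exact_mod_cast hN
  set y : ℝ := L' / N with hy
  have hy0 : 0 < y := div_pos hL'0 hN0
  have hy1 : y ≤ 1 := (div_le_one hN0).2 hL'N
  have hyN : N * y = L' := by rw [hy]; field_simp
  have h3 := weight_sum Rt root B D L hD hr h1 h2 ((D + 1) * n) L' y hy0.le hy1
    (by rw [← hNdef, hyN]) hL ((D + 1) * n) le_rfl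
  have h4 : (Set.ncard {V : Fin ((D + 1) * n + 1) → ι | Deg Rt root B V} : ℝ) * y ^ (D * n) ≤
      ∑ V : Fin ((D + 1) * n + 1) → ι, y ^ fr Rt root B V := by
    rw [Set.ncard_eq_toFinset_card', Set.toFinset_ofPred, ← nsmul_eq_mul, ← sum_const]
    refine le_trans (sum_le_sum (g := fun V => y ^ fr Rt root B V) fun V hV => ?_)
      (sum_le_sum_of_subset_of_nonneg (filter_subset _ _) fun V _ _ => pow_nonneg hy0.le _)
    refine pow_le_pow_of_le_one hy0.le hy1 ?_
    have h5 := fresh_le Rt root B D hD hr V (mem_filter.1 hV).2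
    have h6 : (D + 1) * fr Rt root B V ≤ (D + 1) * (D * n) := by
      refine h5.trans (le_of_eq ?_)
      ring
    exact Nat.le_of_mul_le_mul_left h6 (by omega)
  have h5 := h4.trans h3
  have h6 : y ^ (D * n) * N ^ (D * n) = L' ^ (D * n) := by
    rw [← mul_pow, mul_comm y N, hyN]
  have h7 : (0 : ℝ) < L' ^ (D * n) := by positivity
  set c : ℝ := (Set.ncard {V : Fin ((D + 1) * n + 1) → ι | Deg Rt root B V} : ℝ) with hc
  have h8 : c * L' ^ (D * n) ≤ (N * 2 ^ ((D + 1) * n) * N ^ (D * n) * L' ^ n) * L' ^ (D * n) := by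
    calc c * L' ^ (D * n) = (c * y ^ (D * n)) * N ^ (D * n) := by rw [← h6]; ring
      _ ≤ (N * (2 * L') ^ ((D + 1) * n)) * N ^ (D * n) :=
          mul_le_mul_of_nonneg_right h5 (by positivity)
      _ = _ := by
        have e : (D + 1) * n = D * n + n := by ring
        rw [mul_pow, e, pow_add L']
        ring
  exact le_of_mul_le_mul_right h8 h7

end

end Pool.Agent.K7.H77.PF
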