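import Pool.Agent.H585R2.DiffC
import Pool.Agent.H435R3.Weil.NV0

/-! # Double roots of `F (y, t) - F (a, t)` in `t`, generic `y` -/

set_option autoImplicit false
set_option linter.unusedSectionVars false

namespace Pool.Agent.K7.H77.PF

open Finset Polynomial

/-- an additive map with the Leibniz rule as a differential structure -/
@[reducible] def mkDiff {K : Type*} [Field K] (d : K →+ K) (hd : ∀ a b, d (a * b) = a * d b + b * d a) :
    Differential K := ⟨Derivation.mk' d.toIntLinearMap hd⟩

/-- a common irreducible factor of `H` and of its derivative divides the polynomial obtained by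
applying a derivation to the coefficients -/
theorem dvd_mapCoeffs {K : Type*} [Field K] [Differential K] (H P : K[X]) (hP : Irreducible P)
    (h1 : P ∣ H) (h2 : P ∣ derivative H) (h3 : derivative P ≠ 0) :
    P ∣ Differential.mapCoeffs H := by
  obtain ⟨E, rfl⟩ := h1
  have hdeg : ¬ P ∣ derivative P := by
    intro h
    have h4 := degree_le_of_dvd h h3
    have h5 := degree_derivative_lt hP.ne_zero
    exact absurd (lt_of_le_of_lt h4 h5) (lt_irrefl _)
  have h4 : P ∣ E := by
    rw [derivative_mul] at h2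
    have h5 : P ∣ derivative P * E := (dvd_add_left (Dvd.intro _ rfl)).1 h2
    exact (hP.prime.dvd_or_dvd h5).resolve_left hdeg
  obtain ⟨E2, rfl⟩ := h4
  rw [Derivation.leibniz, Derivation.leibniz]
  simp only [smul_eq_mul]
  refine dvd_add (Dvd.intro _ rfl) ?_
  exact Dvd.intro _ (mul_assoc _ _ _).symm

section

variable {k : Type} [Field k]

/-- the specialization at `x = a` of `F (x, t) = ∑ c_i (t) x ^ i`, `1 ≤ i ≤ D` -/
noncomputable def G1 (D : ℕ) (c : ℕ → k[X]) (a : k) : k[X] := ∑ i ∈ Icc 1 D, c i * C (a ^ i)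

/-- the coefficient of `t ^ j` -/
noncomputable def fj (D : ℕ) (c : ℕ → k[X]) (j : ℕ) : k[X] :=
  ∑ i ∈ Icc 1 D, C ((c i).coeff j) * X ^ i

/-- `F (y, t) - F (a, t)` as a polynomial in `t` over `k[y]` -/
noncomputable def HR (D : ℕ) (c : ℕ → k[X]) (a : k) : (k[X])[X] :=
  ∑ i ∈ Icc 1 D, (c i).map C * C (X ^ i) - (G1 D c a).map C

/-- the derivative with respect to `y` -/
noncomputable def JR (D : ℕ) (c : ℕ → k[X]) : (k[X])[X] :=
  ∑ i ∈ Icc 1 D, (c i).map C * C (derivative (X ^ i))

theorem G1_coeff (D : ℕ) (c : ℕ → k[X]) (a : k) (j : ℕ) :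
    (G1 D c a).coeff j = (fj D c j).eval a := by
  unfold G1 fj
  rw [finsetSum_coeff, eval_finsetSum]
  refine sum_congr rfl fun i _ => ?_
  rw [coeff_mul_C, eval_mul, eval_C, eval_pow, eval_X]

theorem HR_coeff (D : ℕ) (c : ℕ → k[X]) (a : k) (j : ℕ) :
    (HR D c a).coeff j = fj D c j - C ((fj D c j).eval a) := by
  unfold HR
  rw [coeff_sub, coeff_map, G1_coeff, finsetSum_coeff]
  congr 1
  unfold fj
  refine sum_congr rfl fun i _ => ?_
  rw [coeff_mul_C, coeff_map]

theorem JR_coeff (D : ℕ) (c : ℕ → k[X]) (j : ℕ) :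
    (JR D c).coeff j = derivative (fj D c j) := by
  unfold JR fj
  rw [finsetSum_coeff, derivative_sum]
  refine sum_congr rfl fun i _ => ?_
  rw [coeff_mul_C, coeff_map, derivative_C_mul]

theorem HR_map (D : ℕ) (c : ℕ → k[X]) (a b : k) :
    (HR D c a).map (evalRingHom b) = G1 D c b - G1 D c a := by
  ext j
  rw [coeff_map, HR_coeff, coeff_sub, G1_coeff, G1_coeff, coe_evalRingHom, eval_sub, eval_C]

theorem fj_coeff (D : ℕ) (c : ℕ → k[X]) (j i : ℕ) :
    (fj D c j).coeff i = if i ∈ Icc 1 D then (c i).coeff j else 0 := by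
  unfold fj
  rw [finsetSum_coeff]
  simp_rw [coeff_C_mul_X_pow]
  by_cases h : i ∈ Icc 1 D
  · rw [if_pos h, sum_eq_single i]
    · simp
    · intro i' _ hi'
      rw [if_neg (Ne.symm hi')]
    · intro h'
      exact absurd h h'
  · rw [if_neg h, sum_eq_zero]
    intro i' hi'
    rw [if_neg]
    rintro rfl
    exact h hi'

theorem fj_natDegree (D : ℕ) (c : ℕ → k[X]) (j : ℕ) : (fj D c j).natDegree ≤ D := by
  rw [natDegree_le_iff_coeff_eq_zero]
  intro i hi
  rw [fj_coeff, if_neg]
  rw [mem_Icc]
  omega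

/-- the assumptions: `m` is the degree in `t`, the coefficients have no common root, the
characteristic is large -/
structure Dat (D : ℕ) (c : ℕ → k[X]) (m : ℕ) : Prop where
  deg : ∀ i ∈ Icc 1 D, (c i).natDegree ≤ m
  top : ∃ i ∈ Icc 1 D, (c i).coeff m ≠ 0
  m1 : 1 ≤ m
  mD : m ≤ D
  bez : ∃ u : ℕ → k[X], ∑ i ∈ Icc 1 D, u i * c i = 1
  char : ∀ n : ℕ, 1 ≤ n → n ≤ D → (n : k) ≠ 0

variable {D : ℕ} {c : ℕ → k[X]} {m : ℕ}

theorem Dat.fj_zero (h : Dat D c m) (j : ℕ) (hj : m < j) : fj D c j = 0 := by
  ext i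
  rw [fj_coeff, coeff_zero]
  split_ifs with hi
  · exact coeff_eq_zero_of_natDegree_lt (lt_of_le_of_lt (h.deg i hi) hj)
  · rfl

theorem Dat.fj_der (h : Dat D c m) : derivative (fj D c m) ≠ 0 := by
  obtain ⟨i, hi, hi'⟩ := h.top
  intro h0
  have h1 : (derivative (fj D c m)).coeff (i - 1) = 0 := by rw [h0, coeff_zero]
  rw [mem_Icc] at hi
  rw [coeff_derivative] at h1
  have e : i - 1 + 1 = i := by omega
  rw [e, fj_coeff, if_pos (mem_Icc.2 hi)] at h1
  have e2 : ((i - 1 : ℕ) : k) + 1 = (i : k) := by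
    have : i = (i - 1) + 1 := by omega
    conv_rhs => rw [this]
    push_cast
    rfl
  rw [e2] at h1
  rcases mul_eq_zero.1 h1 with h2 | h2
  · exact hi' h2
  · exact h.char i hi.1 hi.2 h2

theorem Dat.HR_natDegree (h : Dat D c m) (a : k) : (HR D c a).natDegree = m := by
  apply le_antisymm
  · rw [natDegree_le_iff_coeff_eq_zero]
    intro j hj
    rw [HR_coeff, h.fj_zero j hj]
    simp
  · apply le_natDegree_of_ne_zero
    rw [HR_coeff]
    intro h0
    have h1 : derivative (fj D c m - C ((fj D c m).eval a)) = 0 := by rw [h0, derivative_zero]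
    rw [derivative_sub, derivative_C, sub_zero] at h1
    exact h.fj_der h1

theorem Dat.HR_top (h : Dat D c m) (a : k) : (HR D c a).coeff m ≠ 0 := by
  have h1 := h.HR_natDegree a
  intro h0
  have h2 : (HR D c a).leadingCoeff = 0 := by
    unfold leadingCoeff
    rw [h1, h0]
  rw [leadingCoeff_eq_zero] at h2
  rw [h2, natDegree_zero] at h1
  have := h.m1
  omega

/-- the resultant with the derivative -/
noncomputable def rh (D : ℕ) (c : ℕ → k[X]) (m : ℕ) (a : k) : k[X] :=
  resultant (HR D c a) (derivative (HR D c a)) m (m - 1)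

theorem map_resultant_zero {R : Type*} [Field R] (φ : k[X] →+* R) (h : Dat D c m) (a : k)
    (htop : φ ((HR D c a).coeff m) ≠ 0) (hchar : (m : R) ≠ 0) :
    ((HR D c a).map φ).natDegree = m ∧
    (φ (rh D c m a) = 0 ↔ ¬ IsCoprime ((HR D c a).map φ) (derivative ((HR D c a).map φ))) := by
  have hm1 := h.m1
  have hd : ((HR D c a).map φ).natDegree = m := by
    apply le_antisymm
    · exact natDegree_map_le.trans (h.HR_natDegree a).le
    · apply le_natDegree_of_ne_zero
      rw [coeff_map]
      exact htop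
  have hd' : (derivative ((HR D c a).map φ)).natDegree = m - 1 := by
    apply le_antisymm
    · refine (natDegree_derivative_le _).trans ?_
      rw [hd]
    · apply le_natDegree_of_ne_zero
      rw [coeff_derivative]
      have e : m - 1 + 1 = m := by omega
      rw [e, coeff_map]
      refine mul_ne_zero htop ?_
      have e2 : ((m - 1 : ℕ) : R) + 1 = (m : R) := by
        have : m = (m - 1) + 1 := by omega
        conv_rhs => rw [this]
        push_cast
        rfl
      rw [e2]
      exact hchar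
  refine ⟨hd, ?_⟩
  have e : φ (rh D c m a) = resultant ((HR D c a).map φ) (derivative ((HR D c a).map φ)) := by
    rw [rh, ← resultant_map_map, ← derivative_map, hd, hd']
  rw [e, resultant_eq_zero_iff]
  have hne : (HR D c a).map φ ≠ 0 := by
    intro h0
    rw [h0, natDegree_zero] at hd
    omega
  exact ⟨fun h => h.2, fun h => ⟨Or.inl hne, h⟩⟩

/-- the point `y` -/
noncomputable def yL (k : Type) [Field k] : AlgebraicClosure (RatFunc k) :=
  algebraMap (RatFunc k) (AlgebraicClosure (RatFunc k)) RatFunc.X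

theorem yL_transcendental (M : IntermediateField k (AlgebraicClosure (RatFunc k)))
    (hM : Algebra.IsAlgebraic k M) (q : M[X]) (hq : aeval (yL k) q = 0) : q = 0 := by
  by_contra hne
  have h1 : IsAlgebraic M (yL k) := ⟨q, hne, hq⟩
  have h2 : IsAlgebraic k (yL k) := h1.restrictScalars k
  have h3 : IsAlgebraic k (RatFunc.X : RatFunc k) := by
    have := (isAlgebraic_algebraMap_iff
      (algebraMap (RatFunc k) (AlgebraicClosure (RatFunc k))).injective).1 h2
    exact this
  exact RatFunc.transcendental_X h3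

/-- `F (y, θ) = F (a, θ)` is impossible for `θ` algebraic over `k` -/
theorem Dat.not_alg (h : Dat D c m) (a : k) (θ : AlgebraicClosure (RatFunc k))
    (hθ : ∑ i ∈ Icc 1 D, aeval θ (c i) * yL k ^ i = aeval θ (G1 D c a)) : ¬ IsAlgebraic k θ := by
  intro hal
  set M : IntermediateField k (AlgebraicClosure (RatFunc k)) :=
    algebraicClosure k (AlgebraicClosure (RatFunc k)) with hM
  have hθM : θ ∈ M := by
    rw [hM, mem_algebraicClosure_iff]
    exact hal
  set θ' : M := ⟨θ, hθM⟩ with hθ'
  have hval : ∀ q : k[X], algebraMap M (AlgebraicClosure (RatFunc k)) (aeval θ' q) =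
      aeval θ q := by
    intro q
    have := aeval_algebraMap_apply (AlgebraicClosure (RatFunc k)) θ' q
    exact this.symm
  set q : M[X] := ∑ i ∈ Icc 1 D, C (aeval θ' (c i)) * X ^ i - C (aeval θ' (G1 D c a)) with hq
  have hq0 : aeval (yL k) q = 0 := by
    rw [hq, map_sub, map_sum]
    simp only [map_mul, map_pow, aeval_C, aeval_X, hval]
    rw [hθ, sub_self]
  have hz := yL_transcendental M (by rw [hM]; infer_instance) q hq0
  have hci : ∀ i ∈ Icc 1 D, aeval θ' (c i) = 0 := by
    intro i hi
    have h1 : q.coeff i = 0 := by rw [hz, coeff_zero]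
    rw [hq, coeff_sub, finsetSum_coeff] at h1
    simp_rw [coeff_C_mul_X_pow] at h1
    rw [sum_eq_single i, if_pos rfl, coeff_C, if_neg, sub_zero] at h1
    · exact h1
    · rw [mem_Icc] at hi
      omega
    · intro i' _ hi'
      rw [if_neg (Ne.symm hi')]
    · intro h'
      exact absurd hi h'
  obtain ⟨u, hu⟩ := h.bez
  have h1 : aeval θ' (∑ i ∈ Icc 1 D, u i * c i) = 1 := by rw [hu, map_one]
  rw [map_sum, sum_eq_zero] at h1
  · exact zero_ne_one h1
  · intro i hi
    rw [map_mul, hci i hi, mul_zero]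

/-- an exceptional `a` gives a root of the derivative with respect to `y` -/
theorem Dat.exc_root (h : Dat D c m) (a : k) (ha : rh D c m a = 0) :
    ∃ θ : AlgebraicClosure (RatFunc k),
      eval₂ ((algebraMap (RatFunc k) (AlgebraicClosure (RatFunc k))).comp
        (algebraMap k[X] (RatFunc k))) θ (JR D c) = 0 ∧
      ∑ i ∈ Icc 1 D, aeval θ (c i) * yL k ^ i = aeval θ (G1 D c a) := by
  set φ := algebraMap k[X] (RatFunc k) with hφ
  have hφi : Function.Injective φ := RatFunc.algebraMap_injective k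
  have hcharK : ∀ n : ℕ, 1 ≤ n → n ≤ D → (n : RatFunc k) ≠ 0 := by
    intro n h1 h2 h3
    apply h.char n h1 h2
    have h4 : algebraMap k (RatFunc k) (n : k) = 0 := by rw [map_natCast, h3]
    exact (map_eq_zero _).1 h4
  obtain ⟨hd, hiff⟩ := map_resultant_zero φ h a (fun h0 => h.HR_top a (hφi (by rw [h0, map_zero])))
    (hcharK m h.m1 h.mD)
  rw [ha, map_zero] at hiff
  have hnc := hiff.1 rfl
  set HK := (HR D c a).map φ with hHK
  have hne : HK ≠ 0 := by
    intro h0
    rw [h0, natDegree_zero] at hd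
    have := h.m1
    omega
  obtain ⟨P, hP, hP1, hP2⟩ : ∃ P : (RatFunc k)[X], Irreducible P ∧ P ∣ HK ∧ P ∣ derivative HK := by
    by_contra hcon
    push Not at hcon
    exact hnc (isCoprime_of_irreducible_dvd (fun h0 => hne h0.1) fun z hz h1 h2 => hcon z hz h1 h2)
  let _ : Differential (RatFunc k) :=
    mkDiff (Pool.Agent.H585R2.DiffC.ddt : Derivation k (RatFunc k) (RatFunc k)).toLinearMap.toAddMonoidHom
      (fun a b => (Pool.Agent.H585R2.DiffC.ddt : Derivation k (RatFunc k) (RatFunc k)).leibniz a b)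
  have hPdeg : P.natDegree ≤ m := by
    rw [← hd]
    exact natDegree_le_of_dvd hP1 hne
  have hPpos : 1 ≤ P.natDegree := Nat.succ_le_of_lt hP.natDegree_pos
  have hPd : derivative P ≠ 0 := by
    intro h0
    have h1 : (derivative P).coeff (P.natDegree - 1) = 0 := by rw [h0, coeff_zero]
    rw [coeff_derivative] at h1
    have e : P.natDegree - 1 + 1 = P.natDegree := by omega
    rw [e] at h1
    have e2 : ((P.natDegree - 1 : ℕ) : RatFunc k) + 1 = (P.natDegree : RatFunc k) := by
      conv_rhs => rw [← e]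
      push_cast
      rfl
    rw [e2] at h1
    rcases mul_eq_zero.1 h1 with h2 | h2
    · rw [coeff_natDegree, leadingCoeff_eq_zero] at h2
      exact hP.ne_zero h2
    · exact hcharK _ hPpos (hPdeg.trans h.mD) h2
  have hdvd := dvd_mapCoeffs HK P hP hP1 hP2 hPd
  have hJ : Differential.mapCoeffs HK = (JR D c).map φ := by
    ext j
    rw [Differential.coeff_mapCoeffs, hHK, coeff_map, coeff_map, JR_coeff, HR_coeff]
    change Pool.Agent.H585R2.DiffC.ddt (φ (fj D c j - C ((fj D c j).eval a))) = _
    rw [Pool.Agent.H585R2.DiffC.D_poly _ Pool.Agent.H585R2.DiffC.ddt_X, derivative_sub,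
      derivative_C, sub_zero]
  rw [hJ] at hdvd
  -- a root
  have hPL : (P.map (algebraMap (RatFunc k) (AlgebraicClosure (RatFunc k)))).degree ≠ 0 := by
    rw [degree_map, degree_eq_natDegree hP.ne_zero]
    have : P.natDegree ≠ 0 := by omega
    exact_mod_cast this
  obtain ⟨θ, hθ⟩ := IsAlgClosed.exists_root _ hPL
  have hθ' : aeval θ P = 0 := by
    rw [IsRoot, eval_map_algebraMap] at hθ
    exact hθ
  refine ⟨θ, ?_, ?_⟩
  · obtain ⟨E, hE⟩ := hdvd
    have h1 : aeval θ ((JR D c).map φ) = 0 := by rw [hE, map_mul, hθ', zero_mul]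
    rw [aeval_def, eval₂_map] at h1
    exact h1
  · obtain ⟨E, hE⟩ := hP1
    have h1 : aeval θ HK = 0 := by rw [hE, map_mul, hθ', zero_mul]
    rw [hHK, aeval_def, eval₂_map, HR, eval₂_sub, eval₂_finsetSum, eval₂_map] at h1
    rw [sub_eq_zero] at h1
    have e0 : ((algebraMap (RatFunc k) (AlgebraicClosure (RatFunc k))).comp φ).comp C =
        algebraMap k (AlgebraicClosure (RatFunc k)) := by
      ext z
      simp only [RingHom.comp_apply]
      rw [hφ, RatFunc.algebraMap_C]
      exact (IsScalarTower.algebraMap_apply k (RatFunc k) (AlgebraicClosure (RatFunc k)) z).symm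
    rw [e0] at h1
    rw [aeval_def, ← h1]
    refine sum_congr rfl fun i _ => ?_
    rw [eval₂_mul, eval₂_map, e0, eval₂_C, aeval_def]
    congr 1
    rw [RingHom.comp_apply, map_pow, map_pow, hφ, RatFunc.algebraMap_X]
    rfl

/-- the exceptional `a` are few -/
theorem Dat.exc_card (h : Dat D c m) (S : Finset k) (hS : ∀ a ∈ S, rh D c m a = 0) :
    S.card ≤ D * D := by
  classical
  set ψ := ((algebraMap (RatFunc k) (AlgebraicClosure (RatFunc k))).comp
        (algebraMap k[X] (RatFunc k))) with hψ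
  have hψi : Function.Injective ψ := by
    rw [hψ]
    exact (algebraMap (RatFunc k) (AlgebraicClosure (RatFunc k))).injective.comp
      (RatFunc.algebraMap_injective k)
  choose! θ h1 h2 using fun a ha => h.exc_root a (hS a ha)
  set JL := (JR D c).map ψ with hJL
  have hJ0 : JL ≠ 0 := by
    intro h0
    have h3 : JL.coeff m = 0 := by rw [h0, coeff_zero]
    rw [hJL, coeff_map, JR_coeff] at h3
    exact h.fj_der (hψi (by rw [h3, map_zero]))
  have hJd : JL.natDegree ≤ D := by
    refine natDegree_map_le.trans (le_trans ?_ h.mD)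
    rw [natDegree_le_iff_coeff_eq_zero]
    intro j hj
    rw [JR_coeff, h.fj_zero j hj, derivative_zero]
  have h3 : S.card ≤ D * (S.image θ).card := by
    refine card_le_mul_card_image S D fun b hb => ?_
    obtain ⟨a₀, ha₀, rfl⟩ := mem_image.1 hb
    have h4 : (S.filter fun a => θ a = θ a₀) ⊆
        (fj D c m - C ((fj D c m).eval a₀)).roots.toFinset := by
      intro a ha
      obtain ⟨ha1, ha2⟩ := mem_filter.1 ha
      have hW : G1 D c a = G1 D c a₀ := by
        by_contra hne
        have h5 := h2 a ha1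
        have h6 := h2 a₀ ha₀
        rw [ha2] at h5
        have h7 : aeval (θ a₀) (G1 D c a - G1 D c a₀) = 0 := by
          rw [map_sub, ← h5, ← h6, sub_self]
        exact h.not_alg a₀ (θ a₀) h6 ⟨_, sub_ne_zero.2 hne, h7⟩
      have h5 : (fj D c m).eval a = (fj D c m).eval a₀ := by
        rw [← G1_coeff, ← G1_coeff, hW]
      rw [Multiset.mem_toFinset, mem_roots, IsRoot, eval_sub, eval_C, h5, sub_self]
      rw [← HR_coeff]
      exact h.HR_top a₀
    refine (card_le_card h4).trans ((Multiset.toFinset_card_le _).trans ((card_roots' _).trans ?_))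
    rw [natDegree_sub_C]
    exact fj_natDegree D c m
  refine h3.trans (Nat.mul_le_mul_left _ ?_)
  have h4 : S.image θ ⊆ JL.roots.toFinset := by
    intro b hb
    obtain ⟨a, ha, rfl⟩ := mem_image.1 hb
    rw [Multiset.mem_toFinset, mem_roots hJ0, IsRoot, hJL, eval_map]
    exact h1 a ha
  exact (card_le_card h4).trans ((Multiset.toFinset_card_le _).trans ((card_roots' _).trans hJd))

end

end Pool.Agent.K7.H77.PF
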