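import Pool.Agent.K7.H77.PF.Dich1

/-! # Bad partners of a nonexceptional parameter -/

set_option autoImplicit false
set_option linter.unusedSectionVars false

namespace Pool.Agent.K7.H77.PF

open Finset Polynomial

section

variable {k : Type} [Field k]
variable {D : ℕ} {c : ℕ → k[X]} {m : ℕ}

theorem HR_coeff_deg (D : ℕ) (c : ℕ → k[X]) (a : k) (j : ℕ) :
    ((HR D c a).coeff j).natDegree ≤ D := by
  rw [HR_coeff, natDegree_sub_C]
  exact fj_natDegree D c j

theorem rh_natDegree (D : ℕ) (c : ℕ → k[X]) (m : ℕ) (a : k) :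
    (rh D c m a).natDegree ≤ (m + (m - 1)) * D := by
  unfold rh resultant
  have h1 : ∀ i j, ((sylvester (HR D c a) (derivative (HR D c a)) m (m - 1)) i j).natDegree ≤
      (fun _ : Fin (m + (m - 1)) => D) j := by
    intro i j
    simp only
    unfold sylvester
    rw [Matrix.of_apply]
    induction j using Fin.addCases with
    | left j =>
      rw [Fin.addCases_left]
      split_ifs
      · rw [coeff_derivative]
        have h2 : ∀ n : ℕ, ((n : k[X]) + 1) = C ((n : k) + 1) := by
          intro n
          rw [C_add, C_1]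
          rfl
        rw [h2, mul_comm]
        exact (natDegree_C_mul_le _ _).trans (HR_coeff_deg D c a _)
      · rw [natDegree_zero]; omega
    | right j =>
      rw [Fin.addCases_right]
      split_ifs
      · exact HR_coeff_deg D c a _
      · rw [natDegree_zero]; omega
  refine (Pool.Agent.H435R3.Weil.NV0h.natDegree_det_le' _ (fun _ => D) h1).trans ?_
  rw [sum_const, card_univ, Fintype.card_fin, smul_eq_mul]

/-- not bad: all the roots are simple -/
theorem Dat.sep (h : Dat D c m) (a b : k) (h1 : (rh D c m a).eval b ≠ 0)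
    (h2 : (fj D c m).eval b ≠ (fj D c m).eval a) :
    (G1 D c b - G1 D c a).natDegree = m ∧
      IsCoprime (G1 D c b - G1 D c a) (derivative (G1 D c b - G1 D c a)) := by
  have h3 := map_resultant_zero (evalRingHom b) h a (by
    rw [coe_evalRingHom, HR_coeff, eval_sub, eval_C]
    exact sub_ne_zero.2 h2) (h.char m h.m1 h.mD)
  rw [HR_map] at h3
  refine ⟨h3.1, ?_⟩
  by_contra hcon
  exact h1 (h3.2.2 hcon)

/-- not bad: there is a simple root -/
theorem Dat.simple (h : Dat D c m) (a b : k) (h1 : (rh D c m a).eval b ≠ 0)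
    (h2 : (fj D c m).eval b ≠ (fj D c m).eval a) :
    ∃ v : AlgebraicClosure k,
      rootMultiplicity v ((G1 D c b - G1 D c a).map (algebraMap k (AlgebraicClosure k))) = 1 := by
  obtain ⟨h3, h4⟩ := h.sep a b h1 h2
  set φ := algebraMap k (AlgebraicClosure k) with hφ
  set Q := G1 D c b - G1 D c a with hQ
  have hne : Q ≠ 0 := by
    intro h0
    rw [h0, natDegree_zero] at h3
    have := h.m1
    omega
  have hmne : Q.map φ ≠ 0 := (Polynomial.map_ne_zero_iff φ.injective).2 hne
  obtain ⟨v, hv⟩ := IsAlgClosed.exists_root (Q.map φ) (by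
    rw [degree_map, degree_eq_natDegree hne, h3]
    have := h.m1
    have : m ≠ 0 := by omega
    exact_mod_cast this)
  refine ⟨v, ?_⟩
  have h5 : 0 < rootMultiplicity v (Q.map φ) := (rootMultiplicity_pos hmne).2 hv
  have h6 : ¬ 1 < rootMultiplicity v (Q.map φ) := by
    intro h6
    rw [one_lt_rootMultiplicity_iff_isRoot hmne] at h6
    obtain ⟨u, w, huw⟩ := h4
    have h7 : (u * Q + w * derivative Q).map φ = 1 := by rw [huw, Polynomial.map_one]
    have h8 := congrArg (eval v) h7
    rw [Polynomial.map_add, Polynomial.map_mul, Polynomial.map_mul, ← derivative_map, eval_add,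
      eval_mul, eval_mul, eval_one, h6.1.eq_zero, h6.2.eq_zero, mul_zero, mul_zero, add_zero] at h8
    exact zero_ne_one h8
  omega

/-- the partners for which a given number is a root -/
theorem Dat.partners (h : Dat D c m) (a : k) (v : AlgebraicClosure k) (S : Finset k)
    (hS : ∀ b ∈ S, ((G1 D c b - G1 D c a).map (algebraMap k (AlgebraicClosure k))).eval v = 0) :
    S.card ≤ D := by
  classical
  set φ := algebraMap k (AlgebraicClosure k) with hφ
  set q : (AlgebraicClosure k)[X] :=
    ∑ i ∈ Icc 1 D, C (((c i).map φ).eval v) * X ^ i - C (((G1 D c a).map φ).eval v) with hq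
  have hqc : ∀ i ∈ Icc 1 D, q.coeff i = ((c i).map φ).eval v := by
    intro i hi
    rw [hq, coeff_sub, finsetSum_coeff]
    simp_rw [coeff_C_mul_X_pow]
    rw [sum_eq_single i, if_pos rfl, coeff_C, if_neg, sub_zero]
    · rw [mem_Icc] at hi
      omega
    · intro i' _ hi'
      rw [if_neg (Ne.symm hi')]
    · intro h'
      exact absurd hi h'
  have hq0 : q ≠ 0 := by
    intro h0
    obtain ⟨u, hu⟩ := h.bez
    have h1 : ((∑ i ∈ Icc 1 D, u i * c i).map φ).eval v = 1 := by
      rw [hu, Polynomial.map_one, eval_one]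
    rw [Polynomial.map_sum, eval_finsetSum, sum_eq_zero] at h1
    · exact zero_ne_one h1
    · intro i hi
      rw [Polynomial.map_mul, eval_mul, ← hqc i hi, h0, coeff_zero, mul_zero]
  have hqd : q.natDegree ≤ D := by
    rw [hq, natDegree_sub_C]
    refine natDegree_sum_le_of_forall_le _ _ fun i hi => ?_
    refine (natDegree_C_mul_le _ _).trans ?_
    rw [natDegree_X_pow]
    exact (mem_Icc.1 hi).2
  have h1 : (S.image φ) ⊆ q.roots.toFinset := by
    intro y hy
    obtain ⟨b, hb, rfl⟩ := mem_image.1 hy
    rw [Multiset.mem_toFinset, mem_roots hq0, IsRoot, hq, eval_sub, eval_C]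
    have h2 := hS b hb
    rw [Polynomial.map_sub, eval_sub] at h2
    rw [← h2]
    congr 1
    unfold G1
    rw [Polynomial.map_sum, eval_finsetSum, eval_finsetSum]
    refine sum_congr rfl fun i _ => ?_
    rw [eval_mul, eval_C, eval_pow, eval_X, Polynomial.map_mul, map_C, eval_mul, eval_C, map_pow]
  have h2 : S.card = (S.image φ).card := (card_image_of_injective _ φ.injective).symm
  rw [h2]
  exact (card_le_card h1).trans ((Multiset.toFinset_card_le _).trans ((card_roots' _).trans hqd))

/-- the number of bad partners of a parameter that is not exceptional -/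
theorem Dat.bad_partners (h : Dat D c m) (g : k[X]) (hg : g ≠ 0) (hgD : g.natDegree ≤ D) (a : k)
    (ha : rh D c m a ≠ 0) (S : Finset k)
    (hS : ∀ b ∈ S, ¬ ∃ v : AlgebraicClosure k, (g.map (algebraMap k (AlgebraicClosure k))).eval v ≠ 0 ∧
      rootMultiplicity v
        ((g * (G1 D c b - G1 D c a)).map (algebraMap k (AlgebraicClosure k))) = 1) :
    S.card ≤ 2 * D * D + D + D * D := by
  classical
  set φ := algebraMap k (AlgebraicClosure k) with hφ
  have hm1 := h.m1
  have hmD := h.mD
  -- the three sets
  set S1 := (rh D c m a).roots.toFinset with hS1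
  set S2 := (fj D c m - C ((fj D c m).eval a)).roots.toFinset with hS2
  set S3 := (g.map φ).roots.toFinset.biUnion fun v => S.filter fun b =>
    ((G1 D c b - G1 D c a).map φ).eval v = 0 with hS3
  have hsub : S ⊆ S1 ∪ S2 ∪ S3 := by
    intro b hb
    by_contra hcon
    rw [mem_union, mem_union, not_or, not_or] at hcon
    obtain ⟨⟨n1, n2⟩, n3⟩ := hcon
    have h1 : (rh D c m a).eval b ≠ 0 := by
      intro h0
      apply n1
      rw [hS1, Multiset.mem_toFinset, mem_roots ha]
      exact h0
    have h2 : (fj D c m).eval b ≠ (fj D c m).eval a := by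
      intro h0
      apply n2
      rw [hS2, Multiset.mem_toFinset, mem_roots, IsRoot, eval_sub, eval_C, h0, sub_self]
      rw [← HR_coeff]
      exact h.HR_top a
    obtain ⟨v, hv⟩ := h.simple a b h1 h2
    have hvr : ((G1 D c b - G1 D c a).map φ).eval v = 0 := by
      by_contra hne
      have h5 : rootMultiplicity v ((G1 D c b - G1 D c a).map φ) = 0 :=
        rootMultiplicity_eq_zero hne
      rw [h5] at hv
      exact zero_ne_one hv
    have hgm : g.map φ ≠ 0 := (Polynomial.map_ne_zero_iff φ.injective).2 hg
    have hgv : (g.map φ).eval v ≠ 0 := by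
      intro h0
      apply n3
      rw [hS3, mem_biUnion]
      exact ⟨v, by rw [Multiset.mem_toFinset, mem_roots hgm]; exact h0,
        mem_filter.2 ⟨hb, hvr⟩⟩
    apply hS b hb
    refine ⟨v, hgv, ?_⟩
    have hQ0 : (G1 D c b - G1 D c a).map φ ≠ 0 := by
      intro h0
      rw [h0, rootMultiplicity_zero] at hv
      exact zero_ne_one hv
    rw [Polynomial.map_mul, rootMultiplicity_mul (mul_ne_zero hgm hQ0), hv,
      rootMultiplicity_eq_zero hgv, zero_add]
  have c1 : S1.card ≤ 2 * D * D := by
    refine (Multiset.toFinset_card_le _).trans ((card_roots' _).trans ((rh_natDegree D c m a).trans ?_))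
    refine Nat.mul_le_mul_right _ ?_
    omega
  have c2 : S2.card ≤ D := by
    refine (Multiset.toFinset_card_le _).trans ((card_roots' _).trans ?_)
    rw [natDegree_sub_C]
    exact fj_natDegree D c m
  have c3 : S3.card ≤ D * D := by
    refine card_biUnion_le.trans ((sum_le_sum fun v _ => ?_ :
      _ ≤ ∑ v ∈ (g.map φ).roots.toFinset, D).trans ?_)
    · exact h.partners a v _ fun b hb => (mem_filter.1 hb).2
    · rw [sum_const, smul_eq_mul]
      refine Nat.mul_le_mul_right _ ?_
      refine (Multiset.toFinset_card_le _).trans ((card_roots' _).trans ?_)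
      exact natDegree_map_le.trans hgD
  calc S.card ≤ (S1 ∪ S2 ∪ S3).card := card_le_card hsub
    _ ≤ (S1 ∪ S2).card + S3.card := card_union_le _ _
    _ ≤ S1.card + S2.card + S3.card := Nat.add_le_add_right (card_union_le _ _) _
    _ ≤ _ := by omega

end

end Pool.Agent.K7.H77.PF
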