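import Pool.Agent.K7.H77.PF.Dich2
import Pool.Agent.K7.H77.PF.Fam4

/-! # The dichotomy -/

set_option autoImplicit false
set_option linter.unusedSectionVars false

namespace Pool.Agent.K7.H77.PF

open Finset Polynomial

section

variable {k : Type} [Field k]

/-- the normal form of a polynomial in two variables -/
theorem exists_dat (F : k[X][X]) (D : ℕ) (hF : F.natDegree ≤ D)
    (hFc : ∀ i, (F.coeff i).natDegree ≤ D)
    (hnd : ¬ ∃ f u v : k[X], F = f.map C * C u + C v)
    (hchar : ∀ n : ℕ, 1 ≤ n → n ≤ D → (n : k) ≠ 0) :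
    ∃ (g : k[X]) (c : ℕ → k[X]) (m : ℕ), g ≠ 0 ∧ g.natDegree ≤ D ∧ Dat D c m ∧
      ∀ a : k, F.eval (C a) = F.coeff 0 + g * G1 D c a := by
  classical
  set I : Ideal k[X] := Ideal.span (Set.range fun i : {i // i ∈ Icc 1 D} => F.coeff i.1) with hI
  set g := Submodule.IsPrincipal.generator I with hg
  have hgI : Ideal.span {g} = I := Submodule.IsPrincipal.span_singleton_generator I
  have hdvd : ∀ i ∈ Icc 1 D, g ∣ F.coeff i := by
    intro i hi
    rw [← Ideal.mem_span_singleton, hgI, hI]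
    exact Ideal.subset_span ⟨⟨i, hi⟩, rfl⟩
  choose! c hc using hdvd
  have hbig : ∀ i, D < i → F.coeff i = 0 := fun i hi =>
    coeff_eq_zero_of_natDegree_lt (lt_of_le_of_lt hF hi)
  have hg0 : g ≠ 0 := by
    intro h0
    apply hnd
    refine ⟨0, 0, F.coeff 0, ?_⟩
    rw [Polynomial.map_zero, zero_mul, zero_add]
    ext1 i
    rw [coeff_C]
    split_ifs with hi
    · rw [hi]
    · by_cases hiD : D < i
      · exact hbig i hiD
      · rw [hc i (mem_Icc.2 ⟨by omega, by omega⟩), h0, zero_mul]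
  set m := (Icc 1 D).sup (fun i => (c i).natDegree) with hm
  have hdeg : ∀ i ∈ Icc 1 D, (c i).natDegree ≤ m := fun i hi =>
    le_sup (f := fun i => (c i).natDegree) hi
  have hm1 : 1 ≤ m := by
    by_contra hcon
    have hm0 : m = 0 := by omega
    apply hnd
    set f : k[X] := ∑ i ∈ Icc 1 D, C ((c i).coeff 0) * X ^ i with hf
    have hfc : ∀ i, f.coeff i = if i ∈ Icc 1 D then (c i).coeff 0 else 0 := by
      intro i
      rw [hf, finsetSum_coeff]
      simp_rw [coeff_C_mul_X_pow]
      by_cases h : i ∈ Icc 1 D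
      · rw [if_pos h, sum_eq_single i]
        · simp
        · intro i' _ hi'
          rw [if_neg (Ne.symm hi')]
        · intro h'
          exact absurd h h'
      · rw [if_neg h, sum_eq_zero]
        intro i' hi'
        rw [if_neg]
        rintro rfl
        exact h hi'
    refine ⟨f, g, F.coeff 0, ?_⟩
    ext1 i
    rw [coeff_add, coeff_mul_C, coeff_map, hfc, coeff_C]
    by_cases hi0 : i = 0
    · rw [if_neg (by rw [mem_Icc]; omega), if_pos hi0, hi0, map_zero, zero_mul, zero_add]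
    · rw [if_neg hi0, add_zero]
      by_cases hiD : D < i
      · rw [if_neg (by rw [mem_Icc]; omega), map_zero, zero_mul]
        exact hbig i hiD
      · have hi : i ∈ Icc 1 D := mem_Icc.2 ⟨by omega, by omega⟩
        have h1 := hdeg i hi
        rw [hm0] at h1
        have h2 : c i = C ((c i).coeff 0) := eq_C_of_natDegree_le_zero h1
        rw [if_pos hi, ← h2, hc i hi, mul_comm]
  have hne : (Icc 1 D).Nonempty := by
    by_contra hcon
    rw [not_nonempty_iff_eq_empty] at hcon
    rw [hm, hcon, sup_empty] at hm1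
    exact absurd hm1 (by simp)
  obtain ⟨i₀, hi₀, hmi⟩ := exists_mem_eq_sup (Icc 1 D) hne (fun i => (c i).natDegree)
  have hmi' : (c i₀).natDegree = m := hmi.symm
  have hci : c i₀ ≠ 0 := by
    intro h0
    rw [h0, natDegree_zero] at hmi'
    omega
  have hgc : g.natDegree + m ≤ D := by
    have h1 := hFc i₀
    rw [hc i₀ hi₀, natDegree_mul hg0 hci, hmi'] at h1
    exact h1
  refine ⟨g, c, m, hg0, by omega, ⟨hdeg, ⟨i₀, hi₀, ?_⟩, hm1, by omega, ?_, hchar⟩, ?_⟩
  · rw [← hmi', coeff_natDegree]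
    exact leadingCoeff_ne_zero.2 hci
  · have h1 : g ∈ I := Submodule.IsPrincipal.generator_mem I
    rw [hI, Ideal.span, Submodule.mem_span_range_iff_exists_fun] at h1
    obtain ⟨u, hu⟩ := h1
    refine ⟨fun i => if h : i ∈ Icc 1 D then u ⟨i, h⟩ else 0, ?_⟩
    apply mul_left_cancel₀ hg0
    rw [mul_one, mul_sum]
    conv_rhs => rw [← hu]
    rw [← sum_coe_sort (Icc 1 D)
      (fun i => g * ((if h : i ∈ Icc 1 D then u ⟨i, h⟩ else 0) * c i))]
    refine sum_congr rfl fun i _ => ?_
    rw [dif_pos i.2, smul_eq_mul, hc i.1 i.2]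
    ring
  · intro a
    rw [eval_eq_sum_range' (n := D + 1) (by omega), range_eq_Ico,
      Finset.sum_eq_sum_Ico_succ_bot (by omega)]
    have e : Ico (0 + 1) (D + 1) = Icc 1 D := by
      ext i
      rw [mem_Ico, mem_Icc]
      omega
    rw [e, pow_zero, mul_one]
    congr 1
    unfold G1
    rw [mul_sum]
    refine sum_congr rfl fun i hi => ?_
    rw [hc i hi, ← C_pow, mul_assoc]

end

section

variable {p : ℕ} [Fact p.Prime]

/-- the family `F (a, t)`, `a ∈ A` -/
noncomputable def fam (F : (ZMod p)[X][X]) (A : Finset (ZMod p)) (a : {a // a ∈ A}) :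
    (ZMod p)[X] := F.eval (C a.1)

theorem fam_deg (F : (ZMod p)[X][X]) (D : ℕ) (hFc : ∀ i, (F.coeff i).natDegree ≤ D)
    (A : Finset (ZMod p)) (a : {a // a ∈ A}) : (fam F A a).natDegree ≤ D := by
  unfold fam
  rw [eval_eq_sum_range]
  refine natDegree_sum_le_of_forall_le _ _ fun i _ => ?_
  rw [← C_pow]
  exact (natDegree_mul_C_le _ _).trans (hFc i)

end

theorem dich (δ ε : ℝ) (hδ : 0 < δ) (hε : 0 < ε) (D : ℕ) :
    ∃ τ : ℝ, 0 < τ ∧ ∃ p₀ : ℕ, ∀ (p : ℕ) [Fact p.Prime], p₀ ≤ p →
      ∀ (A : Finset (ZMod p)) (F : (ZMod p)[X][X]), (p : ℝ) ^ δ < (A.card : ℝ) →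
        F.natDegree ≤ D → (∀ i, (F.coeff i).natDegree ≤ D) →
        (¬ ∃ f u v : (ZMod p)[X], F = f.map C * C u + C v) →
        (∀ χ : DirichletCharacter ℂ p, χ ≠ 1 →
          (Set.ncard {t : ZMod p | Exc τ χ (fam F A) t} : ℝ) ≤ (p : ℝ) ^ (1 / 2 + ε)) ∧
        (Set.ncard {q : ZMod p × DirichletCharacter ℂ p | Exc τ q.2 (fam F A) q.1} : ℝ) ≤
          (p : ℝ) ^ (1 + ε) := by
  classical
  obtain ⟨τ, hτ, p₁, h⟩ := family3 δ ε hδ hε D (3 * D * D + D)
  refine ⟨τ, hτ, max p₁ (D + 1), fun p _ hp A F hA hF hFc hnd => ?_⟩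
  have hpp : p.Prime := Fact.out
  have hp1' : p₁ ≤ p := (le_max_left _ _).trans hp
  have hpD : D + 1 ≤ p := (le_max_right _ _).trans hp
  obtain ⟨g, c, m, hg0, hgD, hdat, hsp⟩ := exists_dat F D hF hFc hnd (fun n h1 h2 h0 => by
    rw [ZMod.natCast_eq_zero_iff] at h0
    have := Nat.le_of_dvd (by omega) h0
    omega)
  set φ := algebraMap (ZMod p) (AlgebraicClosure (ZMod p)) with hφ
  have hcard : (Fintype.card {a // a ∈ A} : ℝ) = (A.card : ℝ) := by
    rw [Fintype.card_coe]
  have hdiff : ∀ a b : {a // a ∈ A}, fam F A a - fam F A b = g * (G1 D c a.1 - G1 D c b.1) := by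
    intro a b
    unfold fam
    rw [hsp, hsp]
    ring
  set Z : Set (AlgebraicClosure (ZMod p)) := {v | (g.map φ).eval v = 0} with hZ
  set E : Finset {a // a ∈ A} := univ.filter fun a => rh D c m a.1 = 0 with hE
  have hEc : E.card ≤ 3 * D * D + D := by
    have h1 : (E.map (Function.Embedding.subtype _)).card ≤ D * D := by
      refine hdat.exc_card _ fun a ha => ?_
      obtain ⟨b, hb, rfl⟩ := mem_map.1 ha
      exact (mem_filter.1 hb).2
    rw [card_map] at h1
    nlinarith
  have hpart : ∀ (a : {a // a ∈ A}) (v : AlgebraicClosure (ZMod p)) (S : Finset {a // a ∈ A}),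
      (∀ b ∈ S, ((G1 D c b.1 - G1 D c a.1).map φ).eval v = 0) → S.card ≤ D := by
    intro a v S hS
    have h1 := hdat.partners a.1 v (S.map (Function.Embedding.subtype _)) (fun b hb => by
      obtain ⟨b', hb', rfl⟩ := mem_map.1 hb
      exact hS b' hb')
    rw [card_map] at h1
    exact h1
  refine h p hp1' {a // a ∈ A} (fam F A) Z E (fam_deg F D hFc A) (by rw [hcard]; exact hA) hEc
    ?_ ?_ ?_
  · intro a ha
    have ha' : rh D c m a.1 ≠ 0 := fun h0 => ha (mem_filter.2 ⟨mem_univ _, h0⟩)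
    rw [Set.ncard_eq_toFinset_card', Set.toFinset_ofPred]
    have h1 := hdat.bad_partners g hg0 hgD a.1 ha'
      ((univ.filter fun b => BZ (fam F A) Z (a, b)).map (Function.Embedding.subtype _)) (by
        intro b hb
        obtain ⟨b', hb', rfl⟩ := mem_map.1 hb
        have hB := (mem_filter.1 hb').2
        rintro ⟨v, hv1, hv2⟩
        apply hB
        refine ⟨v, hv1, ?_⟩
        unfold dp
        simp only
        rw [hdiff, ← rm_neg, ← Polynomial.map_neg]
        have e : -(g * (G1 D c a.1 - G1 D c b'.1)) = g * (G1 D c b'.1 - G1 D c a.1) := by ring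
        rw [e]
        exact hv2)
    rw [card_map] at h1
    nlinarith
  · intro v hv a
    rw [Set.ncard_eq_toFinset_card', Set.toFinset_ofPred]
    refine (hpart a v _ fun b hb => ?_).trans (by nlinarith)
    have h1 := (mem_filter.1 hb).2
    rw [mem_Rts] at h1
    have h2 := h1.2
    unfold dp at h2
    simp only at h2
    rw [hdiff, Polynomial.map_mul, eval_mul] at h2
    have h3 := (mul_eq_zero.1 h2).resolve_left hv
    have e : G1 D c b.1 - G1 D c a.1 = -(G1 D c a.1 - G1 D c b.1) := by ring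
    rw [e, Polynomial.map_neg, eval_neg, h3, neg_zero]
  · intro a
    rw [Set.ncard_eq_toFinset_card', Set.toFinset_ofPred]
    refine (hpart a 0 _ fun b hb => ?_).trans (by nlinarith)
    have h1 := (mem_filter.1 hb).2
    have h2 := hdiff b a
    rw [h1, sub_self] at h2
    have h3 := (mul_eq_zero.1 h2.symm).resolve_left hg0
    rw [h3, Polynomial.map_zero, eval_zero]

end Pool.Agent.K7.H77.PF
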