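import Pool.Agent.K7.H77.PF.WeilExt

/-! # The sum over the parameter of a product of values of a character at polynomials -/

set_option autoImplicit false

namespace Pool.Agent.K7.H77.PF

open Polynomial Finset

section

variable {F : Type} [Field F] [Fintype F] [DecidableEq F]

/-- `z` or its conjugate -/
noncomputable def cc (b : Bool) (z : ℂ) : ℂ := if b then z else (starRingEnd ℂ) z

theorem cc_mul (b : Bool) (z w : ℂ) : cc b (z * w) = cc b z * cc b w := by
  unfold cc; split_ifs <;> simp

theorem norm_cc (b : Bool) (z : ℂ) : ‖cc b z‖ = ‖z‖ := by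
  unfold cc; split_ifs <;> simp

theorem mc_norm (χ : MulChar F ℂ) (x : F) : ‖χ x‖ ≤ 1 := by
  by_cases hx : x = 0
  · rw [hx, MulChar.map_zero]; simp
  · have hc : (Fintype.card F - 1) ≠ 0 := by
      have : 2 ≤ Fintype.card F := Fintype.one_lt_card
      omega
    have h1 : (χ x) ^ (Fintype.card F - 1) = 1 := by
      rw [← map_pow, FiniteField.pow_card_sub_one_eq_one x hx, map_one]
    exact (Complex.norm_eq_one_of_pow_eq_one h1 hc).le

theorem rm_prod {K : Type*} [Field K] {κ : Type*} (s : Finset κ) (E : κ → K[X]) (hE : ∀ k ∈ s, E k ≠ 0)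
    (v : K) : rootMultiplicity v (∏ k ∈ s, E k) = ∑ k ∈ s, rootMultiplicity v (E k) := by
  classical
  induction s using Finset.induction_on with
  | empty => simp
  | insert i s hi ih =>
    have h1 : ∏ k ∈ s, E k ≠ 0 := prod_ne_zero_iff.2 fun k hk => hE k (mem_insert_of_mem hk)
    rw [prod_insert hi, sum_insert hi,
      rootMultiplicity_mul (mul_ne_zero (hE i (mem_insert_self i s)) h1),
      ih fun k hk => hE k (mem_insert_of_mem hk)]

theorem edge_sum (χ : MulChar F ℂ) (hχ1 : χ ≠ 1) {κ : Type*} [Fintype κ] [DecidableEq κ]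
    (E : κ → F[X]) (D : ℕ) (hE : ∀ k, E k ≠ 0) (hD : ∀ k, (E k).natDegree ≤ D) (s : κ → Bool)
    (k₀ : κ) (v : AlgebraicClosure F)
    (hv : rootMultiplicity v ((E k₀).map (algebraMap F (AlgebraicClosure F))) = 1)
    (hv' : ∀ k, k ≠ k₀ → rootMultiplicity v ((E k).map (algebraMap F (AlgebraicClosure F))) = 0) :
    ‖∑ x : F, ∏ k, cc (s k) (χ ((E k).eval x))‖ ≤
      (Fintype.card κ * D : ℕ) * Real.sqrt (Fintype.card F) := by
  classical
  set t := orderOf χ with ht
  have hdvd : t ∣ Fintype.card F - 1 := MulChar.orderOf_dvd_card_sub_one (F := F) χ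
  have hF2 : 2 ≤ Fintype.card F := Fintype.one_lt_card
  have ht0 : t ≠ 0 := by
    intro h0
    rw [h0, zero_dvd_iff] at hdvd
    omega
  have ht1 : t ≠ 1 := fun h1 => hχ1 (orderOf_eq_one_iff.1 h1)
  have ht2 : 2 ≤ t := by omega
  have hχt : χ ^ t = 1 := pow_orderOf_eq_one χ
  set Eh : κ → F[X] := fun k => E k * C (E k).leadingCoeff⁻¹ with hEh
  have hEm : ∀ k, (Eh k).Monic := fun k => monic_mul_leadingCoeff_inv (hE k)
  have hEd : ∀ k, (Eh k).natDegree ≤ D := fun k => (natDegree_mul_C_le _ _).trans (hD k)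
  set P : F[X] := ∏ k ∈ univ.filter (fun k => s k = true), Eh k with hP
  set R : F[X] := ∏ k ∈ univ.filter (fun k => ¬ s k = true), Eh k with hR
  have hPm : P.Monic := monic_prod_of_monic _ _ fun k _ => hEm k
  have hRm : R.Monic := monic_prod_of_monic _ _ fun k _ => hEm k
  have hev : ∀ k x, (E k).eval x = (E k).leadingCoeff * (Eh k).eval x := by
    intro k x
    rw [hEh]
    simp only [eval_mul, eval_C]
    have : (E k).leadingCoeff ≠ 0 := leadingCoeff_ne_zero.2 (hE k)
    field_simp
  have e1 : ∀ x : F, ∏ k, cc (s k) (χ ((E k).eval x)) =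
      (∏ k, cc (s k) (χ (E k).leadingCoeff)) *
        (χ (P.eval x) * (starRingEnd ℂ) (χ (R.eval x))) := by
    intro x
    have h1 : ∏ k, cc (s k) (χ ((E k).eval x)) =
        (∏ k, cc (s k) (χ (E k).leadingCoeff)) * ∏ k, cc (s k) (χ ((Eh k).eval x)) := by
      rw [← prod_mul_distrib]
      refine prod_congr rfl fun k _ => ?_
      rw [hev, map_mul, cc_mul]
    rw [h1]
    congr 1
    rw [← prod_filter_mul_prod_filter_not univ (fun k => s k = true), hP, hR, eval_prod, eval_prod,
      map_prod, map_prod, map_prod]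
    congr 1
    · refine prod_congr rfl fun k hk => ?_
      rw [mem_filter] at hk
      unfold cc
      rw [if_pos hk.2]
    · refine prod_congr rfl fun k hk => ?_
      rw [mem_filter] at hk
      unfold cc
      rw [if_neg hk.2]
  have hcop : CopX t (P * R ^ (t - 1)) := by
    refine ⟨v, ?_⟩
    set φ := algebraMap F (AlgebraicClosure F) with hφ
    have hEh0 : ∀ k, (Eh k).map φ ≠ 0 := fun k => ((hEm k).map φ).ne_zero
    have hrm : ∀ k, rootMultiplicity v ((Eh k).map φ) = rootMultiplicity v ((E k).map φ) := by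
      intro k
      have h1 : (E k).map φ ≠ 0 := (Polynomial.map_ne_zero_iff φ.injective).2 (hE k)
      have h2 : ((Eh k).map φ) = (E k).map φ * C (φ (E k).leadingCoeff⁻¹) := by
        rw [hEh]
        simp only [Polynomial.map_mul, map_C]
      rw [h2, rootMultiplicity_mul (by rw [← h2]; exact hEh0 k), rootMultiplicity_C, add_zero]
    have hPk : rootMultiplicity v (P.map φ) =
        ∑ k ∈ univ.filter (fun k => s k = true), rootMultiplicity v ((E k).map φ) := by
      rw [hP, Polynomial.map_prod, rm_prod _ _ (fun k _ => hEh0 k)]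
      exact sum_congr rfl fun k _ => hrm k
    have hRk : rootMultiplicity v (R.map φ) =
        ∑ k ∈ univ.filter (fun k => ¬ s k = true), rootMultiplicity v ((E k).map φ) := by
      rw [hR, Polynomial.map_prod, rm_prod _ _ (fun k _ => hEh0 k)]
      exact sum_congr rfl fun k _ => hrm k
    have hmul : rootMultiplicity v ((P * R ^ (t - 1)).map φ) =
        rootMultiplicity v (P.map φ) + (t - 1) * rootMultiplicity v (R.map φ) := by
      have hn : (P.map φ) * (R.map φ) ^ (t - 1) ≠ 0 :=
        ((hPm.map φ).mul ((hRm.map φ).pow _)).ne_zero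
      rw [Polynomial.map_mul, Polynomial.map_pow, rootMultiplicity_mul hn]
      congr 1
      have h3 : (R.map φ) ^ (t - 1) = ∏ _k ∈ range (t - 1), R.map φ := by
        rw [prod_const, card_range]
      rw [h3, rm_prod _ _ (fun k _ => (hRm.map φ).ne_zero), sum_const, card_range, smul_eq_mul]
    rw [hmul, hPk, hRk]
    by_cases hs : s k₀ = true
    · have h1 : ∑ k ∈ univ.filter (fun k => s k = true), rootMultiplicity v ((E k).map φ) = 1 := by
        rw [sum_eq_single k₀]
        · exact hv
        · intro k _ hk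
          exact hv' k hk
        · intro h
          exact absurd (mem_filter.2 ⟨mem_univ k₀, hs⟩ : k₀ ∈ univ.filter (fun k => s k = true)) h
      have h2 : ∑ k ∈ univ.filter (fun k => ¬ s k = true), rootMultiplicity v ((E k).map φ) = 0 := by
        refine sum_eq_zero fun k hk => hv' k ?_
        rintro rfl
        exact (mem_filter.1 hk).2 hs
      rw [h1, h2, mul_zero, add_zero]
      exact Nat.coprime_one_left t
    · have h1 : ∑ k ∈ univ.filter (fun k => ¬ s k = true), rootMultiplicity v ((E k).map φ) = 1 := by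
        rw [sum_eq_single k₀]
        · exact hv
        · intro k _ hk
          exact hv' k hk
        · intro h
          exact absurd (mem_filter.2 ⟨mem_univ k₀, hs⟩ :
            k₀ ∈ univ.filter (fun k => ¬ s k = true)) h
      have h2 : ∑ k ∈ univ.filter (fun k => s k = true), rootMultiplicity v ((E k).map φ) = 0 := by
        refine sum_eq_zero fun k hk => hv' k ?_
        rintro rfl
        exact hs (mem_filter.1 hk).2
      rw [h1, h2, zero_add, mul_one]
      have h4 : t = (t - 1) + 1 := by omega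
      have h3 : Nat.Coprime (t - 1) ((t - 1) + 1) := by simp
      rwa [← h4] at h3
  have hw := weilX t ht2 hdvd χ hχ1 hχt P R hPm hRm hcop
  have hdeg : P.natDegree + R.natDegree ≤ Fintype.card κ * D := by
    rw [hP, hR, natDegree_prod_of_monic _ _ fun k _ => hEm k,
      natDegree_prod_of_monic _ _ fun k _ => hEm k, sum_filter_add_sum_filter_not]
    calc ∑ k, (Eh k).natDegree ≤ ∑ _k : κ, D := sum_le_sum fun k _ => hEd k
      _ = _ := by rw [sum_const, card_univ, smul_eq_mul]
  rw [sum_congr rfl fun x _ => e1 x, ← mul_sum, norm_mul, norm_prod]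
  have hc : ∏ k, ‖cc (s k) (χ (E k).leadingCoeff)‖ ≤ 1 := by
    refine prod_le_one (fun k _ => norm_nonneg _) fun k _ => ?_
    rw [norm_cc]
    exact mc_norm χ _
  calc _ ≤ 1 * ‖∑ x : F, χ (P.eval x) * (starRingEnd ℂ) (χ (R.eval x))‖ :=
        mul_le_mul_of_nonneg_right hc (norm_nonneg _)
    _ ≤ (P.natDegree + R.natDegree : ℕ) * Real.sqrt (Fintype.card F) := by rw [one_mul]; exact hw
    _ ≤ _ := mul_le_mul_of_nonneg_right (by exact_mod_cast hdeg) (Real.sqrt_nonneg _)

end

end Pool.Agent.K7.H77.PF
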