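import Pool.Agent.K7.H77.PF.FamZ

/-! # Families of polynomials with coincidences and exceptional members -/

set_option autoImplicit false
set_option linter.unusedSectionVars false

namespace Pool.Agent.K7.H77.PF

open Finset Matrix Polynomial

section

variable {p : ℕ} [Fact p.Prime]
variable {ι : Type*} [Fintype ι] [DecidableEq ι]

open Classical in
/-- the number of coincidences of different polynomials -/
noncomputable def coin' (G : ι → (ZMod p)[X]) (t : ZMod p) : ℕ :=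
  ((univ : Finset (ι × ι)).filter fun e => G e.1 ≠ G e.2 ∧ (G e.1).eval t = (G e.2).eval t).card

theorem coin_sum' (G : ι → (ZMod p)[X]) (D : ℕ) (hG : ∀ i, (G i).natDegree ≤ D) :
    ∑ t : ZMod p, coin' G t ≤ D * Fintype.card ι ^ 2 := by
  classical
  unfold coin'
  have h1 : ∀ t : ZMod p, ((univ : Finset (ι × ι)).filter fun e =>
      G e.1 ≠ G e.2 ∧ (G e.1).eval t = (G e.2).eval t).card =
      ∑ e : ι × ι, if G e.1 ≠ G e.2 ∧ (G e.1).eval t = (G e.2).eval t then 1 else 0 := by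
    intro t
    rw [card_filter]
  rw [sum_congr rfl fun t _ => h1 t, sum_comm]
  have h2 : ∀ e : ι × ι, ∑ t : ZMod p,
      (if G e.1 ≠ G e.2 ∧ (G e.1).eval t = (G e.2).eval t then 1 else 0) ≤ D := by
    intro e
    rw [← card_filter]
    by_cases he : G e.1 = G e.2
    · have : (univ.filter fun t : ZMod p => G e.1 ≠ G e.2 ∧ (G e.1).eval t = (G e.2).eval t) = ∅ := by
        rw [filter_eq_empty_iff]
        rintro t - ⟨h, -⟩
        exact h he
      rw [this, card_empty]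
      exact Nat.zero_le _
    · have hne : G e.1 - G e.2 ≠ 0 := sub_ne_zero.2 he
      have h3 : (univ.filter fun t : ZMod p => G e.1 ≠ G e.2 ∧ (G e.1).eval t = (G e.2).eval t) ⊆
          (G e.1 - G e.2).roots.toFinset := by
        intro t ht
        rw [Multiset.mem_toFinset, mem_roots hne, IsRoot, eval_sub, sub_eq_zero]
        exact (mem_filter.1 ht).2.2
      refine (card_le_card h3).trans ((Multiset.toFinset_card_le _).trans ((card_roots' _).trans ?_))
      exact (natDegree_sub_le _ _).trans (max_le (hG _) (hG _))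
  refine (sum_le_sum fun e _ => h2 e).trans ?_
  rw [sum_const, smul_eq_mul, card_univ, Fintype.card_prod]
  exact le_of_eq (by ring)

theorem coin_lower' (G : ι → (ZMod p)[X]) (L : ℕ)
    (hL : ∀ i, Set.ncard {j : ι | G j = G i} ≤ L) (t : ZMod p) :
    (Fintype.card ι : ℝ) ^ 2 ≤ (imG G t).card * ((coin' G t : ℝ) + L * Fintype.card ι) := by
  classical
  set r : ZMod p → ℕ := fun a => (univ.filter fun i => (G i).eval t = a).card with hr
  have h1 : ∑ a ∈ imG G t, r a = Fintype.card ι := by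
    rw [← card_univ]
    exact (card_eq_sum_card_image (fun i => (G i).eval t) univ).symm
  have h2 : ∑ a ∈ imG G t, r a ^ 2 ≤ coin' G t + L * Fintype.card ι := by
    have h3 : ∑ a ∈ imG G t, r a ^ 2 =
        ((univ : Finset (ι × ι)).filter fun e => (G e.1).eval t = (G e.2).eval t).card := by
      have h4 : ((univ : Finset (ι × ι)).filter fun e => (G e.1).eval t = (G e.2).eval t).card =
          ∑ a ∈ imG G t, (((univ : Finset (ι × ι)).filter fun e =>
            (G e.1).eval t = (G e.2).eval t).filter fun e => (G e.1).eval t = a).card := by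
        refine card_eq_sum_card_fiberwise fun e _ => ?_
        exact mem_coe.2 (mem_image_of_mem _ (mem_univ e.1))
      rw [h4]
      refine sum_congr rfl fun a _ => ?_
      rw [hr]
      simp only
      rw [sq, ← card_product]
      congr 1
      ext e
      simp only [mem_product, mem_filter, mem_univ, true_and]
      constructor
      · rintro ⟨h5, h6⟩
        exact ⟨by rw [h5, h6], h5⟩
      · rintro ⟨h5, h6⟩
        exact ⟨h6, by rw [← h5, h6]⟩
    rw [h3]
    unfold coin'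
    have h5 : ((univ : Finset (ι × ι)).filter fun e => (G e.1).eval t = (G e.2).eval t) ⊆
        ((univ : Finset (ι × ι)).filter fun e =>
          G e.1 ≠ G e.2 ∧ (G e.1).eval t = (G e.2).eval t) ∪
        ((univ : Finset (ι × ι)).filter fun e => G e.1 = G e.2) := by
      intro e he
      simp only [mem_filter, mem_univ, true_and, mem_union] at he ⊢
      by_cases hee : G e.1 = G e.2
      · exact Or.inr hee
      · exact Or.inl ⟨hee, he⟩
    refine (card_le_card h5).trans ((card_union_le _ _).trans (Nat.add_le_add_left ?_ _))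
    have h6 : ((univ : Finset (ι × ι)).filter fun e => G e.1 = G e.2).card =
        ∑ i : ι, (univ.filter fun j => G j = G i).card := by
      rw [card_filter, Fintype.sum_prod_type]
      refine sum_congr rfl fun i _ => ?_
      rw [card_filter]
      refine sum_congr rfl fun j _ => ?_
      simp only [eq_comm]
    rw [h6]
    calc ∑ i : ι, (univ.filter fun j => G j = G i).card ≤ ∑ _i : ι, L := by
          refine sum_le_sum fun i _ => ?_
          have := hL i
          rw [Set.ncard_eq_toFinset_card', Set.toFinset_ofPred] at this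
          exact this
      _ = L * Fintype.card ι := by rw [sum_const, smul_eq_mul, card_univ, mul_comm]
  have h3 : (∑ a ∈ imG G t, (r a : ℝ)) ^ 2 ≤ (imG G t).card * ∑ a ∈ imG G t, (r a : ℝ) ^ 2 :=
    sq_sum_le_card_mul_sum_sq
  have h4 : ∑ a ∈ imG G t, (r a : ℝ) = Fintype.card ι := by exact_mod_cast h1
  have h5 : ∑ a ∈ imG G t, (r a : ℝ) ^ 2 ≤ (coin' G t : ℝ) + L * Fintype.card ι := by
    exact_mod_cast h2
  rw [h4] at h3
  exact h3.trans (mul_le_mul_of_nonneg_left h5 (Nat.cast_nonneg _))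

/-- the parameters for which the image is small -/
theorem inv_sum' (G : ι → (ZMod p)[X]) (L : ℕ)
    (hL : ∀ i, Set.ncard {j : ι | G j = G i} ≤ L) (D : ℕ)
    (hG : ∀ i, (G i).natDegree ≤ D) (hN : 0 < Fintype.card ι) (S : Finset (ZMod p))
    (hS : ∀ t ∈ S, 2 * L * (imG G t).card ≤ Fintype.card ι) :
    ∑ t ∈ S, (1 : ℝ) / (imG G t).card ≤ 2 * D := by
  classical
  set N : ℝ := (Fintype.card ι : ℝ) with hNd
  have hN0 : 0 < N := by rw [hNd]; exact_mod_cast hN
  have hpos : ∀ t, (0 : ℝ) < (imG G t).card := by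
    intro t
    have : (imG G t).Nonempty := by
      have : Nonempty ι := Fintype.card_pos_iff.1 hN
      exact univ_nonempty.image _
    exact_mod_cast this.card_pos
  have h1 : ∀ t ∈ S, (1 : ℝ) / (imG G t).card ≤ 2 / N ^ 2 * coin' G t := by
    intro t ht
    have h2 := coin_lower' G L hL t
    rw [← hNd] at h2
    have h3 : 2 * (L : ℝ) * ((imG G t).card : ℝ) ≤ N := by rw [hNd]; exact_mod_cast hS t ht
    have h4 := hpos t
    rw [div_le_iff₀ h4]
    have h5 : N ^ 2 ≤ 2 * ((imG G t).card * coin' G t) := by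
      have h6 : ((imG G t).card : ℝ) * (L * N) ≤ N ^ 2 / 2 := by
        have := mul_le_mul_of_nonneg_right h3 hN0.le
        linarith
      nlinarith
    calc (1 : ℝ) = N ^ 2 / N ^ 2 := by field_simp
      _ ≤ (2 * ((imG G t).card * coin' G t)) / N ^ 2 := by gcongr
      _ = _ := by ring
  calc ∑ t ∈ S, (1 : ℝ) / (imG G t).card ≤ ∑ t ∈ S, 2 / N ^ 2 * coin' G t :=
        sum_le_sum h1
    _ ≤ ∑ t : ZMod p, 2 / N ^ 2 * (coin' G t : ℝ) :=
        sum_le_sum_of_subset_of_nonneg (subset_univ _) fun t _ _ => by positivity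
    _ = 2 / N ^ 2 * ((∑ t : ZMod p, coin' G t : ℕ) : ℝ) := by rw [← mul_sum]; push_cast; rfl
    _ ≤ 2 / N ^ 2 * ((D * Fintype.card ι ^ 2 : ℕ) : ℝ) := by
        refine mul_le_mul_of_nonneg_left ?_ (by positivity)
        exact_mod_cast coin_sum' G D hG
    _ = 2 * D := by
        push_cast
        rw [← hNd]
        field_simp

/-- removing a bounded number of members of the family -/
theorem large_restrict (τ τ₀ : ℝ) (χ : DirichletCharacter ℂ p) (G : ι → (ZMod p)[X]) (t : ZMod p)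
    (E : Finset ι) (L : ℝ) (hE : (E.card : ℝ) ≤ L)
    (h1 : 4 * Real.sqrt L * (p : ℝ) ^ τ ≤ Real.sqrt (Fintype.card ι))
    (h2 : 2 * (p : ℝ) ^ τ ≤ (p : ℝ) ^ τ₀)
    (hl : Large τ χ G t) : Large τ₀ χ (fun i : {i // i ∉ E} => G i.1) t := by
  classical
  have hpp : p.Prime := Fact.out
  have hp0 : (0 : ℝ) < p := by exact_mod_cast hpp.pos
  obtain ⟨f, g, hfg⟩ := hl
  refine ⟨fun i => f i.1, fun i => g i.1, ?_⟩
  set N : ℝ := (Fintype.card ι : ℝ) with hN
  set nf := Real.sqrt (∑ i, ‖f i‖ ^ 2) with hnf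
  set ng := Real.sqrt (∑ i, ‖g i‖ ^ 2) with hng
  have hnf0 : 0 ≤ nf := Real.sqrt_nonneg _
  have hng0 : 0 ≤ ng := Real.sqrt_nonneg _
  have hN0 : 0 ≤ N := Nat.cast_nonneg _
  have hsub : ∀ x : ι → ℝ, (∀ i, 0 ≤ x i) → ∑ i : {i // i ∉ E}, x i.1 ≤ ∑ i, x i := by
    intro x hx
    rw [← Finset.sum_subtype (univ.filter fun i => i ∉ E) (by simp) x]
    exact sum_le_sum_of_subset_of_nonneg (filter_subset _ _) fun i _ _ => hx i
  have hf' : Real.sqrt (∑ i : {i // i ∉ E}, ‖f i.1‖ ^ 2) ≤ nf :=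
    Real.sqrt_le_sqrt (hsub (fun i => ‖f i‖ ^ 2) fun i => by positivity)
  have hg' : Real.sqrt (∑ i : {i // i ∉ E}, ‖g i.1‖ ^ 2) ≤ ng :=
    Real.sqrt_le_sqrt (hsub (fun i => ‖g i‖ ^ 2) fun i => by positivity)
  have hcard : (Fintype.card {i // i ∉ E} : ℝ) ≤ N := by
    rw [hN]
    exact_mod_cast Fintype.card_subtype_le _
  -- splitting
  have hsplit : ∀ x : ι → ℂ, ∑ i, x i = ∑ i : {i // i ∉ E}, x i.1 + ∑ i ∈ E, x i := by
    intro x
    rw [← Finset.sum_subtype (univ.filter fun i => i ∉ E) (by simp) x]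
    rw [← sum_filter_not_add_sum_filter univ (fun i => i ∈ E) x]
    congr 2
    ext i
    simp
  have hEl : ∀ x : ι → ℂ, ∑ i ∈ E, ‖x i‖ ≤ Real.sqrt L * Real.sqrt (∑ i, ‖x i‖ ^ 2) := by
    intro x
    rw [← Real.sqrt_mul (le_trans (Nat.cast_nonneg _) hE)]
    apply Real.le_sqrt_of_sq_le
    calc (∑ i ∈ E, ‖x i‖) ^ 2 ≤ E.card * ∑ i ∈ E, ‖x i‖ ^ 2 := sq_sum_le_card_mul_sum_sq
      _ ≤ L * ∑ i, ‖x i‖ ^ 2 := by
          refine mul_le_mul hE ?_ (sum_nonneg fun i _ => by positivity)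
            (le_trans (Nat.cast_nonneg _) hE)
          exact sum_le_sum_of_subset_of_nonneg (subset_univ _) fun i _ _ => by positivity
  have hal : ∀ x : ι → ℂ, ∑ i, ‖x i‖ ≤ Real.sqrt N * Real.sqrt (∑ i, ‖x i‖ ^ 2) := by
    intro x
    rw [← Real.sqrt_mul hN0]
    apply Real.le_sqrt_of_sq_le
    calc (∑ i, ‖x i‖) ^ 2 ≤ (univ : Finset ι).card * ∑ i, ‖x i‖ ^ 2 := sq_sum_le_card_mul_sum_sq
      _ = N * ∑ i, ‖x i‖ ^ 2 := by rw [card_univ]
  have hχ1 : ∀ z : ZMod p, ‖χ z‖ ≤ 1 := fun z => χ.norm_le_one z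
  set A := ∑ i, ∑ j, f i * g j * χ ((G i).eval t - (G j).eval t) with hA
  set B := ∑ i : {i // i ∉ E}, ∑ j : {i // i ∉ E}, f i.1 * g j.1 *
    χ ((G i.1).eval t - (G j.1).eval t) with hB
  have hAB : A = B + ∑ i : {i // i ∉ E}, ∑ j ∈ E, f i.1 * g j *
      χ ((G i.1).eval t - (G j).eval t) + ∑ i ∈ E, ∑ j, f i * g j *
      χ ((G i).eval t - (G j).eval t) := by
    rw [hA, hsplit, hB, ← sum_add_distrib]
    congr 1
    refine sum_congr rfl fun i _ => ?_
    rw [hsplit]
  have hterm : ∀ i j, ‖f i * g j * χ ((G i).eval t - (G j).eval t)‖ ≤ ‖f i‖ * ‖g j‖ := by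
    intro i j
    rw [norm_mul, norm_mul]
    exact mul_le_of_le_one_right (by positivity) (hχ1 _)
  have e1 : ‖∑ i : {i // i ∉ E}, ∑ j ∈ E, f i.1 * g j *
      χ ((G i.1).eval t - (G j).eval t)‖ ≤ Real.sqrt L * Real.sqrt N * (nf * ng) := by
    calc _ ≤ ∑ i : {i // i ∉ E}, ∑ j ∈ E, ‖f i.1‖ * ‖g j‖ := by
          refine (norm_sum_le _ _).trans (sum_le_sum fun i _ => ?_)
          exact (norm_sum_le _ _).trans (sum_le_sum fun j _ => hterm _ _)
      _ = (∑ i : {i // i ∉ E}, ‖f i.1‖) * ∑ j ∈ E, ‖g j‖ := by rw [sum_mul_sum]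
      _ ≤ (Real.sqrt N * nf) * (Real.sqrt L * ng) := by
          refine mul_le_mul ((hsub (fun i => ‖f i‖) fun i => norm_nonneg _).trans (hal f)) (hEl g)
            (sum_nonneg fun i _ => norm_nonneg _) (by positivity)
      _ = _ := by ring
  have e2 : ‖∑ i ∈ E, ∑ j, f i * g j * χ ((G i).eval t - (G j).eval t)‖ ≤
      Real.sqrt L * Real.sqrt N * (nf * ng) := by
    calc _ ≤ ∑ i ∈ E, ∑ j, ‖f i‖ * ‖g j‖ := by
          refine (norm_sum_le _ _).trans (sum_le_sum fun i _ => ?_)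
          exact (norm_sum_le _ _).trans (sum_le_sum fun j _ => hterm _ _)
      _ = (∑ i ∈ E, ‖f i‖) * ∑ j, ‖g j‖ := by rw [sum_mul_sum]
      _ ≤ (Real.sqrt L * nf) * (Real.sqrt N * ng) :=
          mul_le_mul (hEl f) (hal g) (sum_nonneg fun i _ => norm_nonneg _) (by positivity)
      _ = _ := by ring
  have e3 : ‖A‖ ≤ ‖B‖ + 2 * (Real.sqrt L * Real.sqrt N * (nf * ng)) := by
    rw [hAB]
    refine (norm_add_le _ _).trans ?_
    have := norm_add_le B (∑ i : {i // i ∉ E}, ∑ j ∈ E, f i.1 * g j *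
      χ ((G i.1).eval t - (G j).eval t))
    linarith
  have e4 : 2 * (Real.sqrt L * Real.sqrt N * (nf * ng)) ≤
      (p : ℝ) ^ (-τ) * N * (nf * ng) / 2 := by
    have h3 : 4 * Real.sqrt L * Real.sqrt N ≤ (p : ℝ) ^ (-τ) * N := by
      have h4 : (p : ℝ) ^ (-τ) * (p : ℝ) ^ τ = 1 := by
        rw [← Real.rpow_add hp0]
        norm_num
      have h5 : Real.sqrt N * Real.sqrt N = N := Real.mul_self_sqrt hN0
      calc 4 * Real.sqrt L * Real.sqrt N =
          (p : ℝ) ^ (-τ) * ((4 * Real.sqrt L * (p : ℝ) ^ τ) * Real.sqrt N) := by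
            calc _ = ((p : ℝ) ^ (-τ) * (p : ℝ) ^ τ) * (4 * Real.sqrt L * Real.sqrt N) := by
                  rw [h4, one_mul]
              _ = _ := by ring
        _ ≤ (p : ℝ) ^ (-τ) * (Real.sqrt N * Real.sqrt N) := by gcongr
        _ = _ := by rw [h5]
    have h4 : 0 ≤ nf * ng := by positivity
    nlinarith
  have e5 : (p : ℝ) ^ (-τ₀) * N ≤ (p : ℝ) ^ (-τ) * N / 2 := by
    have h3 : 2 * (p : ℝ) ^ (-τ₀) ≤ (p : ℝ) ^ (-τ) := by
      calc 2 * (p : ℝ) ^ (-τ₀) = (2 * (p : ℝ) ^ τ) * ((p : ℝ) ^ (-τ₀) * (p : ℝ) ^ (-τ)) := by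
            have h4 : (p : ℝ) ^ (-τ) * (p : ℝ) ^ τ = 1 := by
              rw [← Real.rpow_add hp0]
              norm_num
            calc _ = 2 * (p : ℝ) ^ (-τ₀) * ((p : ℝ) ^ (-τ) * (p : ℝ) ^ τ) := by rw [h4, mul_one]
              _ = _ := by ring
        _ ≤ (p : ℝ) ^ τ₀ * ((p : ℝ) ^ (-τ₀) * (p : ℝ) ^ (-τ)) := by gcongr
        _ = (p : ℝ) ^ (-τ) := by
            rw [← Real.rpow_add hp0, ← Real.rpow_add hp0]
            congr 1
            ring
    nlinarith
  calc (p : ℝ) ^ (-τ₀) * (Fintype.card {i // i ∉ E} : ℝ) *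
        (Real.sqrt (∑ i : {i // i ∉ E}, ‖f i.1‖ ^ 2) * Real.sqrt (∑ i : {i // i ∉ E}, ‖g i.1‖ ^ 2)) ≤
      (p : ℝ) ^ (-τ₀) * N * (nf * ng) := by
        refine mul_le_mul ?_ (mul_le_mul hf' hg' (Real.sqrt_nonneg _) hnf0) (by positivity)
          (by positivity)
        exact mul_le_mul_of_nonneg_left hcard (by positivity)
    _ ≤ (p : ℝ) ^ (-τ) * N / 2 * (nf * ng) := by
        refine mul_le_mul_of_nonneg_right e5 (by positivity)
    _ = (p : ℝ) ^ (-τ) * N * (nf * ng) - (p : ℝ) ^ (-τ) * N * (nf * ng) / 2 := by ring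
    _ < ‖A‖ - (p : ℝ) ^ (-τ) * N * (nf * ng) / 2 := by linarith
    _ ≤ ‖B‖ := by linarith

end

end Pool.Agent.K7.H77.PF
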