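import Pool.Agent.K7.H77.PF.Image2

/-! # Families of polynomials with special parameters -/

set_option autoImplicit false
set_option linter.unusedSectionVars false

namespace Pool.Agent.K7.H77.PF

open Finset Matrix Polynomial

section

variable {F : Type} [Field F] [Fintype F] [DecidableEq F]
variable {ι : Type*} [Fintype ι] [DecidableEq ι]

open Classical in
/-- the roots that are not special -/
noncomputable def RZ (G : ι → F[X]) (Z : Set (AlgebraicClosure F)) (e : ι × ι) :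
    Finset (AlgebraicClosure F) := (Rts G e).filter fun v => v ∉ Z

/-- there is no simple root that is not special -/
def BZ (G : ι → F[X]) (Z : Set (AlgebraicClosure F)) (e : ι × ι) : Prop :=
  ¬ ∃ v : AlgebraicClosure F, v ∉ Z ∧ rootMultiplicity v (dp G e) = 1

open Classical in
/-- a simple root that is not special -/
noncomputable def rZ (G : ι → F[X]) (Z : Set (AlgebraicClosure F)) (e : ι × ι) :
    AlgebraicClosure F :=
  if h : ∃ v : AlgebraicClosure F, v ∉ Z ∧ rootMultiplicity v (dp G e) = 1 then h.choose else 0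

theorem rZ_spec (G : ι → F[X]) (Z : Set (AlgebraicClosure F)) (e : ι × ι) (h : ¬ BZ G Z e) :
    rZ G Z e ∉ Z ∧ rootMultiplicity (rZ G Z e) (dp G e) = 1 := by
  unfold BZ at h
  rw [not_not] at h
  unfold rZ
  rw [dif_pos h]
  exact h.choose_spec

theorem mem_Rts' (G : ι → F[X]) (e : ι × ι) (v : AlgebraicClosure F) :
    v ∈ Rts G e ↔ rootMultiplicity v (dp G e) ≠ 0 := by
  classical
  unfold Rts
  rw [Multiset.mem_toFinset, ← count_roots, ← Nat.pos_iff_ne_zero, Multiset.count_pos]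

theorem rZ_mem (G : ι → F[X]) (Z : Set (AlgebraicClosure F)) (e : ι × ι) (h : ¬ BZ G Z e) :
    rZ G Z e ∈ RZ G Z e := by
  classical
  obtain ⟨h1, h2⟩ := rZ_spec G Z e h
  unfold RZ
  rw [mem_filter, mem_Rts', h2]
  exact ⟨one_ne_zero, h1⟩

theorem RZ_card (G : ι → F[X]) (Z : Set (AlgebraicClosure F)) (D : ℕ)
    (hG : ∀ i, (G i).natDegree ≤ D) (e : ι × ι) : (RZ G Z e).card ≤ D := by
  classical
  unfold RZ
  exact (card_filter_le _ _).trans (Rts_card G D hG e)

/-- some edge has a simple root that is not a root of another edge -/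
def Good (G : ι → F[X]) {m : ℕ} (V : Fin (m + 1) → ι) : Prop :=
  ∃ (k₀ : Fin m) (v : AlgebraicClosure F), rootMultiplicity v (dp G (edge V k₀)) = 1 ∧
    ∀ k, k ≠ k₀ → rootMultiplicity v (dp G (edge V k)) = 0

theorem good_of_not_deg (G : ι → F[X]) (Z : Set (AlgebraicClosure F)) {m : ℕ}
    (V : Fin (m + 1) → ι) (hV : ¬ Deg (RZ G Z) (rZ G Z) (BZ G Z) V) : Good G V := by
  classical
  unfold Deg at hV
  push Not at hV
  obtain ⟨k₀, hB, hk₀⟩ := hV
  obtain ⟨h1, h2⟩ := rZ_spec G Z _ hB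
  refine ⟨k₀, rZ G Z (edge V k₀), h2, fun k hk => ?_⟩
  have h3 := hk₀ k hk
  unfold RZ at h3
  rw [mem_filter, not_and_or, not_not, mem_Rts', not_not] at h3
  exact h3.resolve_right h1

theorem good_bound (χ : MulChar F ℂ) (hχ : χ ≠ 1) (G : ι → F[X]) (D : ℕ)
    (hG : ∀ i, (G i).natDegree ≤ D) {m : ℕ} (V : Fin (m + 1) → ι) (hV : Good G V) :
    ‖∑ t : F, tm χ G V t‖ ≤ (m * D : ℕ) * Real.sqrt (Fintype.card F) := by
  classical
  by_cases h0 : ∃ k, ep G V k = 0
  · obtain ⟨k, hk⟩ := h0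
    have h1 : ∀ t : F, tm χ G V t = 0 := by
      intro t
      rw [tm_eq]
      refine prod_eq_zero (mem_univ k) ?_
      rw [hk, eval_zero, MulChar.map_zero]
      unfold cc
      simp
    rw [sum_congr rfl fun t _ => h1 t, sum_const_zero, norm_zero]
    positivity
  · push Not at h0
    obtain ⟨k₀, v, hv, hv'⟩ := hV
    have h1 := edge_sum χ hχ (ep G V) D h0 (fun k => ?_) (fun k => decide (Even (k : ℕ))) k₀
      v (by rw [ep_rm]; exact hv) (fun k hk => ?_)
    · rw [Fintype.card_fin] at h1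
      simp_rw [tm_eq]
      exact h1
    · unfold ep
      split_ifs
      · exact (natDegree_sub_le _ _).trans (max_le (hG _) (hG _))
      · exact (natDegree_sub_le _ _).trans (max_le (hG _) (hG _))
    · rw [ep_rm]
      exact hv' k hk

open Classical in
theorem sum_trace' (χ : MulChar F ℂ) (hχ : χ ≠ 1) (G : ι → F[X]) (D : ℕ)
    (hG : ∀ i, (G i).natDegree ≤ D) (n : ℕ) (hn : n ≠ 0) :
    ‖∑ t : F, ((Km χ G t * (Km χ G t)ᴴ) ^ n).trace‖ ≤
      (Fintype.card F : ℝ) *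
        (Set.ncard {V : Fin (2 * n + 1) → ι | ¬ Good G V} : ℝ) +
      (2 * n * D : ℕ) * Real.sqrt (Fintype.card F) * (Fintype.card ι : ℝ) ^ (2 * n) := by
  have e1 : ∑ t : F, ((Km χ G t * (Km χ G t)ᴴ) ^ n).trace = ∑ V : Fin (2 * n + 1) → ι,
      if V 0 = V (Fin.last (2 * n)) then ∑ t : F, tm χ G V t else 0 := by
    simp_rw [trace_eq]
    rw [sum_comm]
    refine sum_congr rfl fun V _ => ?_
    split_ifs
    · rfl
    · exact sum_const_zero
  have e2 : ∀ V : Fin (2 * n + 1) → ι,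
      ‖if V 0 = V (Fin.last (2 * n)) then ∑ t : F, tm χ G V t else 0‖ ≤
        (if ¬ Good G V then (Fintype.card F : ℝ) else 0) +
        (if V 0 = V (Fin.last (2 * n)) then (2 * n * D : ℕ) * Real.sqrt (Fintype.card F) else 0) := by
    intro V
    by_cases h : V 0 = V (Fin.last (2 * n))
    · rw [if_pos h, if_pos h]
      by_cases hd : Good G V
      · rw [if_neg (not_not.2 hd), zero_add]
        exact good_bound χ hχ G D hG V hd
      · rw [if_pos hd]
        have h1 : ‖∑ t : F, tm χ G V t‖ ≤ Fintype.card F := by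
          refine (norm_sum_le _ _).trans ((sum_le_sum fun t _ => tm_norm χ G V t).trans ?_)
          rw [sum_const, card_univ, nsmul_eq_mul, mul_one]
        have h2 : 0 ≤ ((2 * n * D : ℕ) : ℝ) * Real.sqrt (Fintype.card F) := by positivity
        linarith
    · rw [if_neg h, if_neg h, norm_zero, add_zero]
      split_ifs <;> positivity
  rw [e1]
  refine (norm_sum_le _ _).trans ((sum_le_sum fun V _ => e2 V).trans ?_)
  rw [sum_add_distrib]
  refine add_le_add (le_of_eq ?_) ?_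
  · rw [← sum_filter, sum_const, nsmul_eq_mul, mul_comm, Set.ncard_eq_toFinset_card',
      Set.toFinset_ofPred]
  · rw [← sum_filter, sum_const, nsmul_eq_mul, mul_comm]
    refine mul_le_mul_of_nonneg_left ?_ (by positivity)
    have h1 := closed_card (ι := ι) (2 * n) (by omega)
    exact_mod_cast h1

end

section

variable {p : ℕ} [Fact p.Prime]
variable {ι : Type*} [Fintype ι] [DecidableEq ι]

open Classical in
theorem good_pair (G : ι → (ZMod p)[X]) (D : ℕ)
    (hG : ∀ i, (G i).natDegree ≤ D) {m : ℕ} (V : Fin (m + 1) → ι) (hV : Good G V) :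
    ‖∑ χ : DirichletCharacter ℂ p, ∑ t : ZMod p, tm χ G V t‖ ≤ (m * D : ℕ) * (p : ℝ) := by
  set φ := algebraMap (ZMod p) (AlgebraicClosure (ZMod p)) with hφ
  set Pe := ∏ k ∈ univ.filter (fun k : Fin m => Even (k : ℕ)), ep G V k with hPe
  set Po := ∏ k ∈ univ.filter (fun k : Fin m => ¬ Even (k : ℕ)), ep G V k with hPo
  by_cases h0 : ∃ k, ep G V k = 0
  · obtain ⟨k, hk⟩ := h0
    have h1 : ∀ (χ : DirichletCharacter ℂ p) (t : ZMod p), tm χ G V t = 0 := by
      intro χ t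
      rw [tm_eq]
      refine prod_eq_zero (mem_univ k) ?_
      rw [hk, eval_zero, MulChar.map_zero]
      unfold cc
      simp
    rw [sum_congr rfl fun χ _ => sum_congr rfl fun t _ => h1 χ t]
    simp only [sum_const_zero, norm_zero]
    positivity
  · push Not at h0
    obtain ⟨k₀, v, hv, hv'⟩ := hV
    have hroot : ∀ k, ((ep G V k).map φ).eval v = 0 ↔ k = k₀ := by
      intro k
      have hne : (ep G V k).map φ ≠ 0 := (Polynomial.map_ne_zero_iff φ.injective).2 (h0 k)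
      constructor
      · intro h
        by_contra hk
        have h3 : 0 < rootMultiplicity v ((ep G V k).map φ) := (rootMultiplicity_pos hne).2 h
        rw [ep_rm, hv' k hk] at h3
        exact lt_irrefl _ h3
      · rintro rfl
        have h3 : 0 < rootMultiplicity v ((ep G V k).map φ) := by
          rw [ep_rm, hv]
          exact one_pos
        exact (rootMultiplicity_pos hne).1 h3
    have hne : Pe - Po ≠ 0 := by
      intro h
      have h1 : (Pe.map φ).eval v = (Po.map φ).eval v := by rw [sub_eq_zero.1 h]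
      rw [hPe, hPo, Polynomial.map_prod, Polynomial.map_prod, eval_prod, eval_prod] at h1
      by_cases hs : Even (k₀ : ℕ)
      · have h2 : ∏ k ∈ univ.filter (fun k : Fin m => Even (k : ℕ)), ((ep G V k).map φ).eval v = 0 :=
          prod_eq_zero (mem_filter.2 ⟨mem_univ k₀, hs⟩) ((hroot k₀).2 rfl)
        rw [h2] at h1
        obtain ⟨k, hk, hk'⟩ := prod_eq_zero_iff.1 h1.symm
        have h3 := (hroot k).1 hk'
        rw [h3] at hk
        exact (mem_filter.1 hk).2 hs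
      · have h2 : ∏ k ∈ univ.filter (fun k : Fin m => ¬ Even (k : ℕ)),
            ((ep G V k).map φ).eval v = 0 :=
          prod_eq_zero (mem_filter.2 ⟨mem_univ k₀, hs⟩) ((hroot k₀).2 rfl)
        rw [h2] at h1
        obtain ⟨k, hk, hk'⟩ := prod_eq_zero_iff.1 h1
        have h3 := (hroot k).1 hk'
        rw [h3] at hk
        exact hs (mem_filter.1 hk).2
    have hdep : ∀ k, (ep G V k).natDegree ≤ D := by
      intro k
      unfold ep
      split_ifs
      · exact (natDegree_sub_le _ _).trans (max_le (hG _) (hG _))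
      · exact (natDegree_sub_le _ _).trans (max_le (hG _) (hG _))
    have hd : ∀ S : Finset (Fin m), (∏ k ∈ S, ep G V k).natDegree ≤ m * D := by
      intro S
      refine (natDegree_prod_le _ _).trans ((sum_le_sum fun k _ => hdep k).trans ?_)
      rw [sum_const, smul_eq_mul]
      refine Nat.mul_le_mul_right _ ((card_le_univ S).trans ?_)
      rw [Fintype.card_fin]
    have hdeg : (Pe - Po).natDegree ≤ m * D :=
      (natDegree_sub_le _ _).trans (max_le (hd _) (hd _))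
    rw [sum_comm]
    have h1 : ∀ t : ZMod p, ‖∑ χ : DirichletCharacter ℂ p, tm χ G V t‖ ≤
        if Pe.eval t = Po.eval t then (p : ℝ) else 0 := by
      intro t
      have e : ∀ χ : DirichletCharacter ℂ p, tm χ G V t =
          χ (Pe.eval t) * (starRingEnd ℂ) (χ (Po.eval t)) := fun χ => tm_split χ G V t
      rw [sum_congr rfl fun χ _ => e χ]
      exact char_orth _ _
    refine (norm_sum_le _ _).trans ((sum_le_sum fun t _ => h1 t).trans ?_)
    rw [← sum_filter, sum_const, nsmul_eq_mul]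
    refine mul_le_mul_of_nonneg_right ?_ (Nat.cast_nonneg _)
    have h2 : (univ.filter fun t : ZMod p => Pe.eval t = Po.eval t) ⊆ (Pe - Po).roots.toFinset := by
      intro t ht
      rw [Multiset.mem_toFinset, mem_roots hne, IsRoot, eval_sub, sub_eq_zero]
      exact (mem_filter.1 ht).2
    have h3 := (card_le_card h2).trans ((Multiset.toFinset_card_le _).trans
      ((card_roots' _).trans hdeg))
    exact_mod_cast h3

open Classical in
theorem sum_trace_pair' (G : ι → (ZMod p)[X]) (D : ℕ)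
    (hG : ∀ i, (G i).natDegree ≤ D) (n : ℕ) (hn : n ≠ 0) :
    ‖∑ χ : DirichletCharacter ℂ p, ∑ t : ZMod p, ((Km χ G t * (Km χ G t)ᴴ) ^ n).trace‖ ≤
      (p : ℝ) ^ 2 * (Set.ncard {V : Fin (2 * n + 1) → ι | ¬ Good G V} : ℝ) +
      (2 * n * D : ℕ) * (p : ℝ) * (Fintype.card ι : ℝ) ^ (2 * n) := by
  have hpp : p.Prime := Fact.out
  have hp0 : (0 : ℝ) < p := by exact_mod_cast hpp.pos
  have hcard : (Fintype.card (DirichletCharacter ℂ p) : ℝ) ≤ p := by
    have h1 : Fintype.card (DirichletCharacter ℂ p) = p.totient := by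
      rw [← Nat.card_eq_fintype_card]
      exact DirichletCharacter.card_eq_totient_of_hasEnoughRootsOfUnity ℂ p
    rw [h1]
    exact_mod_cast Nat.totient_le p
  have e1 : ∑ χ : DirichletCharacter ℂ p, ∑ t : ZMod p, ((Km χ G t * (Km χ G t)ᴴ) ^ n).trace =
      ∑ V : Fin (2 * n + 1) → ι,
      if V 0 = V (Fin.last (2 * n)) then
        ∑ χ : DirichletCharacter ℂ p, ∑ t : ZMod p, tm χ G V t else 0 := by
    simp_rw [trace_eq]
    have e2 : ∀ χ : DirichletCharacter ℂ p, ∑ t : ZMod p, ∑ V : Fin (2 * n + 1) → ι,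
        (if V 0 = V (Fin.last (2 * n)) then tm χ G V t else 0) =
        ∑ V : Fin (2 * n + 1) → ι, ∑ t : ZMod p,
        (if V 0 = V (Fin.last (2 * n)) then tm χ G V t else 0) := fun χ => sum_comm
    rw [sum_congr rfl fun χ _ => e2 χ, sum_comm]
    refine sum_congr rfl fun V _ => ?_
    split_ifs
    · rfl
    · simp
  have e2 : ∀ V : Fin (2 * n + 1) → ι,
      ‖if V 0 = V (Fin.last (2 * n)) then
        ∑ χ : DirichletCharacter ℂ p, ∑ t : ZMod p, tm χ G V t else 0‖ ≤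
        (if ¬ Good G V then (p : ℝ) ^ 2 else 0) +
        (if V 0 = V (Fin.last (2 * n)) then (2 * n * D : ℕ) * (p : ℝ) else 0) := by
    intro V
    by_cases h : V 0 = V (Fin.last (2 * n))
    · rw [if_pos h, if_pos h]
      by_cases hd : Good G V
      · rw [if_neg (not_not.2 hd), zero_add]
        exact good_pair G D hG V hd
      · rw [if_pos hd]
        have h1 : ∀ χ : DirichletCharacter ℂ p, ‖∑ t : ZMod p, tm χ G V t‖ ≤ p := by
          intro χ
          refine (norm_sum_le _ _).trans ((sum_le_sum fun t _ => tm_norm χ G V t).trans ?_)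
          rw [sum_const, card_univ, nsmul_eq_mul, mul_one, ZMod.card]
        have h3 : ‖∑ χ : DirichletCharacter ℂ p, ∑ t : ZMod p, tm χ G V t‖ ≤ (p : ℝ) ^ 2 := by
          refine (norm_sum_le _ _).trans ((sum_le_sum fun χ _ => h1 χ).trans ?_)
          rw [sum_const, card_univ, nsmul_eq_mul, sq]
          exact mul_le_mul_of_nonneg_right hcard hp0.le
        have h2 : 0 ≤ ((2 * n * D : ℕ) : ℝ) * (p : ℝ) := by positivity
        linarith
    · rw [if_neg h, if_neg h, norm_zero, add_zero]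
      split_ifs <;> positivity
  rw [e1]
  refine (norm_sum_le _ _).trans ((sum_le_sum fun V _ => e2 V).trans ?_)
  rw [sum_add_distrib]
  refine add_le_add (le_of_eq ?_) ?_
  · rw [← sum_filter, sum_const, nsmul_eq_mul, mul_comm, Set.ncard_eq_toFinset_card',
      Set.toFinset_ofPred]
  · rw [← sum_filter, sum_const, nsmul_eq_mul, mul_comm]
    refine mul_le_mul_of_nonneg_left ?_ (by positivity)
    have h1 := closed_card (ι := ι) (2 * n) (by omega)
    exact_mod_cast h1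

/-- the number of the walks that are not good -/
noncomputable def ngc (G : ι → (ZMod p)[X]) (m : ℕ) : ℕ :=
  Set.ncard {V : Fin (m + 1) → ι | ¬ Good G V}

theorem ngc_le (G : ι → (ZMod p)[X]) (Z : Set (AlgebraicClosure (ZMod p))) (D : ℕ)
    (hG : ∀ i, (G i).natDegree ≤ D) (c : ℝ) (n₁ : ℕ)
    (hN : 0 < Fintype.card ι)
    (hc : (1 + ((D + 1) * (2 * n₁)) * (D + 1) : ℕ) ≤ (Fintype.card ι : ℝ) ^ c)
    (h1 : ∀ i, (Set.ncard {j : ι | BZ G Z (i, j)} : ℝ) ≤ (Fintype.card ι : ℝ) ^ (1 - c))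
    (h2 : ∀ v, v ∉ Z → ∀ i, (Set.ncard {j : ι | v ∈ Rts G (i, j)} : ℝ) ≤
      (Fintype.card ι : ℝ) ^ (1 - c)) :
    (ngc G (2 * ((D + 1) * n₁)) : ℝ) ≤
      (2 ^ (2 * ((D + 1) * n₁)) * ((1 + ((D + 1) * (2 * n₁)) * (D + 1) : ℕ) : ℝ) ^ (2 * n₁)) *
      (Fintype.card ι : ℝ) ^ (2 * ((D + 1) * n₁)) * (Fintype.card ι : ℝ) ^ (1 - 2 * n₁ * c) := by
  classical
  set N : ℝ := (Fintype.card ι : ℝ) with hNd
  have hN0 : 0 < N := by rw [hNd]; exact_mod_cast hN
  set C₁ : ℕ := 1 + ((D + 1) * (2 * n₁)) * (D + 1) with hC₁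
  have hC₁0 : (0 : ℝ) < C₁ := by rw [hC₁]; positivity
  have hL : ∀ {S : Set ι}, (S.ncard : ℝ) ≤ N ^ (1 - c) → S.ncard ≤ ⌊N ^ (1 - c)⌋₊ :=
    fun h => Nat.le_floor h
  have h2' : ∀ v i, Set.ncard {j : ι | v ∈ RZ G Z (i, j)} ≤ ⌊N ^ (1 - c)⌋₊ := by
    intro v i
    by_cases hv : v ∈ Z
    · have : {j : ι | v ∈ RZ G Z (i, j)} = ∅ := by
        ext j
        unfold RZ
        simp only [Set.mem_ofPred_eq, mem_filter, Set.mem_empty_iff_false, iff_false]
        rintro ⟨-, h⟩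
        exact h hv
      rw [this, Set.ncard_empty]
      exact Nat.zero_le _
    · refine le_trans (Set.ncard_le_ncard ?_ (Set.toFinite _)) (hL (h2 v hv i))
      intro j hj
      exact (mem_filter.1 hj).1
  have h3 := card_Deg (RZ G Z) (rZ G Z) (BZ G Z) D ⌊N ^ (1 - c)⌋₊ (RZ_card G Z D hG) (rZ_mem G Z)
    (fun i => hL (h1 i)) h2' (2 * n₁) hN (C₁ * N ^ (1 - c))
    (by positivity) (by
      have : N = N ^ c * N ^ (1 - c) := by
        rw [← Real.rpow_add hN0]
        norm_num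
      rw [← hNd]
      calc (C₁ : ℝ) * N ^ (1 - c) ≤ N ^ c * N ^ (1 - c) :=
            mul_le_mul_of_nonneg_right hc (by positivity)
        _ = N := this.symm) (by
      rw [Nat.cast_mul, mul_comm]
      exact mul_le_mul_of_nonneg_left (Nat.floor_le (by positivity)) (Nat.cast_nonneg _))
  have e : (D + 1) * (2 * n₁) = 2 * ((D + 1) * n₁) := by ring
  have h4 : (ngc G ((D + 1) * (2 * n₁)) : ℝ) ≤
      (Set.ncard {V : Fin ((D + 1) * (2 * n₁) + 1) → ι | Deg (RZ G Z) (rZ G Z) (BZ G Z) V} : ℝ) := by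
    unfold ngc
    have : {V : Fin ((D + 1) * (2 * n₁) + 1) → ι | ¬ Good G V} ⊆
        {V : Fin ((D + 1) * (2 * n₁) + 1) → ι | Deg (RZ G Z) (rZ G Z) (BZ G Z) V} := by
      intro V hV
      by_contra hcon
      exact hV (good_of_not_deg G Z V hcon)
    exact_mod_cast Set.ncard_le_ncard this (Set.toFinite _)
  have h3 := h4.trans h3
  rw [← hNd] at h3
  rw [e] at h3
  refine h3.trans (le_of_eq ?_)
  have e2 : (C₁ * N ^ (1 - c)) ^ (2 * n₁) = (C₁ : ℝ) ^ (2 * n₁) * N ^ ((1 - c) * (2 * n₁)) := by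
    rw [mul_pow, Real.rpow_mul hN0.le]
    congr 1
    rw [← Real.rpow_natCast]
    push_cast
    rfl
  have e3 : N * N ^ (D * (2 * n₁)) * N ^ ((1 - c) * (2 * n₁)) =
      N ^ (2 * ((D + 1) * n₁)) * N ^ (1 - 2 * n₁ * c) := by
    have h4 : N * N ^ (D * (2 * n₁)) * N ^ ((1 - c) * (2 * n₁)) =
        N ^ ((1 : ℝ) + ((D * (2 * n₁) : ℕ) : ℝ) + (1 - c) * (2 * n₁)) := by
      rw [Real.rpow_add hN0, Real.rpow_add hN0, Real.rpow_one, Real.rpow_natCast]
    have h5 : N ^ (2 * ((D + 1) * n₁)) * N ^ (1 - 2 * n₁ * c) =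
        N ^ (((2 * ((D + 1) * n₁) : ℕ) : ℝ) + (1 - 2 * n₁ * c)) := by
      rw [Real.rpow_add hN0, Real.rpow_natCast]
    rw [h4, h5]
    congr 1
    push_cast
    ring
  rw [e2]
  calc N * 2 ^ (2 * ((D + 1) * n₁)) * N ^ (D * (2 * n₁)) *
        ((C₁ : ℝ) ^ (2 * n₁) * N ^ ((1 - c) * (2 * n₁))) =
      (2 ^ (2 * ((D + 1) * n₁)) * (C₁ : ℝ) ^ (2 * n₁)) *
        (N * N ^ (D * (2 * n₁)) * N ^ ((1 - c) * (2 * n₁))) := by ring
    _ = _ := by rw [e3]; ring

end

/-- almost all parameters, for every character and for all the characters together -/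
theorem familyZ (δ c ε : ℝ) (hδ : 0 < δ) (hc : 0 < c) (hε : 0 < ε) (D : ℕ) :
    ∃ τ : ℝ, 0 < τ ∧ ∃ p₀ : ℕ, ∀ (p : ℕ) [Fact p.Prime], p₀ ≤ p →
      ∀ (ι : Type) [Fintype ι] [DecidableEq ι] (G : ι → (ZMod p)[X])
        (Z : Set (AlgebraicClosure (ZMod p))),
        (∀ i, (G i).natDegree ≤ D) → (p : ℝ) ^ δ < (Fintype.card ι : ℝ) →
        (∀ i, (Set.ncard {j : ι | BZ G Z (i, j)} : ℝ) ≤ (Fintype.card ι : ℝ) ^ (1 - c)) →
        (∀ v, v ∉ Z → ∀ i, (Set.ncard {j : ι | v ∈ Rts G (i, j)} : ℝ) ≤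
          (Fintype.card ι : ℝ) ^ (1 - c)) →
        (∀ χ : DirichletCharacter ℂ p, χ ≠ 1 →
          (Set.ncard {t : ZMod p | Large τ χ G t} : ℝ) ≤ (p : ℝ) ^ (1 / 2 + ε)) ∧
        (Set.ncard {q : ZMod p × DirichletCharacter ℂ p | Large τ q.2 G q.1} : ℝ) ≤
          (p : ℝ) ^ (1 + ε) := by
  obtain ⟨n₁, hn₁⟩ : ∃ n₁ : ℕ, (1 / δ + 1) / (2 * c) < n₁ := exists_nat_gt _
  have hn₁0 : 0 < n₁ := by
    have : (0 : ℝ) < n₁ := lt_trans (by positivity) hn₁
    exact_mod_cast this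
  have hn₁' : 1 ≤ δ * (2 * n₁ * c - 1) := by
    rw [div_lt_iff₀ (by positivity)] at hn₁
    have h1 : 1 / δ ≤ 2 * n₁ * c - 1 := by linarith
    calc (1 : ℝ) = δ * (1 / δ) := by field_simp
      _ ≤ _ := mul_le_mul_of_nonneg_left h1 hδ.le
  set n : ℕ := (D + 1) * n₁ with hn
  have hn0 : n ≠ 0 := by
    rw [hn]
    positivity
  have hnr : (0 : ℝ) < n := by
    have : 0 < n := Nat.pos_of_ne_zero hn0
    exact_mod_cast this
  set C₁ : ℕ := 1 + ((D + 1) * (2 * n₁)) * (D + 1) with hC₁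
  set C₂ : ℝ := 2 ^ (2 * n) * (C₁ : ℝ) ^ (2 * n₁) with hC₂
  have hC₂0 : 0 ≤ C₂ := by positivity
  set C₃ : ℝ := C₂ + (2 * n * D : ℕ) with hC₃
  have hC₃0 : 0 ≤ C₃ := by positivity
  set τ : ℝ := ε / (4 * n) with hτ
  have hτ0 : 0 < τ := by positivity
  obtain ⟨p₁, hp₁2, hp₁⟩ := exists_large (C₁ : ℝ) (δ * c) (by positivity)
  obtain ⟨p₂, -, hp₂⟩ := exists_large C₃ (ε / 2) (by positivity)
  refine ⟨τ, hτ0, max p₁ p₂, fun p _ hp ι _ _ G Z hG hNδ h1 h2 => ?_⟩
  have hpp : p.Prime := Fact.out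
  have hp0 : (0 : ℝ) < p := by exact_mod_cast hpp.pos
  have hp1 : (1 : ℝ) ≤ p := by exact_mod_cast hpp.one_lt.le
  have hp1' := hp₁ p ((le_max_left _ _).trans hp)
  have hp2' := hp₂ p ((le_max_right _ _).trans hp)
  set N : ℝ := (Fintype.card ι : ℝ) with hN
  have hN0 : 0 < N := lt_trans (by positivity) hNδ
  have hNn : 0 < Fintype.card ι := by
    rw [hN] at hN0
    exact_mod_cast hN0
  have hNc : (C₁ : ℝ) ≤ N ^ c := by
    refine hp1'.trans ?_
    rw [Real.rpow_mul hp0.le]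
    exact Real.rpow_le_rpow (by positivity) hNδ.le hc.le
  have hd := ngc_le G Z D hG c n₁ hNn hNc h1 h2
  rw [← hN, ← hn, ← hC₁] at hd
  change (ngc G (2 * n) : ℝ) ≤ C₂ * N ^ (2 * n) * N ^ (1 - 2 * n₁ * c) at hd
  have hNp : N ^ (1 - 2 * n₁ * c) ≤ (p : ℝ)⁻¹ := by
    have h3 : (0 : ℝ) ≤ 2 * n₁ * c - 1 := by
      by_contra hcon
      push Not at hcon
      have : δ * (2 * n₁ * c - 1) < 0 := mul_neg_of_pos_of_neg hδ hcon
      linarith
    have h4 : N ^ (1 - 2 * n₁ * c) = (N ^ (2 * n₁ * c - 1))⁻¹ := by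
      rw [← Real.rpow_neg hN0.le]
      congr 1
      ring
    rw [h4]
    apply inv_anti₀ hp0
    calc (p : ℝ) = (p : ℝ) ^ (1 : ℝ) := (Real.rpow_one _).symm
      _ ≤ (p : ℝ) ^ (δ * (2 * n₁ * c - 1)) := Real.rpow_le_rpow_of_exponent_le hp1 hn₁'
      _ = ((p : ℝ) ^ δ) ^ (2 * n₁ * c - 1) := Real.rpow_mul hp0.le _ _
      _ ≤ N ^ (2 * n₁ * c - 1) := Real.rpow_le_rpow (by positivity) hNδ.le h3
  have hd' : (p : ℝ) * (ngc G (2 * n) : ℝ) ≤ C₂ * N ^ (2 * n) := by
    calc (p : ℝ) * (ngc G (2 * n) : ℝ) ≤ p * (C₂ * N ^ (2 * n) * N ^ (1 - 2 * n₁ * c)) :=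
          mul_le_mul_of_nonneg_left hd hp0.le
      _ ≤ p * (C₂ * N ^ (2 * n) * (p : ℝ)⁻¹) := by
          refine mul_le_mul_of_nonneg_left (mul_le_mul_of_nonneg_left hNp ?_) hp0.le
          positivity
      _ = C₂ * N ^ (2 * n) := by
          field_simp
  have hlam : ((p : ℝ) ^ (-τ) * N) ^ (2 * n) = (p : ℝ) ^ (-(ε / 2)) * N ^ (2 * n) := by
    rw [mul_pow, ← Real.rpow_natCast ((p : ℝ) ^ (-τ)), ← Real.rpow_mul hp0.le]
    congr 2
    rw [hτ]
    push_cast
    field_simp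
    ring
  have hsq1 : (1 : ℝ) ≤ Real.sqrt p := by
    rw [Real.one_le_sqrt]
    exact hp1
  have fin : ∀ x M : ℝ, 0 ≤ M → x * ((p : ℝ) ^ (-τ) * N) ^ (2 * n) ≤ C₃ * M * N ^ (2 * n) →
      x ≤ M * (p : ℝ) ^ ε := by
    intro x M hM hx
    rw [hlam] at hx
    have h3 : 0 < N ^ (2 * n) := by positivity
    have h4 : x * (p : ℝ) ^ (-(ε / 2)) ≤ C₃ * M := by
      refine le_of_mul_le_mul_right ?_ h3
      calc x * (p : ℝ) ^ (-(ε / 2)) * N ^ (2 * n) = x * ((p : ℝ) ^ (-(ε / 2)) * N ^ (2 * n)) := by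
            ring
        _ ≤ _ := hx
    calc x = x * (p : ℝ) ^ (-(ε / 2)) * (p : ℝ) ^ (ε / 2) := by
          rw [mul_assoc, ← Real.rpow_add hp0]
          norm_num
      _ ≤ C₃ * M * (p : ℝ) ^ (ε / 2) := mul_le_mul_of_nonneg_right h4 (by positivity)
      _ ≤ (p : ℝ) ^ (ε / 2) * M * (p : ℝ) ^ (ε / 2) := by gcongr
      _ = M * ((p : ℝ) ^ (ε / 2) * (p : ℝ) ^ (ε / 2)) := by ring
      _ = M * (p : ℝ) ^ ε := by
          rw [← Real.rpow_add hp0]
          congr 2
          ring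
  constructor
  · intro χ hχ
    have h3 := sum_trace' χ hχ G D hG n hn0
    have h4 := count_le {t : ZMod p | Large τ χ G t}
      (fun t => (((Km χ G t * (Km χ G t)ᴴ) ^ n).trace).re) (fun t => trace_nonneg _ n)
      (((p : ℝ) ^ (-τ) * N) ^ (2 * n)) (fun t ht => large_trace τ χ G t n hn0 ht)
    have h5 : ∑ t : ZMod p, (((Km χ G t * (Km χ G t)ᴴ) ^ n).trace).re ≤
        C₃ * Real.sqrt p * N ^ (2 * n) := by
      rw [← Complex.re_sum]
      refine (Complex.re_le_norm _).trans (h3.trans ?_)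
      rw [ZMod.card]
      change (p : ℝ) * (ngc G (2 * n) : ℝ) + (2 * n * D : ℕ) * Real.sqrt p * N ^ (2 * n) ≤ _
      have h6 : C₂ * N ^ (2 * n) ≤ C₂ * Real.sqrt p * N ^ (2 * n) := by
        refine mul_le_mul_of_nonneg_right ?_ (by positivity)
        nlinarith
      calc _ ≤ C₂ * Real.sqrt p * N ^ (2 * n) + (2 * n * D : ℕ) * Real.sqrt p * N ^ (2 * n) :=
            add_le_add (hd'.trans h6) le_rfl
        _ = _ := by rw [hC₃]; ring
    have h6 := fin _ _ (Real.sqrt_nonneg p) (h4.trans h5)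
    refine h6.trans (le_of_eq ?_)
    rw [Real.sqrt_eq_rpow, ← Real.rpow_add hp0]
  · have h3 := sum_trace_pair' G D hG n hn0
    have h4 := count_le {q : ZMod p × DirichletCharacter ℂ p | Large τ q.2 G q.1}
      (fun q => (((Km q.2 G q.1 * (Km q.2 G q.1)ᴴ) ^ n).trace).re) (fun q => trace_nonneg _ n)
      (((p : ℝ) ^ (-τ) * N) ^ (2 * n)) (fun q hq => large_trace τ q.2 G q.1 n hn0 hq)
    have h5 : ∑ q : ZMod p × DirichletCharacter ℂ p,
        (((Km q.2 G q.1 * (Km q.2 G q.1)ᴴ) ^ n).trace).re ≤ C₃ * p * N ^ (2 * n) := by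
      rw [Fintype.sum_prod_type, sum_comm]
      have e1 : ∑ χ : DirichletCharacter ℂ p, ∑ t : ZMod p,
          (((Km χ G t * (Km χ G t)ᴴ) ^ n).trace).re =
          (∑ χ : DirichletCharacter ℂ p, ∑ t : ZMod p,
            ((Km χ G t * (Km χ G t)ᴴ) ^ n).trace).re := by
        simp only [Complex.re_sum]
      simp only
      rw [e1]
      refine (Complex.re_le_norm _).trans (h3.trans ?_)
      change (p : ℝ) ^ 2 * (ngc G (2 * n) : ℝ) + (2 * n * D : ℕ) * p * N ^ (2 * n) ≤ _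
      calc _ = p * ((p : ℝ) * (ngc G (2 * n) : ℝ)) + (2 * n * D : ℕ) * p * N ^ (2 * n) := by ring
        _ ≤ p * (C₂ * N ^ (2 * n)) + (2 * n * D : ℕ) * p * N ^ (2 * n) :=
            add_le_add (mul_le_mul_of_nonneg_left hd' hp0.le) le_rfl
        _ = _ := by rw [hC₃]; ring
    have h6 := fin _ _ hp0.le (h4.trans h5)
    refine h6.trans (le_of_eq ?_)
    rw [Real.rpow_add hp0, Real.rpow_one]

end Pool.Agent.K7.H77.PF
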