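import Pool.Agent.K7.H77.PF.Trace
import Pool.Agent.K7.H77.PF.Edge

/-! # Moments of the matrices `χ (G i (t) - G j (t))` over the parameter `t` -/

set_option autoImplicit false
set_option linter.unusedSectionVars false

namespace Pool.Agent.K7.H77.PF

open Finset Matrix Polynomial

section

variable {F : Type} [Field F] [Fintype F] [DecidableEq F]
variable {ι : Type*} [Fintype ι] [DecidableEq ι]

/-- the difference of two members of the family, over the algebraic closure -/
noncomputable def dp (G : ι → F[X]) (e : ι × ι) : (AlgebraicClosure F)[X] :=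
  (G e.1 - G e.2).map (algebraMap F (AlgebraicClosure F))

open Classical in
/-- its roots -/
noncomputable def Rts (G : ι → F[X]) (e : ι × ι) : Finset (AlgebraicClosure F) :=
  (dp G e).roots.toFinset

/-- there is no simple root -/
def Bd (G : ι → F[X]) (e : ι × ι) : Prop :=
  ¬ ∃ v : AlgebraicClosure F, rootMultiplicity v (dp G e) = 1

open Classical in
/-- a simple root -/
noncomputable def rt (G : ι → F[X]) (e : ι × ι) : AlgebraicClosure F :=
  if h : ∃ v : AlgebraicClosure F, rootMultiplicity v (dp G e) = 1 then h.choose else 0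

theorem rt_spec (G : ι → F[X]) (e : ι × ι) (h : ¬ Bd G e) :
    rootMultiplicity (rt G e) (dp G e) = 1 := by
  unfold Bd at h
  rw [not_not] at h
  unfold rt
  rw [dif_pos h]
  exact h.choose_spec

theorem rt_mem (G : ι → F[X]) (e : ι × ι) (h : ¬ Bd G e) : rt G e ∈ Rts G e := by
  classical
  unfold Rts
  rw [Multiset.mem_toFinset]
  have h1 := rt_spec G e h
  by_contra hcon
  have h2 : Multiset.count (rt G e) (dp G e).roots = 0 := Multiset.count_eq_zero.2 hcon
  rw [count_roots, h1] at h2
  exact one_ne_zero h2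

theorem Rts_card (G : ι → F[X]) (D : ℕ) (hG : ∀ i, (G i).natDegree ≤ D) (e : ι × ι) :
    (Rts G e).card ≤ D := by
  classical
  unfold Rts
  refine (Multiset.toFinset_card_le _).trans ((card_roots' _).trans ?_)
  unfold dp
  refine natDegree_map_le.trans ((natDegree_sub_le _ _).trans ?_)
  exact max_le (hG _) (hG _)

theorem mem_Rts (G : ι → F[X]) (e : ι × ι) (v : AlgebraicClosure F) :
    v ∈ Rts G e ↔ G e.1 ≠ G e.2 ∧ (dp G e).eval v = 0 := by
  classical
  unfold Rts
  rw [Multiset.mem_toFinset]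
  by_cases h : dp G e = 0
  · rw [h]
    simp only [roots_zero, Multiset.notMem_zero, false_iff, not_and]
    intro h1
    exfalso
    unfold dp at h
    rw [Polynomial.map_eq_zero_iff (algebraMap F (AlgebraicClosure F)).injective, sub_eq_zero] at h
    exact h1 h
  · rw [mem_roots h]
    constructor
    · intro h1
      refine ⟨fun h2 => h ?_, h1⟩
      unfold dp
      rw [h2, sub_self, Polynomial.map_zero]
    · exact fun h1 => h1.2

/-- the matrix with the entries `χ (G i (t) - G j (t))` -/
noncomputable def Km (χ : MulChar F ℂ) (G : ι → F[X]) (t : F) : Matrix ι ι ℂ :=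
  Matrix.of fun i j => χ ((G i - G j).eval t)

/-- the term of a walk -/
noncomputable def tm (χ : MulChar F ℂ) (G : ι → F[X]) {m : ℕ} (V : Fin (m + 1) → ι) (t : F) : ℂ :=
  ∏ k : Fin m, (if Even (k : ℕ) then Km χ G t else (Km χ G t)ᴴ) (V k.castSucc) (V k.succ)

/-- the polynomials of the edges of a walk -/
noncomputable def ep (G : ι → F[X]) {m : ℕ} (V : Fin (m + 1) → ι) (k : Fin m) : F[X] :=
  if Even (k : ℕ) then G (V k.castSucc) - G (V k.succ) else G (V k.succ) - G (V k.castSucc)

theorem tm_eq (χ : MulChar F ℂ) (G : ι → F[X]) {m : ℕ} (V : Fin (m + 1) → ι) (t : F) :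
    tm χ G V t = ∏ k : Fin m, cc (decide (Even (k : ℕ))) (χ ((ep G V k).eval t)) := by
  unfold tm
  refine prod_congr rfl fun k _ => ?_
  unfold ep cc
  by_cases h : Even (k : ℕ)
  · simp only [h, if_true, decide_true]
    rfl
  · simp only [h, if_false, decide_false, Bool.false_eq_true]
    rw [Matrix.conjTranspose_apply]
    rfl

theorem tm_norm (χ : MulChar F ℂ) (G : ι → F[X]) {m : ℕ} (V : Fin (m + 1) → ι) (t : F) :
    ‖tm χ G V t‖ ≤ 1 := by
  rw [tm_eq, norm_prod]
  refine prod_le_one (fun k _ => norm_nonneg _) fun k _ => ?_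
  rw [norm_cc]
  exact mc_norm χ _

theorem ep_map (G : ι → F[X]) {m : ℕ} (V : Fin (m + 1) → ι) (k : Fin m) :
    (ep G V k).map (algebraMap F (AlgebraicClosure F)) = dp G (edge V k) ∨
    (ep G V k).map (algebraMap F (AlgebraicClosure F)) = - dp G (edge V k) := by
  unfold ep dp edge
  by_cases h : Even (k : ℕ)
  · left
    rw [if_pos h]
  · right
    rw [if_neg h, ← Polynomial.map_neg, neg_sub]

theorem rm_neg {K : Type*} [Field K] (f : K[X]) (v : K) : rootMultiplicity v (-f) = rootMultiplicity v f := by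
  classical
  rw [← count_roots, ← count_roots, roots_neg]

theorem ep_rm (G : ι → F[X]) {m : ℕ} (V : Fin (m + 1) → ι) (k : Fin m) (v : AlgebraicClosure F) :
    rootMultiplicity v ((ep G V k).map (algebraMap F (AlgebraicClosure F))) =
      rootMultiplicity v (dp G (edge V k)) := by
  rcases ep_map G V k with h | h
  · rw [h]
  · rw [h, rm_neg]

/-- a walk that is not degenerate -/
theorem term_bound (χ : MulChar F ℂ) (hχ : χ ≠ 1) (G : ι → F[X]) (D : ℕ)
    (hG : ∀ i, (G i).natDegree ≤ D) {m : ℕ} (V : Fin (m + 1) → ι)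
    (hV : ¬ Deg (Rts G) (rt G) (Bd G) V) :
    ‖∑ t : F, tm χ G V t‖ ≤ (m * D : ℕ) * Real.sqrt (Fintype.card F) := by
  classical
  by_cases h0 : ∃ k, ep G V k = 0
  · obtain ⟨k, hk⟩ := h0
    have h1 : ∀ t : F, tm χ G V t = 0 := by
      intro t
      rw [tm_eq]
      refine prod_eq_zero (mem_univ k) ?_
      rw [hk, eval_zero, MulChar.map_zero]
      unfold cc
      simp
    rw [sum_congr rfl fun t _ => h1 t, sum_const_zero, norm_zero]
    positivity
  · push Not at h0
    unfold Deg at hV
    push Not at hV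
    obtain ⟨k₀, hB, hk₀⟩ := hV
    have h1 := edge_sum χ hχ (ep G V) D h0 (fun k => ?_) (fun k => decide (Even (k : ℕ))) k₀
      (rt G (edge V k₀)) (by rw [ep_rm]; exact rt_spec G _ hB) (fun k hk => ?_)
    · rw [Fintype.card_fin] at h1
      simp_rw [tm_eq]
      exact h1
    · unfold ep
      split_ifs
      · exact (natDegree_sub_le _ _).trans (max_le (hG _) (hG _))
      · exact (natDegree_sub_le _ _).trans (max_le (hG _) (hG _))
    · rw [ep_rm]
      have h2 := hk₀ k hk
      unfold Rts at h2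
      rw [Multiset.mem_toFinset] at h2
      rw [← count_roots]
      exact Multiset.count_eq_zero.2 h2

/-- the trace as a sum over closed walks -/
theorem trace_eq (χ : MulChar F ℂ) (G : ι → F[X]) (n : ℕ) (t : F) :
    ((Km χ G t * (Km χ G t)ᴴ) ^ n).trace = ∑ V : Fin (2 * n + 1) → ι,
      if V 0 = V (Fin.last (2 * n)) then tm χ G V t else 0 := by
  rw [← wp_alt, wp_trace]
  refine sum_congr rfl fun V _ => ?_
  by_cases h : V 0 = V (Fin.last (2 * n))
  · rw [if_pos h, if_pos h]
    rfl
  · rw [if_neg h, if_neg h]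

open Classical in
theorem sum_trace (χ : MulChar F ℂ) (hχ : χ ≠ 1) (G : ι → F[X]) (D : ℕ)
    (hG : ∀ i, (G i).natDegree ≤ D) (n : ℕ) (hn : n ≠ 0) :
    ‖∑ t : F, ((Km χ G t * (Km χ G t)ᴴ) ^ n).trace‖ ≤
      (Fintype.card F : ℝ) *
        (Set.ncard {V : Fin (2 * n + 1) → ι | Deg (Rts G) (rt G) (Bd G) V} : ℝ) +
      (2 * n * D : ℕ) * Real.sqrt (Fintype.card F) * (Fintype.card ι : ℝ) ^ (2 * n) := by
  have e1 : ∑ t : F, ((Km χ G t * (Km χ G t)ᴴ) ^ n).trace = ∑ V : Fin (2 * n + 1) → ι,
      if V 0 = V (Fin.last (2 * n)) then ∑ t : F, tm χ G V t else 0 := by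
    simp_rw [trace_eq]
    rw [sum_comm]
    refine sum_congr rfl fun V _ => ?_
    split_ifs
    · rfl
    · exact sum_const_zero
  have e2 : ∀ V : Fin (2 * n + 1) → ι,
      ‖if V 0 = V (Fin.last (2 * n)) then ∑ t : F, tm χ G V t else 0‖ ≤
        (if Deg (Rts G) (rt G) (Bd G) V then (Fintype.card F : ℝ) else 0) +
        (if V 0 = V (Fin.last (2 * n)) then (2 * n * D : ℕ) * Real.sqrt (Fintype.card F) else 0) := by
    intro V
    by_cases h : V 0 = V (Fin.last (2 * n))
    · rw [if_pos h, if_pos h]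
      by_cases hd : Deg (Rts G) (rt G) (Bd G) V
      · rw [if_pos hd]
        have h1 : ‖∑ t : F, tm χ G V t‖ ≤ Fintype.card F := by
          refine (norm_sum_le _ _).trans ((sum_le_sum fun t _ => tm_norm χ G V t).trans ?_)
          rw [sum_const, card_univ, nsmul_eq_mul, mul_one]
        have h2 : 0 ≤ ((2 * n * D : ℕ) : ℝ) * Real.sqrt (Fintype.card F) := by positivity
        linarith
      · rw [if_neg hd, zero_add]
        exact term_bound χ hχ G D hG V hd
    · rw [if_neg h, if_neg h, norm_zero, add_zero]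
      split_ifs <;> positivity
  rw [e1]
  refine (norm_sum_le _ _).trans ((sum_le_sum fun V _ => e2 V).trans ?_)
  rw [sum_add_distrib]
  refine add_le_add (le_of_eq ?_) ?_
  · rw [← sum_filter, sum_const, nsmul_eq_mul, mul_comm, Set.ncard_eq_toFinset_card',
      Set.toFinset_ofPred]
  · rw [← sum_filter, sum_const, nsmul_eq_mul, mul_comm]
    refine mul_le_mul_of_nonneg_left ?_ (by positivity)
    have h1 := closed_card (ι := ι) (2 * n) (by omega)
    exact_mod_cast h1

end

end Pool.Agent.K7.H77.PF
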