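import Pool.Agent.K7.H77.PF.Planar
import Pool.Agent.H435R3.Paley.Core

/-! # Families of polynomials: the images of the index set and their dense subsets -/

set_option autoImplicit false
set_option linter.unusedSectionVars false

namespace Pool.Agent.K7.H77.PF

open Finset Matrix Polynomial

section

variable {p : ℕ} [Fact p.Prime]
variable {ι : Type*} [Fintype ι] [DecidableEq ι]

/-- the classical bound -/
theorem classical_bound (χ : DirichletCharacter ℂ p) (hχ : χ ≠ 1) (A : Finset (ZMod p)) :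
    ‖∑ a ∈ A, ∑ b ∈ A, χ (a - b)‖ ≤ Real.sqrt p * A.card := by
  classical
  set B : Finset (ZMod p) := A.image fun b => -b with hB
  have hBc : B.card = A.card := card_image_of_injective _ neg_injective
  have h1 := Pool.Agent.H435R3.Paley.second χ hχ B
  have h2 : ∀ a, ∑ b ∈ A, χ (a - b) = ∑ b ∈ B, χ (a + b) := by
    intro a
    rw [hB, sum_image (fun x _ y _ hxy => neg_injective hxy)]
    simp only [sub_eq_add_neg]
  have h3 : ‖∑ a ∈ A, ∑ b ∈ A, χ (a - b)‖ ^ 2 ≤ (A.card : ℝ) * (p * A.card) := by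
    calc ‖∑ a ∈ A, ∑ b ∈ A, χ (a - b)‖ ^ 2 ≤ (∑ a ∈ A, ‖∑ b ∈ A, χ (a - b)‖) ^ 2 :=
          pow_le_pow_left₀ (norm_nonneg _) (norm_sum_le _ _) 2
      _ ≤ (A.card : ℝ) * ∑ a ∈ A, ‖∑ b ∈ A, χ (a - b)‖ ^ 2 := sq_sum_le_card_mul_sum_sq
      _ ≤ (A.card : ℝ) * ∑ a : ZMod p, ‖∑ b ∈ B, χ (a + b)‖ ^ 2 := by
          refine mul_le_mul_of_nonneg_left ?_ (Nat.cast_nonneg _)
          simp_rw [h2]
          exact sum_le_sum_of_subset_of_nonneg (subset_univ _) fun a _ _ => by positivity
      _ ≤ (A.card : ℝ) * (p * B.card) := mul_le_mul_of_nonneg_left h1 (Nat.cast_nonneg _)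
      _ = _ := by rw [hBc]
  have h4 : (A.card : ℝ) * (p * A.card) = (Real.sqrt p * A.card) ^ 2 := by
    rw [mul_pow, Real.sq_sqrt (Nat.cast_nonneg _)]
    ring
  rw [h4] at h3
  exact le_of_sq_le_sq h3 (by positivity)

/-- the image of the index set -/
noncomputable def imG (G : ι → (ZMod p)[X]) (t : ZMod p) : Finset (ZMod p) :=
  univ.image fun i => (G i).eval t

/-- the number of coincidences -/
noncomputable def coin (G : ι → (ZMod p)[X]) (t : ZMod p) : ℕ :=
  ((univ : Finset (ι × ι)).filter fun e => e.1 ≠ e.2 ∧ (G e.1).eval t = (G e.2).eval t).card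

theorem coin_sum (G : ι → (ZMod p)[X]) (hinj : Function.Injective G) (D : ℕ)
    (hG : ∀ i, (G i).natDegree ≤ D) :
    ∑ t : ZMod p, coin G t ≤ D * Fintype.card ι ^ 2 := by
  classical
  unfold coin
  have h1 : ∀ t : ZMod p, ((univ : Finset (ι × ι)).filter fun e =>
      e.1 ≠ e.2 ∧ (G e.1).eval t = (G e.2).eval t).card =
      ∑ e : ι × ι, if e.1 ≠ e.2 ∧ (G e.1).eval t = (G e.2).eval t then 1 else 0 := by
    intro t
    rw [card_filter]
  rw [sum_congr rfl fun t _ => h1 t, sum_comm]
  have h2 : ∀ e : ι × ι, ∑ t : ZMod p,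
      (if e.1 ≠ e.2 ∧ (G e.1).eval t = (G e.2).eval t then 1 else 0) ≤ D := by
    intro e
    rw [← card_filter]
    by_cases he : e.1 = e.2
    · have : (univ.filter fun t : ZMod p => e.1 ≠ e.2 ∧ (G e.1).eval t = (G e.2).eval t) = ∅ := by
        rw [filter_eq_empty_iff]
        rintro t - ⟨h, -⟩
        exact h he
      rw [this, card_empty]
      exact Nat.zero_le _
    · have hne : G e.1 - G e.2 ≠ 0 := sub_ne_zero.2 fun h => he (hinj h)
      have h3 : (univ.filter fun t : ZMod p => e.1 ≠ e.2 ∧ (G e.1).eval t = (G e.2).eval t) ⊆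
          (G e.1 - G e.2).roots.toFinset := by
        intro t ht
        rw [Multiset.mem_toFinset, mem_roots hne, IsRoot, eval_sub, sub_eq_zero]
        exact (mem_filter.1 ht).2.2
      refine (card_le_card h3).trans ((Multiset.toFinset_card_le _).trans ((card_roots' _).trans ?_))
      exact (natDegree_sub_le _ _).trans (max_le (hG _) (hG _))
  refine (sum_le_sum fun e _ => h2 e).trans ?_
  rw [sum_const, smul_eq_mul, card_univ, Fintype.card_prod]
  exact le_of_eq (by ring)

theorem coin_lower (G : ι → (ZMod p)[X]) (t : ZMod p) :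
    (Fintype.card ι : ℝ) ^ 2 ≤ (imG G t).card * ((coin G t : ℝ) + Fintype.card ι) := by
  classical
  set r : ZMod p → ℕ := fun a => (univ.filter fun i => (G i).eval t = a).card with hr
  have h1 : ∑ a ∈ imG G t, r a = Fintype.card ι := by
    rw [← card_univ]
    exact (card_eq_sum_card_image (fun i => (G i).eval t) univ).symm
  have h2 : ∑ a ∈ imG G t, r a ^ 2 = coin G t + Fintype.card ι := by
    have h3 : ∑ a ∈ imG G t, r a ^ 2 =
        ((univ : Finset (ι × ι)).filter fun e => (G e.1).eval t = (G e.2).eval t).card := by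
      have h4 : ((univ : Finset (ι × ι)).filter fun e => (G e.1).eval t = (G e.2).eval t).card =
          ∑ a ∈ imG G t, (((univ : Finset (ι × ι)).filter fun e =>
            (G e.1).eval t = (G e.2).eval t).filter fun e => (G e.1).eval t = a).card := by
        refine card_eq_sum_card_fiberwise fun e _ => ?_
        exact mem_coe.2 (mem_image_of_mem _ (mem_univ e.1))
      rw [h4]
      refine sum_congr rfl fun a _ => ?_
      rw [hr]
      simp only
      rw [sq, ← card_product]
      congr 1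
      ext e
      simp only [mem_product, mem_filter, mem_univ, true_and]
      constructor
      · rintro ⟨h5, h6⟩
        exact ⟨by rw [h5, h6], h5⟩
      · rintro ⟨h5, h6⟩
        exact ⟨h6, by rw [← h5, h6]⟩
    rw [h3]
    unfold coin
    have h5 : ((univ : Finset (ι × ι)).filter fun e => (G e.1).eval t = (G e.2).eval t) =
        ((univ : Finset (ι × ι)).filter fun e => e.1 ≠ e.2 ∧ (G e.1).eval t = (G e.2).eval t) ∪
        (univ : Finset ι).image fun i => (i, i) := by
      ext e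
      simp only [mem_filter, mem_univ, true_and, mem_union, mem_image]
      constructor
      · intro h
        by_cases he : e.1 = e.2
        · exact Or.inr ⟨e.1, Prod.ext rfl he⟩
        · exact Or.inl ⟨he, h⟩
      · rintro (⟨-, h⟩ | ⟨i, h⟩)
        · exact h
        · rw [← h]
    rw [h5, card_union_of_disjoint, card_image_of_injective _ (fun i j h => (Prod.mk.inj h).1),
      card_univ]
    rw [disjoint_left]
    intro e he he'
    obtain ⟨i, -, h⟩ := mem_image.1 he'
    exact (mem_filter.1 he).2.1 (by rw [← h])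
  have h3 : (∑ a ∈ imG G t, (r a : ℝ)) ^ 2 ≤ (imG G t).card * ∑ a ∈ imG G t, (r a : ℝ) ^ 2 :=
    sq_sum_le_card_mul_sum_sq
  have h4 : ∑ a ∈ imG G t, (r a : ℝ) = Fintype.card ι := by exact_mod_cast h1
  have h5 : ∑ a ∈ imG G t, (r a : ℝ) ^ 2 = (coin G t : ℝ) + Fintype.card ι := by exact_mod_cast h2
  rw [h4, h5] at h3
  exact h3

/-- the parameters for which the map to the image is far from injective -/
theorem inv_sum (G : ι → (ZMod p)[X]) (hinj : Function.Injective G) (D : ℕ)
    (hG : ∀ i, (G i).natDegree ≤ D) (hN : 0 < Fintype.card ι) (S : Finset (ZMod p))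
    (hS : ∀ t ∈ S, 2 * (imG G t).card ≤ Fintype.card ι) :
    ∑ t ∈ S, (1 : ℝ) / (imG G t).card ≤ 2 * D := by
  classical
  set N : ℝ := (Fintype.card ι : ℝ) with hNd
  have hN0 : 0 < N := by rw [hNd]; exact_mod_cast hN
  have hpos : ∀ t, (0 : ℝ) < (imG G t).card := by
    intro t
    have : (imG G t).Nonempty := by
      have : Nonempty ι := Fintype.card_pos_iff.1 hN
      exact univ_nonempty.image _
    exact_mod_cast this.card_pos
  have h1 : ∀ t ∈ S, (1 : ℝ) / (imG G t).card ≤ 2 / N ^ 2 * coin G t := by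
    intro t ht
    have h2 := coin_lower G t
    rw [← hNd] at h2
    have h3 : 2 * ((imG G t).card : ℝ) ≤ N := by rw [hNd]; exact_mod_cast hS t ht
    have h4 := hpos t
    rw [div_le_iff₀ h4]
    have h5 : N ^ 2 ≤ 2 * ((imG G t).card * coin G t) := by nlinarith
    calc (1 : ℝ) = N ^ 2 / N ^ 2 := by field_simp
      _ ≤ (2 * ((imG G t).card * coin G t)) / N ^ 2 := by gcongr
      _ = _ := by ring
  calc ∑ t ∈ S, (1 : ℝ) / (imG G t).card ≤ ∑ t ∈ S, 2 / N ^ 2 * coin G t :=
        sum_le_sum h1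
    _ ≤ ∑ t : ZMod p, 2 / N ^ 2 * (coin G t : ℝ) :=
        sum_le_sum_of_subset_of_nonneg (subset_univ _) fun t _ _ => by positivity
    _ = 2 / N ^ 2 * ((∑ t : ZMod p, coin G t : ℕ) : ℝ) := by rw [← mul_sum]; push_cast; rfl
    _ ≤ 2 / N ^ 2 * ((D * Fintype.card ι ^ 2 : ℕ) : ℝ) := by
        refine mul_le_mul_of_nonneg_left ?_ (by positivity)
        exact_mod_cast coin_sum G hinj D hG
    _ = 2 * D := by
        push_cast
        rw [← hNd]
        field_simp

/-- the difference sum over some dense subset is large -/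
def BadSub (τ : ℝ) (χ : DirichletCharacter ℂ p) (M : Finset (ZMod p)) : Prop :=
  ∃ A ⊆ M, (M.card : ℝ) ≤ (p : ℝ) ^ τ * A.card ∧
    (A.card : ℝ) ^ (2 - τ) ≤ ‖∑ a ∈ A, ∑ b ∈ A, χ (a - b)‖

/-- the number of characters for which a set has a dense subset with a large difference sum -/
theorem few_char (τ : ℝ) (hτ : 0 < τ) (M : Finset (ZMod p)) (hM : M.Nonempty) :
    (Set.ncard {χ : DirichletCharacter ℂ p | BadSub τ χ M} : ℝ) ≤
      2 * (p : ℝ) ^ (1 + 8 * τ) / M.card := by
  classical
  have hpp : p.Prime := Fact.out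
  have hp0 : (0 : ℝ) < p := by exact_mod_cast hpp.pos
  have hp1 : (1 : ℝ) ≤ p := by exact_mod_cast hpp.one_lt.le
  have hM0 : (0 : ℝ) < M.card := by exact_mod_cast hM.card_pos
  -- the matrix
  set K : DirichletCharacter ℂ p → Matrix {a // a ∈ M} {a // a ∈ M} ℂ :=
    fun χ => Matrix.of fun a b => χ (a.1 - b.1) with hK
  -- the fourth moment
  have h4 : ∀ χ : DirichletCharacter ℂ p, ((K χ * (K χ)ᴴ) ^ 2).trace =
      ∑ a : {a // a ∈ M}, ∑ c : {a // a ∈ M}, ∑ b : {a // a ∈ M}, ∑ d : {a // a ∈ M},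
        χ ((a.1 - b.1) * (c.1 - d.1)) *
          (starRingEnd ℂ) (χ ((c.1 - b.1) * (a.1 - d.1))) := by
    intro χ
    rw [sq, Matrix.trace]
    refine sum_congr rfl fun a _ => ?_
    rw [Matrix.diag_apply, Matrix.mul_apply]
    refine sum_congr rfl fun c _ => ?_
    rw [Matrix.mul_apply, Matrix.mul_apply, sum_mul_sum]
    refine sum_congr rfl fun b _ => sum_congr rfl fun d _ => ?_
    rw [Matrix.conjTranspose_apply, Matrix.conjTranspose_apply, hK]
    simp only [Matrix.of_apply, RCLike.star_def, map_mul]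
    ring
  have h5 : ‖∑ χ : DirichletCharacter ℂ p, ((K χ * (K χ)ᴴ) ^ 2).trace‖ ≤
      2 * p * (M.card : ℝ) ^ 3 := by
    have e1 : ∑ χ : DirichletCharacter ℂ p, ((K χ * (K χ)ᴴ) ^ 2).trace =
        ∑ a : {a // a ∈ M}, ∑ c : {a // a ∈ M}, ∑ b : {a // a ∈ M}, ∑ d : {a // a ∈ M},
        ∑ χ : DirichletCharacter ℂ p, χ ((a.1 - b.1) * (c.1 - d.1)) *
          (starRingEnd ℂ) (χ ((c.1 - b.1) * (a.1 - d.1))) := by
      rw [sum_congr rfl fun χ _ => h4 χ, sum_comm]
      refine sum_congr rfl fun a _ => ?_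
      rw [sum_comm]
      refine sum_congr rfl fun c _ => ?_
      rw [sum_comm]
      refine sum_congr rfl fun b _ => ?_
      rw [sum_comm]
    have h6 : ∀ a b c d : ZMod p, ‖∑ χ : DirichletCharacter ℂ p, χ ((a - b) * (c - d)) *
          (starRingEnd ℂ) (χ ((c - b) * (a - d)))‖ ≤
        (if a = c then (p : ℝ) else 0) + (if b = d then (p : ℝ) else 0) := by
      intro a b c d
      refine (char_orth _ _).trans ?_
      by_cases h : (a - b) * (c - d) = (c - b) * (a - d)
      · rw [if_pos h]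
        have h7 : (a - c) * (b - d) = 0 := by linear_combination h
        rcases mul_eq_zero.1 h7 with h8 | h8
        · rw [if_pos (sub_eq_zero.1 h8)]
          have : (0 : ℝ) ≤ if b = d then (p : ℝ) else 0 := by split_ifs <;> positivity
          linarith
        · rw [if_pos (sub_eq_zero.1 h8)]
          have : (0 : ℝ) ≤ if a = c then (p : ℝ) else 0 := by split_ifs <;> positivity
          linarith
      · rw [if_neg h]
        have h1 : (0 : ℝ) ≤ if b = d then (p : ℝ) else 0 := by split_ifs <;> positivity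
        have h2 : (0 : ℝ) ≤ if a = c then (p : ℝ) else 0 := by split_ifs <;> positivity
        linarith
    rw [e1]
    have hc : (Fintype.card {a // a ∈ M} : ℝ) = M.card := by rw [Fintype.card_coe]
    calc _ ≤ ∑ a : {a // a ∈ M}, ∑ c : {a // a ∈ M}, ∑ b : {a // a ∈ M}, ∑ d : {a // a ∈ M},
          ((if a = c then (p : ℝ) else 0) + (if b = d then (p : ℝ) else 0)) := by
          refine (norm_sum_le _ _).trans (sum_le_sum fun a _ => ?_)
          refine (norm_sum_le _ _).trans (sum_le_sum fun c _ => ?_)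
          refine (norm_sum_le _ _).trans (sum_le_sum fun b _ => ?_)
          refine (norm_sum_le _ _).trans (sum_le_sum fun d _ => ?_)
          have := h6 a.1 b.1 c.1 d.1
          simp only [← Subtype.ext_iff] at this
          exact this
      _ = 2 * p * (M.card : ℝ) ^ 3 := by
          simp only [sum_add_distrib, sum_const, sum_ite_eq, mem_univ, if_true, card_univ,
            nsmul_eq_mul, hc]
          simp only [← mul_sum, sum_ite_eq, mem_univ, if_true, sum_const, card_univ,
            nsmul_eq_mul, hc]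
          ring
  -- a large sum gives a large trace
  have h7 : ∀ χ ∈ {χ : DirichletCharacter ℂ p | BadSub τ χ M},
      ((p : ℝ) ^ (-(2 * τ)) * M.card) ^ 4 ≤ (((K χ * (K χ)ᴴ) ^ 2).trace).re := by
    rintro χ ⟨A, hAM, hA1, hA2⟩
    have hA0 : (0 : ℝ) < A.card := by
      by_contra hcon
      have h0 : (A.card : ℝ) = 0 := le_antisymm (not_lt.1 hcon) (Nat.cast_nonneg _)
      rw [h0, mul_zero] at hA1
      linarith
    have hAp : (A.card : ℝ) ≤ p := by
      have h := card_le_univ A
      rw [ZMod.card] at h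
      exact_mod_cast h
    set f : {a // a ∈ M} → ℂ := fun a => if a.1 ∈ A then 1 else 0 with hf
    have hb := bilin_pow (K χ) 2 two_ne_zero f f
    have h1 : ∀ g : ZMod p → ℂ, ∑ a : {a // a ∈ M}, f a * g a.1 = ∑ a ∈ A, g a := by
      intro g
      rw [sum_coe_sort M (fun a => (if a ∈ A then (1 : ℂ) else 0) * g a)]
      have h2 : ∀ a, (if a ∈ A then (1 : ℂ) else 0) * g a = if a ∈ A then g a else 0 := by
        intro a
        split_ifs <;> simp
      rw [sum_congr rfl fun a _ => h2 a, ← sum_filter, filter_mem_eq_inter,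
        inter_eq_right.2 hAM]
    have hsum : ∑ i, ∑ j, f i * f j * K χ i j = ∑ a ∈ A, ∑ b ∈ A, χ (a - b) := by
      have h3 : ∀ i : {a // a ∈ M}, ∑ j : {a // a ∈ M}, f i * f j * K χ i j =
          f i * ∑ b ∈ A, χ (i.1 - b) := by
        intro i
        rw [← h1 (fun b => χ (i.1 - b)), mul_sum]
        refine sum_congr rfl fun j _ => ?_
        rw [hK]
        simp only [Matrix.of_apply]
        ring
      rw [sum_congr rfl fun i _ => h3 i, h1 (fun a => ∑ b ∈ A, χ (a - b))]
    have hnf : ∑ i, ‖f i‖ ^ 2 = A.card := by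
      have h2 : ∀ a : {a // a ∈ M}, ‖f a‖ ^ 2 = if a.1 ∈ A then (1 : ℝ) else 0 := by
        intro a
        rw [hf]
        simp only
        split_ifs <;> simp
      rw [sum_congr rfl fun i _ => h2 i, sum_coe_sort M (fun a => if a ∈ A then (1 : ℝ) else 0),
        sum_boole, filter_mem_eq_inter, inter_eq_right.2 hAM]
    rw [hsum, hnf] at hb
    set T := (((K χ * (K χ)ᴴ) ^ 2).trace).re with hT
    have h8 : ((A.card : ℝ) ^ (1 - τ)) ^ 4 * (A.card : ℝ) ^ 4 ≤ T * (A.card : ℝ) ^ 4 := by
      have h9 : (A.card : ℝ) ^ (2 - τ) = (A.card : ℝ) ^ (1 - τ) * A.card := by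
        have : (2 - τ) = (1 - τ) + 1 := by ring
        rw [this, Real.rpow_add hA0, Real.rpow_one]
      rw [← mul_pow, ← h9]
      refine (pow_le_pow_left₀ (by positivity) hA2 4).trans ?_
      have e : 2 * 2 = 4 := by norm_num
      rw [e] at hb
      refine hb.trans (le_of_eq ?_)
      ring
    have h9 : ((A.card : ℝ) ^ (1 - τ)) ^ 4 ≤ T := le_of_mul_le_mul_right h8 (by positivity)
    refine le_trans (pow_le_pow_left₀ (by positivity) ?_ 4) h9
    calc (p : ℝ) ^ (-(2 * τ)) * M.card ≤ (p : ℝ) ^ (-(2 * τ)) * ((p : ℝ) ^ τ * A.card) := by gcongr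
      _ = (p : ℝ) ^ (-τ) * A.card := by
          rw [← mul_assoc, ← Real.rpow_add hp0]
          congr 2
          ring
      _ ≤ (A.card : ℝ) ^ (-τ) * A.card := by
          refine mul_le_mul_of_nonneg_right ?_ hA0.le
          exact Real.rpow_le_rpow_of_nonpos hA0 hAp (by linarith)
      _ = (A.card : ℝ) ^ (1 - τ) := by
          rw [sub_eq_neg_add, Real.rpow_add hA0, Real.rpow_one]
  have h8 := count_le {χ : DirichletCharacter ℂ p | BadSub τ χ M}
    (fun χ => (((K χ * (K χ)ᴴ) ^ 2).trace).re) (fun χ => trace_nonneg _ 2)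
    (((p : ℝ) ^ (-(2 * τ)) * M.card) ^ 4) h7
  have h9 : ∑ χ : DirichletCharacter ℂ p, (((K χ * (K χ)ᴴ) ^ 2).trace).re ≤
      2 * p * (M.card : ℝ) ^ 3 := by
    rw [← Complex.re_sum]
    exact (Complex.re_le_norm _).trans h5
  have h10 := h8.trans h9
  have h11 : ((p : ℝ) ^ (-(2 * τ)) * M.card) ^ 4 = (p : ℝ) ^ (-(8 * τ)) * (M.card : ℝ) ^ 4 := by
    rw [mul_pow, ← Real.rpow_natCast ((p : ℝ) ^ (-(2 * τ))), ← Real.rpow_mul hp0.le]
    congr 2
    push_cast
    ring
  rw [h11] at h10
  rw [le_div_iff₀ hM0]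
  set x : ℝ := (Set.ncard {χ : DirichletCharacter ℂ p | BadSub τ χ M} : ℝ) with hx
  have h12 : x * (p : ℝ) ^ (-(8 * τ)) * M.card ≤ 2 * p := by
    refine le_of_mul_le_mul_right (?_ : _ ≤ 2 * p * (M.card : ℝ) ^ 3) (by positivity :
      (0 : ℝ) < (M.card : ℝ) ^ 3)
    calc x * (p : ℝ) ^ (-(8 * τ)) * M.card * (M.card : ℝ) ^ 3 =
        x * ((p : ℝ) ^ (-(8 * τ)) * (M.card : ℝ) ^ 4) := by ring
      _ ≤ _ := h10
  calc x * M.card = (x * (p : ℝ) ^ (-(8 * τ)) * M.card) * (p : ℝ) ^ (8 * τ) := by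
        have : (p : ℝ) ^ (-(8 * τ)) * (p : ℝ) ^ (8 * τ) = 1 := by
          rw [← Real.rpow_add hp0]
          norm_num
        calc x * M.card = x * M.card * ((p : ℝ) ^ (-(8 * τ)) * (p : ℝ) ^ (8 * τ)) := by
              rw [this, mul_one]
          _ = _ := by ring
    _ ≤ 2 * p * (p : ℝ) ^ (8 * τ) := mul_le_mul_of_nonneg_right h12 (by positivity)
    _ = 2 * (p : ℝ) ^ (1 + 8 * τ) := by
        rw [Real.rpow_add hp0, Real.rpow_one]
        ring

end

end Pool.Agent.K7.H77.PF
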