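import Pool.Agent.K7.H77.PF.Image

/-! # Families of polynomials: bilinear forms and all dense subsets of the images -/

set_option autoImplicit false
set_option linter.unusedSectionVars false

namespace Pool.Agent.K7.H77.PF

open Finset Matrix Polynomial

section

variable {p : ℕ} [Fact p.Prime]
variable {ι : Type*} [Fintype ι] [DecidableEq ι]

theorem large_mono {τ τ' : ℝ} (h : τ ≤ τ') {χ : DirichletCharacter ℂ p} {G : ι → (ZMod p)[X]}
    {t : ZMod p} (hl : Large τ χ G t) : Large τ' χ G t := by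
  have hpp : p.Prime := Fact.out
  have hp1 : (1 : ℝ) ≤ p := by exact_mod_cast hpp.one_lt.le
  obtain ⟨f, g, hfg⟩ := hl
  refine ⟨f, g, lt_of_le_of_lt ?_ hfg⟩
  gcongr

/-- a large bilinear form or a dense subset of the image with a large difference sum -/
def Exc (τ : ℝ) (χ : DirichletCharacter ℂ p) (G : ι → (ZMod p)[X]) (t : ZMod p) : Prop :=
  Large τ χ G t ∨ BadSub τ χ (imG G t)

end

theorem family2 (δ c ε : ℝ) (hδ : 0 < δ) (hc : 0 < c) (hε : 0 < ε) (D : ℕ) :
    ∃ τ : ℝ, 0 < τ ∧ ∃ p₀ : ℕ, ∀ (p : ℕ) [Fact p.Prime], p₀ ≤ p →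
      ∀ (ι : Type) [Fintype ι] [DecidableEq ι] (G : ι → (ZMod p)[X]), Function.Injective G →
        (∀ i, (G i).natDegree ≤ D) → (p : ℝ) ^ δ < (Fintype.card ι : ℝ) →
        (∀ i, (Set.ncard {j : ι | Bd G (i, j)} : ℝ) ≤ (Fintype.card ι : ℝ) ^ (1 - c)) →
        (∀ v i, (Set.ncard {j : ι | v ∈ Rts G (i, j)} : ℝ) ≤ (Fintype.card ι : ℝ) ^ (1 - c)) →
        (∀ χ : DirichletCharacter ℂ p, χ ≠ 1 →
          (Set.ncard {t : ZMod p | Exc τ χ G t} : ℝ) ≤ (p : ℝ) ^ (1 / 2 + ε)) ∧
        (Set.ncard {q : ZMod p × DirichletCharacter ℂ p | Exc τ q.2 G q.1} : ℝ) ≤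
          (p : ℝ) ^ (1 + ε) := by
  classical
  obtain ⟨τ₀, hτ₀, p₁, h⟩ := family δ c (ε / 2) hδ hc (by positivity) D
  set τ : ℝ := min (τ₀ / 6) (ε / 16) with hτ
  have hτ0 : 0 < τ := lt_min (by positivity) (by positivity)
  have hτ1 : τ ≤ τ₀ / 6 := min_le_left _ _
  have hτ2 : τ ≤ ε / 16 := min_le_right _ _
  obtain ⟨p₂, -, hp₂⟩ := exists_large 2 (τ₀ / 6) (by positivity)
  obtain ⟨p₃, -, hp₃⟩ := exists_large (1 + 4 * D) (ε / 2) (by positivity)
  refine ⟨τ, hτ0, max p₁ (max p₂ p₃), fun p _ hp ι _ _ G hinj hG hN h1 h2 => ?_⟩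
  have hpp : p.Prime := Fact.out
  have hp0 : (0 : ℝ) < p := by exact_mod_cast hpp.pos
  have hp1 : (1 : ℝ) < p := by exact_mod_cast hpp.one_lt
  have hp2' := hp₂ p (((le_max_left _ _).trans (le_max_right _ _)).trans hp)
  have hp3' := hp₃ p (((le_max_right _ _).trans (le_max_right _ _)).trans hp)
  obtain ⟨hs, hpair⟩ := h p ((le_max_left _ _).trans hp) ι G hG hN h1 h2
  have hNr : (0 : ℝ) < Fintype.card ι := lt_trans (by positivity) hN
  have hNn : 0 < Fintype.card ι := by exact_mod_cast hNr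
  have hne : Nonempty ι := Fintype.card_pos_iff.1 hNn
  have himne : ∀ t, (imG G t).Nonempty := fun t => univ_nonempty.image _
  -- images that are not small
  have hbig : ∀ (χ : DirichletCharacter ℂ p) (t : ZMod p),
      ¬ 2 * (imG G t).card ≤ Fintype.card ι → BadSub τ χ (imG G t) → Large τ₀ χ G t := by
    rintro χ t hc2 ⟨A, hA, hA1, hA2⟩
    have hA0 : A.Nonempty := by
      by_contra hcon
      rw [not_nonempty_iff_eq_empty] at hcon
      rw [hcon, card_empty, Nat.cast_zero, mul_zero] at hA1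
      have : (0 : ℝ) < (imG G t).card := by exact_mod_cast (himne t).card_pos
      linarith
    have hAc : (0 : ℝ) < A.card := by exact_mod_cast hA0.card_pos
    have hA1' : (1 : ℝ) ≤ A.card := by exact_mod_cast hA0.card_pos
    refine large_of_set τ₀ hτ₀ χ G t A hA0 (fun a ha => ?_) ?_ ?_
    · obtain ⟨i, -, hi⟩ := mem_image.1 (hA ha)
      exact ⟨i, hi⟩
    · have h3 : (Fintype.card ι : ℝ) ≤ 2 * (imG G t).card := by
        have : Fintype.card ι ≤ 2 * (imG G t).card := by omega
        exact_mod_cast this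
      calc (Fintype.card ι : ℝ) ≤ 2 * (imG G t).card := h3
        _ ≤ (p : ℝ) ^ (τ₀ / 6) * ((p : ℝ) ^ τ * A.card) := by gcongr
        _ ≤ (p : ℝ) ^ (τ₀ / 6) * ((p : ℝ) ^ (τ₀ / 6) * A.card) := by
            gcongr
            exact hp1.le
        _ = (p : ℝ) ^ (τ₀ / 3) * A.card := by
            rw [← mul_assoc, ← Real.rpow_add hp0]
            congr 2
            ring
    · refine le_trans (Real.rpow_le_rpow_of_exponent_le hA1' ?_) hA2
      linarith
  set S : Finset (ZMod p) := univ.filter fun t => 2 * (imG G t).card ≤ Fintype.card ι with hS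
  have hSsum := inv_sum G hinj D hG hNn S (fun t ht => (mem_filter.1 ht).2)
  constructor
  · intro χ hχ
    set S' : Finset (ZMod p) := S.filter fun t => ((imG G t).card : ℝ) ≤ (p : ℝ) ^ (1 / 2 + ε / 4)
      with hS'
    have hS'c : (S'.card : ℝ) ≤ 2 * D * (p : ℝ) ^ (1 / 2 + ε / 4) := by
      have h3 : ∀ t ∈ S', (1 : ℝ) / (p : ℝ) ^ (1 / 2 + ε / 4) ≤ 1 / (imG G t).card := by
        intro t ht
        have h4 : (0 : ℝ) < (imG G t).card := by exact_mod_cast (himne t).card_pos
        exact one_div_le_one_div_of_le h4 (mem_filter.1 ht).2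
      have h5 : (S'.card : ℝ) * (1 / (p : ℝ) ^ (1 / 2 + ε / 4)) ≤ 2 * D := by
        calc (S'.card : ℝ) * (1 / (p : ℝ) ^ (1 / 2 + ε / 4)) =
            ∑ _t ∈ S', (1 : ℝ) / (p : ℝ) ^ (1 / 2 + ε / 4) := by rw [sum_const, nsmul_eq_mul]
          _ ≤ ∑ t ∈ S', (1 : ℝ) / (imG G t).card := sum_le_sum h3
          _ ≤ ∑ t ∈ S, (1 : ℝ) / (imG G t).card :=
              sum_le_sum_of_subset_of_nonneg (filter_subset _ _) fun t _ _ => by positivity
          _ ≤ 2 * D := hSsum
      rw [mul_one_div, div_le_iff₀ (by positivity)] at h5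
      exact h5
    have hsub : {t : ZMod p | Exc τ χ G t} ⊆ {t : ZMod p | Large τ₀ χ G t} ∪ (S' : Set (ZMod p)) := by
      intro t ht
      rw [Set.mem_ofPred_eq] at ht
      rcases ht with ht | ht
      · left
        exact large_mono (by linarith) ht
      · by_cases hc2 : 2 * (imG G t).card ≤ Fintype.card ι
        · right
          rw [mem_coe, hS', mem_filter, hS, mem_filter]
          refine ⟨⟨mem_univ _, hc2⟩, ?_⟩
          by_contra hcon
          push Not at hcon
          obtain ⟨A, hA, hA1, hA2⟩ := ht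
          have hA0 : (0 : ℝ) < A.card := by
            by_contra hcon2
            have h0 : (A.card : ℝ) = 0 := le_antisymm (not_lt.1 hcon2) (Nat.cast_nonneg _)
            rw [h0, mul_zero] at hA1
            have : (0 : ℝ) < (imG G t).card := by exact_mod_cast (himne t).card_pos
            linarith
          have hAp : (A.card : ℝ) ≤ p := by
            have h := card_le_univ A
            rw [ZMod.card] at h
            exact_mod_cast h
          have h3 := hA2.trans (classical_bound χ hχ A)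
          have h4 : (A.card : ℝ) ^ (1 - τ) ≤ Real.sqrt p := by
            refine le_of_mul_le_mul_right ?_ hA0
            refine le_trans (le_of_eq ?_) h3
            have : (2 - τ) = (1 - τ) + 1 := by ring
            rw [this, Real.rpow_add hA0, Real.rpow_one]
          have h5 : (p : ℝ) ^ (-τ) * A.card ≤ (A.card : ℝ) ^ (1 - τ) := by
            calc (p : ℝ) ^ (-τ) * A.card ≤ (A.card : ℝ) ^ (-τ) * A.card := by
                  refine mul_le_mul_of_nonneg_right ?_ hA0.le
                  exact Real.rpow_le_rpow_of_nonpos hA0 hAp (by linarith)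
              _ = (A.card : ℝ) ^ (1 - τ) := by
                  rw [sub_eq_neg_add, Real.rpow_add hA0, Real.rpow_one]
          have h6 : (p : ℝ) ^ (1 / 2 + ε / 4) < (p : ℝ) ^ (2 * τ) * Real.sqrt p := by
            calc (p : ℝ) ^ (1 / 2 + ε / 4) < (imG G t).card := hcon
              _ ≤ (p : ℝ) ^ τ * A.card := hA1
              _ = (p : ℝ) ^ (2 * τ) * ((p : ℝ) ^ (-τ) * A.card) := by
                  rw [← mul_assoc, ← Real.rpow_add hp0]
                  congr 2
                  ring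
              _ ≤ (p : ℝ) ^ (2 * τ) * Real.sqrt p := by
                  refine mul_le_mul_of_nonneg_left (h5.trans h4) (by positivity)
          rw [Real.sqrt_eq_rpow, ← Real.rpow_add hp0] at h6
          have h7 := (Real.rpow_lt_rpow_left_iff hp1).1 h6
          linarith
        · left
          exact hbig χ t hc2 ht
    have h3 : (Set.ncard {t : ZMod p | Exc τ χ G t} : ℝ) ≤
        (p : ℝ) ^ (1 / 2 + ε / 2) + 2 * D * (p : ℝ) ^ (1 / 2 + ε / 4) := by
      have h4 := (Set.ncard_le_ncard hsub (Set.toFinite _)).trans (Set.ncard_union_le _ _)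
      rw [Set.ncard_coe_finset] at h4
      calc (Set.ncard {t : ZMod p | Exc τ χ G t} : ℝ) ≤
          (Set.ncard {t : ZMod p | Large τ₀ χ G t} : ℝ) + S'.card := by exact_mod_cast h4
        _ ≤ _ := add_le_add (hs χ hχ) hS'c
    refine h3.trans ?_
    have h4 : (p : ℝ) ^ (1 / 2 + ε / 4) ≤ (p : ℝ) ^ (1 / 2 + ε / 2) :=
      Real.rpow_le_rpow_of_exponent_le hp1.le (by linarith)
    calc (p : ℝ) ^ (1 / 2 + ε / 2) + 2 * D * (p : ℝ) ^ (1 / 2 + ε / 4) ≤
        (p : ℝ) ^ (1 / 2 + ε / 2) + 2 * D * (p : ℝ) ^ (1 / 2 + ε / 2) := by gcongr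
      _ ≤ (1 + 4 * D) * (p : ℝ) ^ (1 / 2 + ε / 2) := by
          have : (0 : ℝ) ≤ D * (p : ℝ) ^ (1 / 2 + ε / 2) := by positivity
          nlinarith
      _ ≤ (p : ℝ) ^ (ε / 2) * (p : ℝ) ^ (1 / 2 + ε / 2) := by gcongr
      _ = (p : ℝ) ^ (1 / 2 + ε) := by
          rw [← Real.rpow_add hp0]
          congr 1
          ring
  · have hsub : {q : ZMod p × DirichletCharacter ℂ p | Exc τ q.2 G q.1} ⊆
        {q : ZMod p × DirichletCharacter ℂ p | Large τ₀ q.2 G q.1} ∪
        ((S.biUnion fun t => (univ.filter fun χ : DirichletCharacter ℂ p =>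
          BadSub τ χ (imG G t)).image fun χ => (t, χ) :
            Finset (ZMod p × DirichletCharacter ℂ p)) : Set (ZMod p × DirichletCharacter ℂ p)) := by
      rintro ⟨t, χ⟩ ht
      rw [Set.mem_ofPred_eq] at ht
      simp only at ht
      rcases ht with ht | ht
      · left
        exact large_mono (by linarith) ht
      · by_cases hc2 : 2 * (imG G t).card ≤ Fintype.card ι
        · right
          rw [mem_coe, mem_biUnion]
          refine ⟨t, mem_filter.2 ⟨mem_univ _, hc2⟩, mem_image.2 ⟨χ, mem_filter.2 ⟨mem_univ _, ht⟩, rfl⟩⟩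
        · left
          exact hbig χ t hc2 ht
    have h3 : ((S.biUnion fun t => (univ.filter fun χ : DirichletCharacter ℂ p =>
          BadSub τ χ (imG G t)).image fun χ => (t, χ) :
            Finset (ZMod p × DirichletCharacter ℂ p)).card : ℝ) ≤ 4 * D * (p : ℝ) ^ (1 + 8 * τ) := by
      have h4 : (S.biUnion fun t => (univ.filter fun χ : DirichletCharacter ℂ p =>
          BadSub τ χ (imG G t)).image fun χ => (t, χ) :
            Finset (ZMod p × DirichletCharacter ℂ p)).card ≤
          ∑ t ∈ S, (univ.filter fun χ : DirichletCharacter ℂ p => BadSub τ χ (imG G t)).card :=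
        card_biUnion_le.trans (sum_le_sum fun t _ => card_image_le)
      calc _ ≤ ((∑ t ∈ S, (univ.filter fun χ : DirichletCharacter ℂ p =>
            BadSub τ χ (imG G t)).card : ℕ) : ℝ) := by exact_mod_cast h4
        _ = ∑ t ∈ S, ((univ.filter fun χ : DirichletCharacter ℂ p =>
            BadSub τ χ (imG G t)).card : ℝ) := by push_cast; rfl
        _ ≤ ∑ t ∈ S, 2 * (p : ℝ) ^ (1 + 8 * τ) * (1 / (imG G t).card) := by
            refine sum_le_sum fun t _ => ?_
            have h5 := few_char τ hτ0 (imG G t) (himne t)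
            rw [Set.ncard_eq_toFinset_card', Set.toFinset_ofPred] at h5
            rw [mul_one_div]
            exact h5
        _ = 2 * (p : ℝ) ^ (1 + 8 * τ) * ∑ t ∈ S, 1 / ((imG G t).card : ℝ) := by rw [mul_sum]
        _ ≤ 2 * (p : ℝ) ^ (1 + 8 * τ) * (2 * D) := by gcongr
        _ = _ := by ring
    have h4 : (Set.ncard {q : ZMod p × DirichletCharacter ℂ p | Exc τ q.2 G q.1} : ℝ) ≤
        (p : ℝ) ^ (1 + ε / 2) + 4 * D * (p : ℝ) ^ (1 + 8 * τ) := by
      have h5 := (Set.ncard_le_ncard hsub (Set.toFinite _)).trans (Set.ncard_union_le _ _)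
      rw [Set.ncard_coe_finset] at h5
      refine le_trans (by exact_mod_cast h5) (add_le_add hpair h3)
    refine h4.trans ?_
    have h5 : (p : ℝ) ^ (1 + 8 * τ) ≤ (p : ℝ) ^ (1 + ε / 2) :=
      Real.rpow_le_rpow_of_exponent_le hp1.le (by linarith)
    calc (p : ℝ) ^ (1 + ε / 2) + 4 * D * (p : ℝ) ^ (1 + 8 * τ) ≤
        (p : ℝ) ^ (1 + ε / 2) + 4 * D * (p : ℝ) ^ (1 + ε / 2) := by gcongr
      _ = (1 + 4 * D) * (p : ℝ) ^ (1 + ε / 2) := by ring
      _ ≤ (p : ℝ) ^ (ε / 2) * (p : ℝ) ^ (1 + ε / 2) := by gcongr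
      _ = (p : ℝ) ^ (1 + ε) := by
          rw [← Real.rpow_add hp0]
          congr 1
          ring

end Pool.Agent.K7.H77.PF
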