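import Mathlib

/-! # A bilinear form is bounded by the trace of a power -/

set_option autoImplicit false

namespace Pool.Agent.K7.H77.PF

open Finset Matrix
open scoped ComplexOrder

variable {ι : Type*} [Fintype ι] [DecidableEq ι]

theorem quad_pow (M : Matrix ι ι ℂ) (hM : M.PosSemidef) (n : ℕ) (hn : n ≠ 0) (x : ι → ℂ) :
    (star x ⬝ᵥ (M *ᵥ x)).re ^ n ≤ (∑ i, ‖x i‖ ^ 2) ^ n * ((M ^ n).trace).re := by
  classical
  set lam := hM.1.eigenvalues with hlam
  have hlam0 : ∀ i, 0 ≤ lam i := fun i => hM.eigenvalues_nonneg i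
  set U : Matrix ι ι ℂ := (hM.1.eigenvectorUnitary : Matrix ι ι ℂ) with hU
  have hUU : star U * U = 1 := Unitary.coe_star_mul_self hM.1.eigenvectorUnitary
  have hUU' : U * star U = 1 := Unitary.coe_mul_star_self hM.1.eigenvectorUnitary
  set D : Matrix ι ι ℂ := diagonal (fun i => (lam i : ℂ)) with hD
  have hsp : M = U * D * star U := by
    have := hM.1.spectral_theorem
    rw [Unitary.conjStarAlgAut_apply] at this
    exact this
  have hpow : ∀ k : ℕ, M ^ k = U * D ^ k * star U := by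
    intro k
    induction k with
    | zero => simp [hUU']
    | succ k ih =>
      rw [pow_succ, ih]
      conv_lhs => rw [hsp]
      calc U * D ^ k * star U * (U * D * star U) = U * D ^ k * (star U * U) * D * star U := by
            simp only [Matrix.mul_assoc]
        _ = _ := by rw [hUU, Matrix.mul_one, pow_succ, Matrix.mul_assoc U]
  have htr : (M ^ n).trace = ((∑ i, lam i ^ n : ℝ) : ℂ) := by
    rw [hpow, Matrix.trace_mul_comm, ← Matrix.mul_assoc, hUU, Matrix.one_mul, hD,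
      Matrix.diagonal_pow, Matrix.trace_diagonal]
    push_cast
    rfl
  set y : ι → ℂ := star U *ᵥ x with hy
  have hq : star x ⬝ᵥ (M *ᵥ x) = ((∑ i, lam i * ‖y i‖ ^ 2 : ℝ) : ℂ) := by
    have h1 : M *ᵥ x = U *ᵥ (D *ᵥ y) := by
      rw [hy, Matrix.mulVec_mulVec, Matrix.mulVec_mulVec]
      exact congrArg (fun Z => Z *ᵥ x) hsp
    have h2 : star x ᵥ* U = star y := by
      rw [hy, Matrix.star_mulVec, Matrix.star_eq_conjTranspose, Matrix.conjTranspose_conjTranspose]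
    rw [h1, Matrix.dotProduct_mulVec, h2, hD]
    simp only [dotProduct, Matrix.mulVec_diagonal, Pi.star_apply]
    push_cast
    refine sum_congr rfl fun i _ => ?_
    rw [← Complex.conj_mul', RCLike.star_def]
    ring
  have hn2 : ∑ i, ‖y i‖ ^ 2 = ∑ i, ‖x i‖ ^ 2 := by
    have h1 : ∀ z : ι → ℂ, ((∑ i, ‖z i‖ ^ 2 : ℝ) : ℂ) = star z ⬝ᵥ z := by
      intro z
      simp only [dotProduct, Pi.star_apply]
      push_cast
      refine sum_congr rfl fun i _ => ?_
      rw [← Complex.conj_mul', RCLike.star_def]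
    have h2 : star y ⬝ᵥ y = star x ⬝ᵥ x := by
      conv_lhs => rw [hy]
      rw [Matrix.star_mulVec, Matrix.dotProduct_mulVec, Matrix.vecMul_vecMul,
        Matrix.star_eq_conjTranspose, Matrix.conjTranspose_conjTranspose,
        ← Matrix.star_eq_conjTranspose, hUU', Matrix.vecMul_one]
    have h3 := (h1 y).trans (h2.trans (h1 x).symm)
    exact_mod_cast h3
  rw [hq, htr, Complex.ofReal_re, Complex.ofReal_re, ← hn2]
  set T : ℝ := ∑ i, lam i ^ n with hT
  have hT0 : 0 ≤ T := sum_nonneg fun i _ => pow_nonneg (hlam0 i) n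
  set r : ℝ := T ^ ((n : ℝ)⁻¹) with hr
  have hr0 : 0 ≤ r := Real.rpow_nonneg hT0 _
  have hrn : r ^ n = T := Real.rpow_inv_natCast_pow hT0 hn
  have hle : ∀ i, lam i ≤ r := by
    intro i
    have h1 : lam i ^ n ≤ r ^ n := by
      rw [hrn]
      exact single_le_sum (f := fun i => lam i ^ n) (fun j _ => pow_nonneg (hlam0 j) n) (mem_univ i)
    exact le_of_pow_le_pow_left₀ hn hr0 h1
  have h1 : ∑ i, lam i * ‖y i‖ ^ 2 ≤ r * ∑ i, ‖y i‖ ^ 2 := by
    rw [mul_sum]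
    exact sum_le_sum fun i _ => mul_le_mul_of_nonneg_right (hle i) (by positivity)
  have h0 : 0 ≤ ∑ i, lam i * ‖y i‖ ^ 2 := sum_nonneg fun i _ => mul_nonneg (hlam0 i) (by positivity)
  calc (∑ i, lam i * ‖y i‖ ^ 2) ^ n ≤ (r * ∑ i, ‖y i‖ ^ 2) ^ n := pow_le_pow_left₀ h0 h1 n
    _ = _ := by rw [mul_pow, hrn, mul_comm]

/-- the bilinear form with kernel `K` -/
theorem bilin_pow (K : Matrix ι ι ℂ) (n : ℕ) (hn : n ≠ 0) (f g : ι → ℂ) :
    ‖∑ i, ∑ j, f i * g j * K i j‖ ^ (2 * n) ≤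
      (∑ i, ‖f i‖ ^ 2) ^ n * (∑ i, ‖g i‖ ^ 2) ^ n * (((K * Kᴴ) ^ n).trace).re := by
  classical
  have hM : (K * Kᴴ).PosSemidef := posSemidef_self_mul_conjTranspose K
  set w : ι → ℂ := fun j => ∑ i, f i * K i j with hw
  have h1 : ∑ i, ∑ j, f i * g j * K i j = ∑ j, g j * w j := by
    rw [sum_comm]
    refine sum_congr rfl fun j _ => ?_
    rw [hw, mul_sum]
    exact sum_congr rfl fun i _ => by ring
  have h2 : ‖∑ j, g j * w j‖ ^ 2 ≤ (∑ j, ‖g j‖ ^ 2) * ∑ j, ‖w j‖ ^ 2 := by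
    have h3 : ‖∑ j, g j * w j‖ ≤ ∑ j, ‖g j‖ * ‖w j‖ :=
      (norm_sum_le _ _).trans (le_of_eq (sum_congr rfl fun j _ => norm_mul _ _))
    exact (pow_le_pow_left₀ (norm_nonneg _) h3 2).trans (sum_mul_sq_le_sq_mul_sq _ _ _)
  set x : ι → ℂ := star f with hx
  have h4 : star x ⬝ᵥ ((K * Kᴴ) *ᵥ x) = ((∑ j, ‖w j‖ ^ 2 : ℝ) : ℂ) := by
    have e1 : Kᴴ *ᵥ x = star w := by
      ext j
      simp only [Matrix.mulVec, dotProduct, Matrix.conjTranspose_apply, hx, hw, Pi.star_apply,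
        star_sum, star_mul]
    have e2 : star x ᵥ* K = w := by
      ext j
      simp only [Matrix.vecMul, dotProduct, hx, hw, star_star]
    rw [← Matrix.mulVec_mulVec, Matrix.dotProduct_mulVec, e1, e2]
    simp only [dotProduct, Pi.star_apply]
    push_cast
    refine sum_congr rfl fun i _ => ?_
    rw [← Complex.mul_conj', RCLike.star_def]
  have h5 := quad_pow (K * Kᴴ) hM n hn x
  rw [h4, Complex.ofReal_re] at h5
  have h6 : ∑ i, ‖x i‖ ^ 2 = ∑ i, ‖f i‖ ^ 2 := by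
    refine sum_congr rfl fun i _ => ?_
    rw [hx, Pi.star_apply, norm_star]
  rw [h6] at h5
  rw [h1, pow_mul]
  calc (‖∑ j, g j * w j‖ ^ 2) ^ n ≤ ((∑ j, ‖g j‖ ^ 2) * ∑ j, ‖w j‖ ^ 2) ^ n :=
        pow_le_pow_left₀ (by positivity) h2 n
    _ = (∑ j, ‖g j‖ ^ 2) ^ n * (∑ j, ‖w j‖ ^ 2) ^ n := mul_pow _ _ _
    _ ≤ (∑ j, ‖g j‖ ^ 2) ^ n * ((∑ i, ‖f i‖ ^ 2) ^ n * (((K * Kᴴ) ^ n).trace).re) :=
        mul_le_mul_of_nonneg_left h5 (by positivity)
    _ = _ := by ring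

end Pool.Agent.K7.H77.PF
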