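import Pool.Agent.K7.H77.PF.AbsFam

/-! # The roots of the differences of monomials -/

set_option autoImplicit false
set_option linter.unusedSectionVars false

namespace Pool.Agent.K7.H77.PF

open Finset Matrix Polynomial

section

variable {p : ℕ} [Fact p.Prime]
variable {ι : Type*} [Fintype ι] [DecidableEq ι]

/-- the monomials `a_i X^(e_i)` -/
noncomputable def mono (a : ι → ZMod p) (e : ι → ℕ) (i : ι) : (ZMod p)[X] := C (a i) * X ^ e i

/-- the distance of the exponents -/
def dd (e : ι → ℕ) (x : ι × ι) : ℕ := Nat.dist (e x.1) (e x.2)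

/-- the quotient of the coefficients -/
def cq (a : ι → ZMod p) (e : ι → ℕ) (x : ι × ι) : ZMod p :=
  if e x.2 ≤ e x.1 then a x.2 / a x.1 else a x.1 / a x.2

/-- `w ^ d = c` for the edge `x` -/
def IsR (a : ι → ZMod p) (e : ι → ℕ) (x : ι × ι) (w : AlgebraicClosure (ZMod p)) : Prop :=
  w ^ dd e x = algebraMap (ZMod p) (AlgebraicClosure (ZMod p)) (cq a e x)

theorem dp_mono (a : ι → ZMod p) (e : ι → ℕ) (x : ι × ι) :
    dp (mono a e) x = C (algebraMap (ZMod p) (AlgebraicClosure (ZMod p)) (a x.1)) * X ^ e x.1 -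
      C (algebraMap (ZMod p) (AlgebraicClosure (ZMod p)) (a x.2)) * X ^ e x.2 := by
  unfold dp mono
  simp

theorem dp_eval (a : ι → ZMod p) (e : ι → ℕ) (x : ι × ι) (w : AlgebraicClosure (ZMod p)) :
    (dp (mono a e) x).eval w =
      algebraMap (ZMod p) (AlgebraicClosure (ZMod p)) (a x.1) * w ^ e x.1 -
      algebraMap (ZMod p) (AlgebraicClosure (ZMod p)) (a x.2) * w ^ e x.2 := by
  rw [dp_mono]
  simp

theorem eval_iff (a : ι → ZMod p) (e : ι → ℕ) (ha : ∀ i, a i ≠ 0) (x : ι × ι)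
    (w : AlgebraicClosure (ZMod p)) (hw : w ≠ 0) :
    (dp (mono a e) x).eval w = 0 ↔ IsR a e x w := by
  rw [dp_eval]
  unfold IsR dd cq
  set φ := algebraMap (ZMod p) (AlgebraicClosure (ZMod p)) with hφ
  have h1 : φ (a x.1) ≠ 0 := (map_ne_zero φ).2 (ha _)
  have h2 : φ (a x.2) ≠ 0 := (map_ne_zero φ).2 (ha _)
  by_cases h : e x.2 ≤ e x.1
  · rw [if_pos h, Nat.dist_eq_sub_of_le_right h, map_div₀, eq_div_iff h1]
    have e1 : w ^ e x.1 = w ^ e x.2 * w ^ (e x.1 - e x.2) := by
      rw [← pow_add]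
      congr 1
      omega
    rw [e1]
    have h3 : w ^ e x.2 ≠ 0 := pow_ne_zero _ hw
    constructor
    · intro h4
      have h5 : w ^ e x.2 * (w ^ (e x.1 - e x.2) * φ (a x.1) - φ (a x.2)) = 0 := by
        rw [← h4]; ring
      exact sub_eq_zero.1 ((mul_eq_zero.1 h5).resolve_left h3)
    · intro h4
      rw [← h4]; ring
  · push Not at h
    rw [if_neg (not_le.2 h), Nat.dist_eq_sub_of_le h.le, map_div₀, eq_div_iff h2]
    have e1 : w ^ e x.2 = w ^ e x.1 * w ^ (e x.2 - e x.1) := by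
      rw [← pow_add]
      congr 1
      omega
    rw [e1]
    have h3 : w ^ e x.1 ≠ 0 := pow_ne_zero _ hw
    constructor
    · intro h4
      have h5 : w ^ e x.1 * (w ^ (e x.2 - e x.1) * φ (a x.2) - φ (a x.1)) = 0 := by
        rw [← neg_eq_zero, ← h4]; ring
      exact sub_eq_zero.1 ((mul_eq_zero.1 h5).resolve_left h3)
    · intro h4
      rw [← h4]; ring

theorem mult_one (a : ι → ZMod p) (e : ι → ℕ) (ha : ∀ i, a i ≠ 0) (he : ∀ i, e i < p) (x : ι × ι)
    (w : AlgebraicClosure (ZMod p)) (hw : w ≠ 0) (hd : dd e x ≠ 0) (hr : IsR a e x w) :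
    rootMultiplicity w (dp (mono a e) x) = 1 := by
  have hev := (eval_iff a e ha x w hw).2 hr
  set φ := algebraMap (ZMod p) (AlgebraicClosure (ZMod p)) with hφ
  have h1 : φ (a x.1) ≠ 0 := (map_ne_zero φ).2 (ha _)
  have hne : e x.1 ≠ e x.2 := by
    intro h
    apply hd
    unfold dd
    rw [h, Nat.dist_self]
  have hcast : ((e x.1 : ℕ) : AlgebraicClosure (ZMod p)) ≠ ((e x.2 : ℕ) : AlgebraicClosure (ZMod p)) := by
    intro h
    have : CharP (AlgebraicClosure (ZMod p)) p :=
      (algebraMap (ZMod p) (AlgebraicClosure (ZMod p))).charP_iff_charP p |>.1 inferInstance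
    have h2 := (CharP.natCast_eq_natCast (AlgebraicClosure (ZMod p)) p).1 h
    have h3 := Nat.mod_eq_of_lt (he x.1)
    have h4 := Nat.mod_eq_of_lt (he x.2)
    unfold Nat.ModEq at h2
    omega
  have hder : w * (derivative (dp (mono a e) x)).eval w ≠ 0 := by
    have e1 : w * (derivative (dp (mono a e) x)).eval w =
        φ (a x.1) * (e x.1 * w ^ e x.1) - φ (a x.2) * (e x.2 * w ^ e x.2) := by
      rw [dp_mono]
      simp only [derivative_sub, derivative_C_mul_X_pow, eval_sub, eval_mul, eval_C, eval_pow, eval_X]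
      have e2 : ∀ m : ℕ, (m : AlgebraicClosure (ZMod p)) * w ^ m = m * w ^ (m - 1) * w := by
        intro m
        rcases Nat.eq_zero_or_pos m with h | h
        · rw [h]; simp
        · have : w ^ m = w ^ (m - 1) * w := by
            rw [← pow_succ]
            congr 1
            omega
          rw [this, mul_assoc]
      rw [e2, e2]
      ring
    have e3 : φ (a x.2) * w ^ e x.2 = φ (a x.1) * w ^ e x.1 := by
      rw [dp_eval] at hev
      exact (sub_eq_zero.1 hev).symm
    have e4 : φ (a x.1) * (e x.1 * w ^ e x.1) - φ (a x.2) * (e x.2 * w ^ e x.2) =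
        (e x.1 - e x.2) * (φ (a x.1) * w ^ e x.1) := by
      have : φ (a x.2) * (e x.2 * w ^ e x.2) = e x.2 * (φ (a x.2) * w ^ e x.2) := by ring
      rw [this, e3]
      ring
    rw [e1, e4]
    exact mul_ne_zero (sub_ne_zero.2 hcast) (mul_ne_zero h1 (pow_ne_zero _ hw))
  have hP : dp (mono a e) x ≠ 0 := by
    intro h
    rw [h] at hder
    simp at hder
  have h2 : 0 < rootMultiplicity w (dp (mono a e) x) := (rootMultiplicity_pos hP).2 hev
  have h3 : ¬ 1 < rootMultiplicity w (dp (mono a e) x) := by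
    rw [one_lt_rootMultiplicity_iff_isRoot hP]
    rintro ⟨-, h4⟩
    apply hder
    rw [IsRoot] at h4
    rw [h4, mul_zero]
  omega

theorem mult_ne (a : ι → ZMod p) (e : ι → ℕ) (ha : ∀ i, a i ≠ 0) (x : ι × ι)
    (w : AlgebraicClosure (ZMod p)) (hw : w ≠ 0)
    (h : rootMultiplicity w (dp (mono a e) x) ≠ 0) : dd e x ≠ 0 ∧ IsR a e x w := by
  have hP : dp (mono a e) x ≠ 0 := by
    intro h0
    rw [h0, rootMultiplicity_zero] at h
    exact h rfl
  have hev : (dp (mono a e) x).eval w = 0 := (rootMultiplicity_pos hP).1 (Nat.pos_of_ne_zero h)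
  have hR := (eval_iff a e ha x w hw).1 hev
  refine ⟨fun hd => hP ?_, hR⟩
  have hee : e x.1 = e x.2 := Nat.eq_of_dist_eq_zero hd
  unfold IsR cq at hR
  rw [hd, pow_zero, if_pos hee.ge] at hR
  have h1 : a x.2 / a x.1 = 1 := by
    apply (algebraMap (ZMod p) (AlgebraicClosure (ZMod p))).injective
    rw [← hR, map_one]
  have h2 : a x.2 = a x.1 := by
    rwa [div_eq_one_iff_eq (ha _)] at h1
  rw [dp_mono, hee, h2, sub_self]

/-- a walk that is not good -/
theorem cover (a : ι → ZMod p) (e : ι → ℕ) (ha : ∀ i, a i ≠ 0) (he : ∀ i, e i < p) {m : ℕ}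
    (V : Fin (m + 1) → ι) (hV : ¬ Good (mono a e) V) (k : Fin m) (hk : dd e (edge V k) ≠ 0)
    (w : AlgebraicClosure (ZMod p)) (hw : w ≠ 0) (hr : IsR a e (edge V k) w) :
    ∃ l : Fin m, l ≠ k ∧ dd e (edge V l) ≠ 0 ∧ IsR a e (edge V l) w := by
  by_contra hcon
  push Not at hcon
  apply hV
  refine ⟨k, w, mult_one a e ha he _ w hw hk hr, fun l hl => ?_⟩
  by_contra h
  obtain ⟨h1, h2⟩ := mult_ne a e ha _ w hw h
  exact hcon l hl h1 h2

end

section

variable {K : Type*} [Field K] [IsAlgClosed K] [DecidableEq K]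

theorem card_pow (d : ℕ) (hd : (d : K) ≠ 0) (c : K) (hc : c ≠ 0) :
    (nthRoots d c).toFinset.card = d := by
  have hsep := separable_X_pow_sub_C c hd hc
  unfold nthRoots
  rw [Multiset.toFinset_card_of_nodup (nodup_roots hsep),
    splits_iff_card_roots.1 (IsAlgClosed.splits _), natDegree_X_pow_sub_C]

end

section

variable {K : Type*} [Field K] [DecidableEq K]

theorem card_common (d d' : ℕ) (hd : 0 < d) (c c' : K) (W : Finset K) (hW0 : ∀ w ∈ W, w ≠ 0)
    (hW : ∀ w ∈ W, w ^ d = c ∧ w ^ d' = c') : W.card ≤ Nat.gcd d d' := by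
  rcases W.eq_empty_or_nonempty with h | ⟨w₀, hw₀⟩
  · rw [h, card_empty]
    exact Nat.zero_le _
  · have hg : 0 < Nat.gcd d d' := Nat.gcd_pos_of_pos_left _ hd
    have h0 := hW0 _ hw₀
    refine le_trans ?_ ((Multiset.toFinset_card_le _).trans (card_nthRoots (Nat.gcd d d') (1 : K)))
    refine card_le_card_of_injOn (fun w => w / w₀) ?_ ?_
    · intro w hw
      rw [mem_coe, Multiset.mem_toFinset, mem_nthRoots hg, pow_gcd_eq_one, div_pow, div_pow]
      obtain ⟨h1, h2⟩ := hW w hw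
      obtain ⟨h3, h4⟩ := hW w₀ hw₀
      have h5 : w₀ ^ d ≠ 0 := pow_ne_zero _ h0
      have h6 : w₀ ^ d' ≠ 0 := pow_ne_zero _ h0
      rw [h1, h2, ← h3, ← h4]
      exact ⟨div_self h5, div_self h6⟩
    · intro w _ w' _ hww
      simp only at hww
      exact (div_left_inj' h0).1 hww

end

section

variable {p : ℕ} [Fact p.Prime]
variable {ι : Type*} [Fintype ι] [DecidableEq ι]

/-- each edge of a walk that is not good is related to another edge -/
theorem step (a : ι → ZMod p) (e : ι → ℕ) (ha : ∀ i, a i ≠ 0) (he : ∀ i, e i < p) {m : ℕ}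
    (V : Fin (m + 1) → ι) (hV : ¬ Good (mono a e) V) (k : Fin m) (hk : dd e (edge V k) ≠ 0) :
    ∃ l : Fin m, l ≠ k ∧ dd e (edge V l) ≠ 0 ∧ ∃ x y : ℕ, 0 < x ∧ 0 < y ∧ y ≤ m ∧
      x * dd e (edge V k) = y * dd e (edge V l) ∧
      cq a e (edge V k) ^ x = cq a e (edge V l) ^ y := by
  classical
  set φ := algebraMap (ZMod p) (AlgebraicClosure (ZMod p)) with hφ
  set d := dd e (edge V k) with hd
  have hcne : ∀ x : ι × ι, cq a e x ≠ 0 := by
    intro x
    unfold cq
    split_ifs
    · exact div_ne_zero (ha _) (ha _)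
    · exact div_ne_zero (ha _) (ha _)
  have hdp : d < p := by
    have h1 := he (edge V k).1
    have h2 := he (edge V k).2
    rw [hd]
    unfold dd Nat.dist
    omega
  have hdK : ((d : ℕ) : AlgebraicClosure (ZMod p)) ≠ 0 := by
    intro h
    have : CharP (AlgebraicClosure (ZMod p)) p :=
      (algebraMap (ZMod p) (AlgebraicClosure (ZMod p))).charP_iff_charP p |>.1 inferInstance
    have h2 := (CharP.cast_eq_zero_iff (AlgebraicClosure (ZMod p)) p d).1 h
    exact hk (Nat.eq_zero_of_dvd_of_lt h2 hdp)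
  set W := (nthRoots d (φ (cq a e (edge V k)))).toFinset with hW
  have hWc : W.card = d := card_pow d hdK _ ((map_ne_zero φ).2 (hcne _))
  have hWm : ∀ w ∈ W, w ≠ 0 ∧ IsR a e (edge V k) w := by
    intro w hw
    rw [hW, Multiset.mem_toFinset, mem_nthRoots (Nat.pos_of_ne_zero hk)] at hw
    refine ⟨?_, hw⟩
    rintro rfl
    rw [zero_pow hk] at hw
    exact (map_ne_zero φ).2 (hcne _) hw.symm
  have h1 : ∀ w ∈ W, ∃ l : Fin m, l ≠ k ∧ dd e (edge V l) ≠ 0 ∧ IsR a e (edge V l) w :=
    fun w hw => cover a e ha he V hV k hk w (hWm w hw).1 (hWm w hw).2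
  have hnon : Nonempty (Fin m) := ⟨k⟩
  choose! f hf1 hf2 hf3 using h1
  have h2 : W.card = ∑ l : Fin m, (W.filter fun w => f w = l).card :=
    card_eq_sum_card_fiberwise fun w _ => mem_coe.2 (mem_univ _)
  have hm : 0 < m := lt_of_le_of_lt (Nat.zero_le _) k.2
  obtain ⟨l, hl⟩ : ∃ l : Fin m, d ≤ m * (W.filter fun w => f w = l).card := by
    by_contra hcon
    push Not at hcon
    have h3 : m * W.card < m * d := by
      rw [h2, mul_sum]
      calc ∑ l : Fin m, m * (W.filter fun w => f w = l).card < ∑ _l : Fin m, d :=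
            sum_lt_sum_of_nonempty univ_nonempty fun l _ => hcon l
        _ = m * d := by rw [sum_const, card_univ, Fintype.card_fin, smul_eq_mul]
    rw [hWc] at h3
    exact lt_irrefl _ h3
  have hne : (W.filter fun w => f w = l).Nonempty := by
    rw [nonempty_iff_ne_empty]
    intro h
    rw [h, card_empty, mul_zero] at hl
    omega
  obtain ⟨w, hw⟩ := hne
  obtain ⟨hwW, hwl⟩ := mem_filter.1 hw
  have hlk : l ≠ k := hwl ▸ hf1 w hwW
  have hl0 : dd e (edge V l) ≠ 0 := hwl ▸ hf2 w hwW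
  have hlw : IsR a e (edge V l) w := hwl ▸ hf3 w hwW
  set d' := dd e (edge V l) with hd'
  have hg := card_common d d' (Nat.pos_of_ne_zero hk) (φ (cq a e (edge V k)))
    (φ (cq a e (edge V l))) (W.filter fun w => f w = l)
    (fun w hw => (hWm w (mem_filter.1 hw).1).1) (fun w hw => ⟨(hWm w (mem_filter.1 hw).1).2, by
      obtain ⟨h4, h5⟩ := mem_filter.1 hw
      have h6 := hf3 w h4
      rw [h5] at h6
      exact h6⟩)
  have hg0 : 0 < Nat.gcd d d' := Nat.gcd_pos_of_pos_left _ (Nat.pos_of_ne_zero hk)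
  obtain ⟨y, hy⟩ := Nat.gcd_dvd_left d d'
  obtain ⟨x, hx⟩ := Nat.gcd_dvd_right d d'
  set g := Nat.gcd d d' with hgd
  refine ⟨l, hlk, hl0, x, y, ?_, ?_, ?_, ?_, ?_⟩
  · rcases Nat.eq_zero_or_pos x with h | h
    · rw [h, mul_zero] at hx
      exact absurd hx hl0
    · exact h
  · rcases Nat.eq_zero_or_pos y with h | h
    · rw [h, mul_zero] at hy
      exact absurd hy hk
    · exact h
  · have h3 : d ≤ m * g := hl.trans (Nat.mul_le_mul_left _ hg)
    rw [hy] at h3
    have h4 : g * y ≤ g * m := by rw [mul_comm g m]; exact h3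
    exact Nat.le_of_mul_le_mul_left h4 hg0
  · have e1 : x * d = x * (g * y) := by rw [← hy]
    have e2 : y * d' = y * (g * x) := by rw [← hx]
    rw [e1, e2]
    ring
  · apply φ.injective
    rw [map_pow, map_pow]
    have h3 : w ^ d = φ (cq a e (edge V k)) := (hWm w hwW).2
    have h4 : w ^ d' = φ (cq a e (edge V l)) := hlw
    rw [← h3, ← h4, ← pow_mul, ← pow_mul]
    congr 1
    have e1 : d * x = g * y * x := by rw [← hy]
    have e2 : d' * y = g * x * y := by rw [← hx]
    rw [e1, e2]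
    ring

end

end Pool.Agent.K7.H77.PF
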