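import Pool.Agent.K7.H77.PF.Mono1

/-! # Relations between the edges of a walk -/

set_option autoImplicit false
set_option linter.unusedSectionVars false

namespace Pool.Agent.K7.H77.PF

open Finset Polynomial

/-- two labels are related -/
def Rl {M : Type*} [Monoid M] (B : ℕ) (L L' : ℕ × M) : Prop :=
  ∃ x y : ℕ, 0 < x ∧ x ≤ B ∧ 0 < y ∧ y ≤ B ∧ x * L.1 = y * L'.1 ∧ L.2 ^ x = L'.2 ^ y

theorem Rl_symm {M : Type*} [Monoid M] {B : ℕ} {L L' : ℕ × M} (h : Rl B L L') : Rl B L' L := by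
  obtain ⟨x, y, h1, h2, h3, h4, h5, h6⟩ := h
  exact ⟨y, x, h3, h4, h1, h2, h5.symm, h6.symm⟩

theorem graph {M : Type*} [Monoid M] {m : ℕ} (d : Fin m → ℕ) (c : Fin m → M)
    (h : ∀ k, d k ≠ 0 → ∃ l, l ≠ k ∧ d l ≠ 0 ∧ ∃ x y : ℕ, 0 < x ∧ 0 < y ∧ y ≤ m ∧
      x * d k = y * d l ∧ c k ^ x = c l ^ y) :
    ∃ (Q : Finset (Fin m)) (ψ : Fin m → Fin m),
      (∀ k, d k ≠ 0 → ∃ l ∈ Q, ∃ y, 0 < y ∧ y ≤ m ^ m ∧ d k ∣ y * d l) ∧
      (∀ l ∈ Q, ψ l ≠ l ∧ d l ≠ 0 ∧ Rl (m * m ^ m) (d l, c l) (d (ψ l), c (ψ l))) ∧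
      Set.InjOn ψ (Q : Set (Fin m)) := by
  classical
  rcases Nat.eq_zero_or_pos m with hm | hm
  · subst hm
    exact ⟨∅, id, fun k => k.elim0, by simp, by simp⟩
  have hnon : Nonempty (Fin m) := ⟨⟨0, hm⟩⟩
  choose! ψ h1 h2 X Y h3 h4 h5 h6 h7 using h
  have hmm : 1 ≤ m ^ m := Nat.one_le_pow _ _ hm
  have hit : ∀ (s : ℕ) (k : Fin m), d k ≠ 0 → d (ψ^[s] k) ≠ 0 ∧
      ∃ y, 0 < y ∧ y ≤ m ^ s ∧ d k ∣ y * d (ψ^[s] k) := by
    intro s
    induction s with
    | zero =>
      intro k hk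
      exact ⟨hk, 1, one_pos, by simp, by simp⟩
    | succ s ih =>
      intro k hk
      obtain ⟨i1, y, i2, i3, i4⟩ := ih k hk
      rw [Function.iterate_succ_apply']
      refine ⟨h2 _ i1, y * Y (ψ^[s] k), Nat.mul_pos i2 (h4 _ i1), ?_, ?_⟩
      · rw [pow_succ]
        exact Nat.mul_le_mul i3 (h5 _ i1)
      · refine i4.trans ?_
        rw [mul_assoc, ← h6 _ i1]
        exact Nat.mul_dvd_mul_left _ (Dvd.intro_left _ rfl)
  set Q : Finset (Fin m) := univ.filter fun l => d l ≠ 0 ∧ ∃ t, 0 < t ∧ t ≤ m ∧ ψ^[t] l = l with hQ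
  refine ⟨Q, ψ, ?_, ?_, ?_⟩
  · intro k hk
    obtain ⟨s, s', hss, hs⟩ := Fintype.exists_ne_map_eq_of_card_lt
      (fun s : Fin (m + 1) => ψ^[(s : ℕ)] k) (by rw [Fintype.card_fin, Fintype.card_fin]; omega)
    wlog hlt : s < s' generalizing s s'
    · exact this s' s hss.symm hs.symm (lt_of_le_of_ne (not_lt.1 hlt) hss.symm)
    obtain ⟨i1, y, i2, i3, i4⟩ := hit s k hk
    have hs'm : (s' : ℕ) ≤ m := by have := s'.2; omega
    have hlt' : (s : ℕ) < s' := hlt
    refine ⟨ψ^[(s : ℕ)] k, mem_filter.2 ⟨mem_univ _, i1, (s' : ℕ) - s, by omega, by omega, ?_⟩, y, i2,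
      i3.trans (Nat.pow_le_pow_right hm (by omega)), i4⟩
    rw [← Function.iterate_add_apply]
    have e : (s' : ℕ) - s + s = s' := by omega
    rw [e]
    exact hs.symm
  · intro l hl
    obtain ⟨hl0, t, ht0, htm, ht⟩ := (mem_filter.1 hl).2
    refine ⟨h1 _ hl0, hl0, X l, Y l, h3 _ hl0, ?_, h4 _ hl0,
      (h5 _ hl0).trans (Nat.le_mul_of_pos_right _ hmm), h6 _ hl0, h7 _ hl0⟩
    obtain ⟨i1, y, i2, i3, i4⟩ := hit (t - 1) (ψ l) (h2 _ hl0)
    have e : ψ^[t - 1] (ψ l) = l := by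
      rw [← Function.iterate_succ_apply]
      have : (t - 1).succ = t := by omega
      rw [this]
      exact ht
    rw [e] at i4
    have i5 : d (ψ l) ≤ m ^ m * d l := by
      refine (Nat.le_of_dvd (Nat.mul_pos i2 (Nat.pos_of_ne_zero hl0)) i4).trans ?_
      exact Nat.mul_le_mul_right _ (i3.trans (Nat.pow_le_pow_right hm (by omega)))
    have i6 : X l * d l ≤ m * m ^ m * d l := by
      rw [h6 _ hl0, mul_assoc]
      exact Nat.mul_le_mul (h5 _ hl0) i5
    exact Nat.le_of_mul_le_mul_right i6 (Nat.pos_of_ne_zero hl0)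
  · intro l hl l' hl' hll
    obtain ⟨-, t, ht0, -, ht⟩ := (mem_filter.1 (mem_coe.1 hl)).2
    obtain ⟨-, t', ht0', -, ht'⟩ := (mem_filter.1 (mem_coe.1 hl')).2
    have e1 : ψ^[t * t'] l = l := Function.IsPeriodicPt.mul_const (show Function.IsPeriodicPt ψ t l from ht) t'
    have e2 : ψ^[t * t'] l' = l' := Function.IsPeriodicPt.const_mul (show Function.IsPeriodicPt ψ t' l' from ht') t
    have hpos : 0 < t * t' := Nat.mul_pos ht0 ht0'
    obtain ⟨s, hs⟩ : ∃ s, t * t' = s + 1 := ⟨t * t' - 1, by omega⟩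
    rw [hs, Function.iterate_succ_apply] at e1 e2
    rw [← e1, ← e2, hll]

section

variable {F : Type*} [Field F] [DecidableEq F]

open Classical in
/-- the labels related to a given label -/
noncomputable def rel (B : ℕ) (L : ℕ × F) : Finset (ℕ × F) :=
  (((Icc 1 B) ×ˢ (Icc 1 B)).biUnion fun z => (nthRoots z.1 (L.2 ^ z.2)).toFinset.image
    fun c => (z.2 * L.1 / z.1, c)).filter fun L' => Rl B L' L

theorem mem_rel (B : ℕ) (L L' : ℕ × F) : L' ∈ rel B L ↔ Rl B L' L := by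
  classical
  unfold rel
  rw [mem_filter]
  refine ⟨fun h => h.2, fun h => ⟨?_, h⟩⟩
  obtain ⟨x, y, h1, h2, h3, h4, h5, h6⟩ := h
  rw [mem_biUnion]
  refine ⟨(x, y), mem_product.2 ⟨mem_Icc.2 ⟨h1, h2⟩, mem_Icc.2 ⟨h3, h4⟩⟩, mem_image.2 ⟨L'.2, ?_, ?_⟩⟩
  · rw [Multiset.mem_toFinset, mem_nthRoots h1]
    exact h6
  · ext
    · simp only
      rw [← h5]
      exact Nat.mul_div_cancel_left _ h1
    · rfl

theorem card_rel (B : ℕ) (L : ℕ × F) : (rel B L).card ≤ B ^ 3 := by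
  classical
  unfold rel
  refine (card_filter_le _ _).trans (card_biUnion_le.trans ?_)
  calc ∑ z ∈ (Icc 1 B) ×ˢ (Icc 1 B), ((nthRoots z.1 (L.2 ^ z.2)).toFinset.image
        fun c => (z.2 * L.1 / z.1, c)).card ≤ ∑ _z ∈ (Icc 1 B) ×ˢ (Icc 1 B), B := by
        refine sum_le_sum fun z hz => ?_
        refine card_image_le.trans ((Multiset.toFinset_card_le _).trans ((card_nthRoots _ _).trans ?_))
        exact (mem_Icc.1 (mem_product.1 hz).1).2
    _ = B ^ 3 := by
        rw [sum_const, card_product, Nat.card_Icc, smul_eq_mul]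
        simp only [Nat.add_sub_cancel]
        ring

end

section

variable {ι Ω : Type*} [Fintype ι] [DecidableEq ι] [DecidableEq Ω]

/-- many related pairs of edges -/
theorem fr_le (Rt : ι × ι → Finset Ω) (root : ι × ι → Ω) (B : ι × ι → Prop) {m : ℕ}
    (V : Fin (m + 1) → ι) (Q : Finset (Fin m)) (ψ : Fin m → Fin m) (h1 : ∀ l ∈ Q, ψ l ≠ l)
    (h2 : ∀ l ∈ Q, root (edge V l) ∈ Rt (edge V (ψ l)) ∧ root (edge V (ψ l)) ∈ Rt (edge V l))
    (h3 : Set.InjOn ψ (Q : Set (Fin m))) : 2 * fr Rt root B V + Q.card ≤ 2 * m := by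
  classical
  set Fs : Finset (Fin m) := univ.filter fun k => ¬ NF Rt root B V k with hFs
  set Ns : Finset (Fin m) := univ.filter fun k => NF Rt root B V k with hNs
  have e1 : fr Rt root B V = Fs.card := by
    unfold fr
    rw [hFs, card_filter]
    refine sum_congr rfl fun k _ => ?_
    split_ifs <;> simp_all
  have e2 : Ns.card + Fs.card = m := by
    rw [hNs, hFs, card_filter_add_card_filter_not, card_univ, Fintype.card_fin]
  have e3 : Q.card ≤ 2 * (Q.image fun l => max l (ψ l)).card := by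
    refine card_le_mul_card_image Q 2 fun z _ => ?_
    have hs : (Q.filter fun l => max l (ψ l) = z) ⊆ {z} ∪ (Q.filter fun l => ψ l = z) := by
      intro l hl
      obtain ⟨h4, h5⟩ := mem_filter.1 hl
      rw [mem_union, mem_singleton, mem_filter]
      rcases max_choice l (ψ l) with h | h
      · left
        rw [← h5, h]
      · right
        exact ⟨h4, by rw [← h5, h]⟩
    refine (card_le_card hs).trans ((card_union_le _ _).trans ?_)
    have h6 : (Q.filter fun l => ψ l = z).card ≤ 1 := by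
      rw [card_le_one]
      intro l hl l' hl'
      obtain ⟨h4, h5⟩ := mem_filter.1 hl
      obtain ⟨h4', h5'⟩ := mem_filter.1 hl'
      exact h3 (mem_coe.2 h4) (mem_coe.2 h4') (h5.trans h5'.symm)
    rw [card_singleton]
    omega
  have e4 : (Q.image fun l => max l (ψ l)) ⊆ Ns := by
    intro z hz
    obtain ⟨l, hl, rfl⟩ := mem_image.1 hz
    rw [hNs, mem_filter]
    refine ⟨mem_univ _, Or.inr ?_⟩
    obtain ⟨h4, h5⟩ := h2 l hl
    rcases lt_or_gt_of_ne (h1 l hl) with h | h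
    · rw [max_eq_left h.le]
      exact ⟨ψ l, h, Or.inl h4⟩
    · rw [max_eq_right h.le]
      exact ⟨l, h, Or.inl h5⟩
  have e5 := card_le_card e4
  omega

/-- the number of walks with restricted edges -/
theorem walks_le (A : ι × ι → Prop) (Bd : ℝ) (hB : 0 ≤ Bd)
    (h : ∀ i, (Set.ncard {j : ι | A (i, j)} : ℝ) ≤ Bd) (m : ℕ) :
    (Set.ncard {V : Fin (m + 1) → ι | ∀ k, A (edge V k)} : ℝ) ≤ Fintype.card ι * Bd ^ m := by
  classical
  have e0 : ∀ m : ℕ, (Set.ncard {V : Fin (m + 1) → ι | ∀ k, A (edge V k)} : ℝ) =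
      ∑ V : Fin (m + 1) → ι, if ∀ k, A (edge V k) then (1 : ℝ) else 0 := by
    intro m
    rw [Set.ncard_eq_toFinset_card', Set.toFinset_ofPred, sum_boole]
  rw [e0]
  induction m with
  | zero =>
    simp only [pow_zero, mul_one]
    have h2 : ∀ V : Fin (0 + 1) → ι, (if ∀ k, A (edge V k) then (1 : ℝ) else 0) = 1 := by
      intro V
      rw [if_pos]
      exact fun k => k.elim0
    rw [sum_congr rfl fun V _ => h2 V, sum_const, card_univ, nsmul_eq_mul, mul_one, Fintype.card_fun,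
      Fintype.card_fin]
    simp
  | succ m ih =>
    rw [sum_snoc]
    have h3 : ∀ W : Fin (m + 1) → ι,
        ∑ x : ι, (if ∀ k, A (edge (Fin.snoc W x : Fin (m + 1 + 1) → ι) k) then (1 : ℝ) else 0) ≤
        (if ∀ k, A (edge W k) then (1 : ℝ) else 0) * Bd := by
      intro W
      by_cases hW : ∀ k, A (edge W k)
      · rw [if_pos hW, one_mul]
        refine le_trans ?_ (h (W (Fin.last m)))
        rw [Set.ncard_eq_toFinset_card', Set.toFinset_ofPred, ← sum_boole]
        refine sum_le_sum fun x _ => ?_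
        by_cases hx : A (W (Fin.last m), x)
        · rw [if_pos hx]
          split_ifs <;> norm_num
        · rw [if_neg hx, if_neg]
          intro h4
          apply hx
          have := h4 (Fin.last m)
          rwa [edge_snoc_last] at this
      · rw [if_neg hW, zero_mul]
        refine le_of_eq (sum_eq_zero fun x _ => ?_)
        rw [if_neg]
        intro h4
        apply hW
        intro k
        have := h4 k.castSucc
        rwa [edge_snoc_castSucc] at this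
    calc ∑ W : Fin (m + 1) → ι,
        ∑ x : ι, (if ∀ k, A (edge (Fin.snoc W x : Fin (m + 1 + 1) → ι) k) then (1 : ℝ) else 0)
        ≤ ∑ W : Fin (m + 1) → ι, (if ∀ k, A (edge W k) then (1 : ℝ) else 0) * Bd :=
          sum_le_sum fun W _ => h3 W
      _ = (∑ W : Fin (m + 1) → ι, (if ∀ k, A (edge W k) then (1 : ℝ) else 0)) * Bd := by
          rw [sum_mul]
      _ ≤ (Fintype.card ι * Bd ^ m) * Bd := mul_le_mul_of_nonneg_right ih hB
      _ = _ := by rw [pow_succ]; ring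

end

end Pool.Agent.K7.H77.PF
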