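import Pool.Agent.K7.H77.PF.Mono2
import Pool.Agent.H510R2.Div

/-! # The number of the walks that are not good, for monomials -/

set_option autoImplicit false
set_option linter.unusedSectionVars false

namespace Pool.Agent.K7.H77.PF

open Finset Polynomial

section

variable {p : ℕ} [Fact p.Prime]
variable {ι : Type*} [Fintype ι] [DecidableEq ι]

/-- the label of an edge -/
def lab (a : ι → ZMod p) (e : ι → ℕ) (x : ι × ι) : ℕ × ZMod p := (dd e x, cq a e x)

theorem card_lab (a : ι → ZMod p) (e : ι → ℕ) (ha : ∀ i, a i ≠ 0)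
    (hinj : ∀ i j, a i = a j → e i = e j → i = j) (i : ι) (L : ℕ × ZMod p) :
    (univ.filter fun j => lab a e (i, j) = L).card ≤ 2 := by
  classical
  have h1 : (univ.filter fun j => lab a e (i, j) = L) ⊆
      (univ.filter fun j => lab a e (i, j) = L ∧ e j ≤ e i) ∪
      (univ.filter fun j => lab a e (i, j) = L ∧ ¬ e j ≤ e i) := by
    intro j hj
    have h := (mem_filter.1 hj).2
    by_cases h2 : e j ≤ e i
    · exact mem_union_left _ (mem_filter.2 ⟨mem_univ _, h, h2⟩)
    · exact mem_union_right _ (mem_filter.2 ⟨mem_univ _, h, h2⟩)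
  have h2 : (univ.filter fun j => lab a e (i, j) = L ∧ e j ≤ e i).card ≤ 1 := by
    rw [card_le_one]
    intro j hj j' hj'
    obtain ⟨-, h3, h4⟩ := mem_filter.1 hj
    obtain ⟨-, h3', h4'⟩ := mem_filter.1 hj'
    have h5 := h3.trans h3'.symm
    unfold lab dd cq at h5
    rw [Prod.mk.injEq] at h5
    simp only [h4, h4', if_true] at h5
    obtain ⟨h6, h7⟩ := h5
    refine hinj j j' ((div_left_inj' (ha i)).1 h7) ?_
    rw [Nat.dist_eq_sub_of_le_right h4, Nat.dist_eq_sub_of_le_right h4'] at h6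
    omega
  have h3 : (univ.filter fun j => lab a e (i, j) = L ∧ ¬ e j ≤ e i).card ≤ 1 := by
    rw [card_le_one]
    intro j hj j' hj'
    obtain ⟨-, h3, h4⟩ := mem_filter.1 hj
    obtain ⟨-, h3', h4'⟩ := mem_filter.1 hj'
    have h5 := h3.trans h3'.symm
    unfold lab dd cq at h5
    rw [Prod.mk.injEq] at h5
    simp only [h4, h4', if_false] at h5
    obtain ⟨h6, h7⟩ := h5
    push Not at h4 h4'
    refine hinj j j' ?_ ?_
    · rw [div_eq_div_iff (ha _) (ha _)] at h7
      exact (mul_left_cancel₀ (ha i) h7).symm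
    · rw [Nat.dist_eq_sub_of_le h4.le, Nat.dist_eq_sub_of_le h4'.le] at h6
      omega
  have := (card_le_card h1).trans (card_union_le _ _)
  omega

/-- the exponents that are allowed -/
def All (e : ι → ℕ) (Y : ℕ) {R : ℕ} (h : Fin R → ι × ι) (x : ι × ι) : Prop :=
  dd e x = 0 ∨ ∃ s, dd e (h s) ≠ 0 ∧ ∃ y, 0 < y ∧ y ≤ Y ∧ dd e x ∣ y * dd e (h s)

theorem all_card (e : ι → ℕ) (Y K : ℕ) {R : ℕ} (h : Fin R → ι × ι) (T Fb : ℝ) (hT0 : 0 ≤ T)
    (hF0 : 0 ≤ Fb) (he : ∀ i, e i ≤ K)
    (hT : ∀ n : ℕ, 0 < n → n ≤ Y * K → (n.divisors.card : ℝ) ≤ T)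
    (hF : ∀ t : ℕ, ((univ.filter fun j => e j = t).card : ℝ) ≤ Fb) (i : ι) :
    (Set.ncard {j : ι | All e Y h (i, j)} : ℝ) ≤ (1 + 2 * (R * Y * T)) * Fb := by
  classical
  set E : Finset ℕ := {e i} ∪ (univ : Finset (Fin R)).biUnion fun s => (Icc 1 Y).biUnion fun y =>
    (y * dd e (h s)).divisors.image (fun t => e i + t) ∪
    (y * dd e (h s)).divisors.image (fun t => e i - t) with hE
  have hsub : {j : ι | All e Y h (i, j)} ⊆
      ((E.biUnion fun t => univ.filter fun j => e j = t : Finset ι) : Set ι) := by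
    intro j hj
    rw [mem_coe, mem_biUnion]
    refine ⟨e j, ?_, mem_filter.2 ⟨mem_univ _, rfl⟩⟩
    rw [hE, mem_union, mem_singleton]
    rcases hj with h0 | ⟨s, hs, y, hy0, hyY, hdvd⟩
    · left
      exact (Nat.eq_of_dist_eq_zero h0).symm
    · right
      rw [mem_biUnion]
      refine ⟨s, mem_univ _, ?_⟩
      rw [mem_biUnion]
      refine ⟨y, mem_Icc.2 ⟨hy0, hyY⟩, ?_⟩
      have hmem : dd e (i, j) ∈ (y * dd e (h s)).divisors :=
        Nat.mem_divisors.2 ⟨hdvd, Nat.mul_ne_zero (by omega) hs⟩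
      rw [mem_union, mem_image, mem_image]
      rcases le_total (e j) (e i) with hle | hle
      · right
        refine ⟨_, hmem, ?_⟩
        unfold dd
        rw [Nat.dist_eq_sub_of_le_right hle]
        omega
      · left
        refine ⟨_, hmem, ?_⟩
        unfold dd
        rw [Nat.dist_eq_sub_of_le hle]
        omega
  have hEc : (E.card : ℝ) ≤ 1 + 2 * (R * Y * T) := by
    have h1 : E.card ≤ 1 + ∑ s : Fin R, ∑ y ∈ Icc 1 Y, 2 * (y * dd e (h s)).divisors.card := by
      refine (card_union_le _ _).trans ?_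
      rw [card_singleton]
      refine Nat.add_le_add_left ?_ _
      refine card_biUnion_le.trans (sum_le_sum fun s _ => ?_)
      refine card_biUnion_le.trans (sum_le_sum fun y _ => ?_)
      refine (card_union_le _ _).trans ?_
      have h2 : ((y * dd e (h s)).divisors.image (fun t => e i + t)).card ≤
        (y * dd e (h s)).divisors.card := card_image_le
      have h3 : ((y * dd e (h s)).divisors.image (fun t => e i - t)).card ≤
        (y * dd e (h s)).divisors.card := card_image_le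
      omega
    have h2 : ∀ (s : Fin R), ∀ y ∈ Icc 1 Y, (((y * dd e (h s)).divisors.card : ℕ) : ℝ) ≤ T := by
      intro s y hy
      obtain ⟨hy1, hy2⟩ := mem_Icc.1 hy
      rcases Nat.eq_zero_or_pos (dd e (h s)) with h0 | h0
      · rw [h0, mul_zero, Nat.divisors_zero, card_empty, Nat.cast_zero]
        exact hT0
      · refine hT _ (Nat.mul_pos hy1 h0) (Nat.mul_le_mul hy2 ?_)
        have h3 := he (h s).1
        have h4 := he (h s).2
        unfold dd Nat.dist
        omega
    calc (E.card : ℝ) ≤ ((1 + ∑ s : Fin R, ∑ y ∈ Icc 1 Y, 2 * (y * dd e (h s)).divisors.card : ℕ) : ℝ) := by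
          exact_mod_cast h1
      _ = 1 + ∑ s : Fin R, ∑ y ∈ Icc 1 Y, 2 * (((y * dd e (h s)).divisors.card : ℕ) : ℝ) := by
          push_cast
          rfl
      _ ≤ 1 + ∑ _s : Fin R, ∑ _y ∈ Icc 1 Y, 2 * T := by
          gcongr with s _ y hy
          exact h2 s y hy
      _ = _ := by
          rw [sum_const, sum_const, Nat.card_Icc, card_univ, Fintype.card_fin]
          simp only [Nat.add_sub_cancel, nsmul_eq_mul]
          ring
  calc (Set.ncard {j : ι | All e Y h (i, j)} : ℝ) ≤
        ((E.biUnion fun t => univ.filter fun j => e j = t).card : ℝ) := by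
        have := Set.ncard_le_ncard hsub (finite_toSet _)
        rw [Set.ncard_coe_finset] at this
        exact_mod_cast this
    _ ≤ ((∑ t ∈ E, (univ.filter fun j => e j = t).card : ℕ) : ℝ) := by
        exact_mod_cast card_biUnion_le
    _ = ∑ t ∈ E, ((univ.filter fun j => e j = t).card : ℝ) := by push_cast; rfl
    _ ≤ ∑ _t ∈ E, Fb := sum_le_sum fun t _ => hF t
    _ = E.card * Fb := by rw [sum_const, nsmul_eq_mul]
    _ ≤ _ := mul_le_mul_of_nonneg_right hEc hF0

/-- the number of the walks that are not good -/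
theorem ngc_mono (a : ι → ZMod p) (e : ι → ℕ) (ha : ∀ i, a i ≠ 0)
    (hinj : ∀ i j, a i = a j → e i = e j → i = j) (K : ℕ) (hK : ∀ i, e i ≤ K) (hKp : K < p)
    (T Fb : ℝ) (hT0 : 0 ≤ T) (hF0 : 0 ≤ Fb) (m r : ℕ) (hrm : r ≤ m)
    (hT : ∀ n : ℕ, 0 < n → n ≤ m ^ m * K → (n.divisors.card : ℝ) ≤ T)
    (hF : ∀ t : ℕ, ((univ.filter fun j => e j = t).card : ℝ) ≤ Fb) (hN : 0 < Fintype.card ι)
    (L' : ℝ) (hL'N : L' ≤ (Fintype.card ι : ℝ))
    (hL' : (2 * (m * m ^ m) ^ 3 * (1 + m * ((m * m ^ m) ^ 3 + 1)) : ℕ) ≤ L') (hm : 0 < m) :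
    (ngc (mono a e) m : ℝ) ≤
      (Fintype.card ι : ℝ) ^ (4 * r) *
        (Fintype.card ι * ((1 + 2 * ((2 * r : ℕ) * (m ^ m : ℕ) * T)) * Fb) ^ m) +
      Fintype.card ι * 2 ^ m * L' ^ r * (Fintype.card ι : ℝ) ^ (m - r) := by
  classical
  set N : ℝ := (Fintype.card ι : ℝ) with hNd
  have hN0 : 0 < N := by rw [hNd]; exact_mod_cast hN
  have hne : Nonempty ι := Fintype.card_pos_iff.1 hN
  set B : ℕ := m * m ^ m with hB
  have hB1 : 1 ≤ B := Nat.mul_pos hm (Nat.pow_pos hm)
  set Rt : ι × ι → Finset (ℕ × ZMod p) := fun x => rel B (lab a e x) with hRt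
  set NoB : ι × ι → Prop := fun _ => False with hNoB
  set S1 : Set (Fin (m + 1) → ι) :=
    {V | ∃ h : Fin (2 * r) → ι × ι, ∀ k, All e (m ^ m) h (edge V k)} with hS1
  set S2 : Set (Fin (m + 1) → ι) := {V | fr Rt (lab a e) NoB V ≤ m - r} with hS2
  have hcov : {V : Fin (m + 1) → ι | ¬ Good (mono a e) V} ⊆ S1 ∪ S2 := by
    intro V hV
    obtain ⟨Q, ψ, h1, h2, h3⟩ := graph (fun k => dd e (edge V k)) (fun k => cq a e (edge V k))
      (fun k hk => step a e ha (fun i => lt_of_le_of_lt (hK i) hKp) V hV k hk)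
    by_cases hQ : Q.card ≤ 2 * r
    · left
      rw [← Fintype.card_coe] at hQ
      have hQ' : Fintype.card Q ≤ Fintype.card (Fin (2 * r)) := by rw [Fintype.card_fin]; exact hQ
      obtain ⟨f⟩ := Function.Embedding.nonempty_of_card_le hQ'
      obtain ⟨i₀⟩ := hne
      refine ⟨Function.extend f (fun l => edge V l.1) (fun _ => (i₀, i₀)), fun k => ?_⟩
      by_cases hk : dd e (edge V k) = 0
      · exact Or.inl hk
      · right
        obtain ⟨l, hl, y, hy0, hym, hyd⟩ := h1 k hk
        refine ⟨f ⟨l, hl⟩, ?_⟩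
        rw [f.injective.extend_apply]
        exact ⟨(h2 l hl).2.1, y, hy0, hym, hyd⟩
    · right
      have h4 := fr_le Rt (lab a e) NoB V Q ψ (fun l hl => (h2 l hl).1) (fun l hl => ?_) h3
      · rw [hS2, Set.mem_ofPred_eq]
        omega
      · have h5 := (h2 l hl).2.2
        rw [hRt]
        simp only [mem_rel]
        exact ⟨h5, Rl_symm h5⟩
  have hc1 : (S1.ncard : ℝ) ≤ N ^ (4 * r) *
      (N * ((1 + 2 * ((2 * r : ℕ) * (m ^ m : ℕ) * T)) * Fb) ^ m) := by
    set Wk : (Fin (2 * r) → ι × ι) → Finset (Fin (m + 1) → ι) := fun h =>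
      univ.filter fun V => ∀ k, All e (m ^ m) h (edge V k) with hWk
    have h1 : S1 ⊆ (((univ : Finset (Fin (2 * r) → ι × ι)).biUnion Wk : Finset _) :
        Set (Fin (m + 1) → ι)) := by
      rintro V ⟨h, hV⟩
      rw [mem_coe, mem_biUnion]
      exact ⟨h, mem_univ _, mem_filter.2 ⟨mem_univ _, hV⟩⟩
    have h2 : ∀ h, ((Wk h).card : ℝ) ≤
        N * ((1 + 2 * ((2 * r : ℕ) * (m ^ m : ℕ) * T)) * Fb) ^ m := by
      intro h
      have h3 := walks_le (All e (m ^ m) h) ((1 + 2 * ((2 * r : ℕ) * (m ^ m : ℕ) * T)) * Fb)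
        (by positivity) (fun i => all_card e (m ^ m) K h T Fb hT0 hF0 hK hT hF i) m
      rw [Set.ncard_eq_toFinset_card', Set.toFinset_ofPred] at h3
      exact h3
    have h3 : (S1.ncard : ℝ) ≤ (((univ : Finset (Fin (2 * r) → ι × ι)).biUnion Wk).card : ℝ) := by
      have := Set.ncard_le_ncard h1 (finite_toSet _)
      rw [Set.ncard_coe_finset] at this
      exact_mod_cast this
    refine h3.trans ?_
    calc (((univ : Finset (Fin (2 * r) → ι × ι)).biUnion Wk).card : ℝ) ≤
        ((∑ h : Fin (2 * r) → ι × ι, (Wk h).card : ℕ) : ℝ) := by exact_mod_cast card_biUnion_le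
      _ = ∑ h : Fin (2 * r) → ι × ι, ((Wk h).card : ℝ) := by push_cast; rfl
      _ ≤ ∑ _h : Fin (2 * r) → ι × ι, N * ((1 + 2 * ((2 * r : ℕ) * (m ^ m : ℕ) * T)) * Fb) ^ m :=
          sum_le_sum fun h _ => h2 h
      _ = _ := by
          rw [sum_const, card_univ, Fintype.card_fun, Fintype.card_prod, Fintype.card_fin,
            nsmul_eq_mul]
          push_cast
          rw [← hNd, ← sq, ← pow_mul]
          congr 2
          ring
  have hc2 : (S2.ncard : ℝ) ≤ N * 2 ^ m * L' ^ r * N ^ (m - r) := by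
    have hL'0 : 0 < L' := by
      refine lt_of_lt_of_le ?_ hL'
      positivity
    set y : ℝ := L' / N with hy
    have hy0 : 0 < y := div_pos hL'0 hN0
    have hy1 : y ≤ 1 := (div_le_one hN0).2 hL'N
    have hyN : N * y = L' := by rw [hy]; field_simp
    have h3 := weight_sum Rt (lab a e) NoB (B ^ 3) (2 * B ^ 3) (fun x => card_rel B _)
      (fun x _ => by
        rw [hRt]
        simp only [mem_rel]
        exact ⟨1, 1, one_pos, hB1, one_pos, hB1, rfl, rfl⟩)
      (fun i => by
        have : {x : ι | NoB (i, x)} = ∅ := by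
          ext x
          simp [hNoB]
        rw [this, Set.ncard_empty]
        exact Nat.zero_le _)
      (fun v i => by
        have h4 : {x : ι | v ∈ Rt (i, x)} ⊆
            (((rel B v).biUnion fun L => univ.filter fun j => lab a e (i, j) = L : Finset ι) :
              Set ι) := by
          intro x hx
          rw [mem_coe, mem_biUnion]
          refine ⟨lab a e (i, x), ?_, mem_filter.2 ⟨mem_univ _, rfl⟩⟩
          rw [mem_rel]
          rw [Set.mem_ofPred_eq, hRt] at hx
          simp only [mem_rel] at hx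
          exact Rl_symm hx
        have h5 := Set.ncard_le_ncard h4 (finite_toSet _)
        rw [Set.ncard_coe_finset] at h5
        refine h5.trans (card_biUnion_le.trans ?_)
        calc ∑ L ∈ rel B v, (univ.filter fun j => lab a e (i, j) = L).card ≤ ∑ _L ∈ rel B v, 2 :=
              sum_le_sum fun L _ => card_lab a e ha hinj i L
          _ = (rel B v).card * 2 := by rw [sum_const, smul_eq_mul]
          _ ≤ 2 * B ^ 3 := by
              have := card_rel B v
              omega)
      m L' y hy0.le hy1 (by rw [← hNd, hyN]) hL' m le_rfl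
    rw [← hNd] at h3
    have h4 : (S2.ncard : ℝ) * y ^ (m - r) ≤ ∑ V : Fin (m + 1) → ι, y ^ fr Rt (lab a e) NoB V := by
      rw [Set.ncard_eq_toFinset_card', Set.toFinset_ofPred, ← nsmul_eq_mul, ← sum_const]
      refine le_trans (sum_le_sum (g := fun V => y ^ fr Rt (lab a e) NoB V) fun V hV => ?_)
        (sum_le_sum_of_subset_of_nonneg (filter_subset _ _) fun V _ _ => pow_nonneg hy0.le _)
      exact pow_le_pow_of_le_one hy0.le hy1 (mem_filter.1 hV).2
    have h5 := h4.trans h3
    have h6 : y ^ (m - r) * N ^ (m - r) = L' ^ (m - r) := by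
      rw [← mul_pow, mul_comm y N, hyN]
    have h7 : (0 : ℝ) < L' ^ (m - r) := by positivity
    refine le_of_mul_le_mul_right ?_ h7
    calc (S2.ncard : ℝ) * L' ^ (m - r) = (S2.ncard * y ^ (m - r)) * N ^ (m - r) := by
          rw [← h6]; ring
      _ ≤ (N * (2 * L') ^ m) * N ^ (m - r) := mul_le_mul_of_nonneg_right h5 (by positivity)
      _ = _ := by
          have e1 : L' ^ m = L' ^ r * L' ^ (m - r) := by
            rw [← pow_add]
            congr 1
            omega
          rw [mul_pow, e1]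
          ring
  have h1 : ngc (mono a e) m ≤ S1.ncard + S2.ncard := by
    unfold ngc
    exact (Set.ncard_le_ncard hcov (Set.toFinite _)).trans (Set.ncard_union_le _ _)
  calc (ngc (mono a e) m : ℝ) ≤ S1.ncard + S2.ncard := by exact_mod_cast h1
    _ ≤ _ := add_le_add hc1 hc2

end

end Pool.Agent.K7.H77.PF
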