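import Pool.Agent.K7.H77.PF.Mono3

/-! # Monomials: the parameters -/

set_option autoImplicit false
set_option linter.unusedSectionVars false

namespace Pool.Agent.K7.H77.PF

open Finset Polynomial

theorem mono_main (δ c ν : ℝ) (hδ : 0 < δ) (hc : 0 < c) (hν : 0 ≤ ν) (hν1 : ν < 1) :
    ∃ n : ℕ, n ≠ 0 ∧ ∃ C : ℝ, 0 ≤ C ∧ ∃ p₀ : ℕ, ∀ (p : ℕ) [Fact p.Prime], p₀ ≤ p →
      ∀ (ι : Type) [Fintype ι] [DecidableEq ι] (a : ι → ZMod p) (e : ι → ℕ),
        (∀ i, a i ≠ 0) → (∀ i j, a i = a j → e i = e j → i = j) →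
        (∀ i, (e i : ℝ) ≤ (p : ℝ) ^ ν) → (p : ℝ) ^ δ < (Fintype.card ι : ℝ) →
        (∀ t : ℕ, ((univ.filter fun j => e j = t).card : ℝ) ≤ (Fintype.card ι : ℝ) ^ (1 - c)) →
        (p : ℝ) * (ngc (mono a e) (2 * n) : ℝ) ≤ C * (Fintype.card ι : ℝ) ^ (2 * n) := by
  classical
  obtain ⟨r, hr⟩ : ∃ r : ℕ, 1 / δ + 1 ≤ r := exists_nat_ge _
  have hr1 : (1 : ℝ) ≤ r := by
    have : 0 < 1 / δ := by positivity
    linarith
  have hr1' : 1 ≤ r := by exact_mod_cast hr1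
  have hδr : 1 ≤ δ * (r - 1) := by
    have h1 : 1 / δ ≤ r - 1 := by linarith
    calc (1 : ℝ) = δ * (1 / δ) := by field_simp
      _ ≤ _ := mul_le_mul_of_nonneg_left h1 hδ.le
  obtain ⟨n, hn⟩ : ∃ n : ℕ, max (max ((4 * r + 1) / c) (2 / (δ * c))) r ≤ n := exists_nat_ge _
  have hn1 : (4 * r + 1 : ℝ) ≤ c * n := by
    have h1 : (4 * r + 1) / c ≤ n := ((le_max_left _ _).trans (le_max_left _ _)).trans hn
    rw [div_le_iff₀ hc] at h1
    linarith
  have hn2 : 1 ≤ δ * c * n / 2 := by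
    have h1 : 2 / (δ * c) ≤ n := ((le_max_right _ _).trans (le_max_left _ _)).trans hn
    rw [div_le_iff₀ (by positivity)] at h1
    linarith
  have hn3 : r ≤ n := by
    have h1 : (r : ℝ) ≤ n := (le_max_right _ _).trans hn
    exact_mod_cast h1
  have hn0 : n ≠ 0 := by omega
  set m : ℕ := 2 * n with hm
  have hm0 : 0 < m := by omega
  set η : ℝ := δ * c / 4 with hη
  have hη0 : 0 < η := by positivity
  obtain ⟨Cd, hCd0, hCd⟩ := Pool.Agent.H510R2.divisor_bound η hη0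
  set CT : ℝ := Cd * ((m ^ m : ℕ) : ℝ) ^ η with hCT
  have hCT0 : 0 < CT := by positivity
  set C1 : ℝ := 1 + 2 * ((2 * r : ℕ) * (m ^ m : ℕ) * CT) with hC1
  have hC10 : 0 < C1 := by positivity
  set L' : ℝ := ((2 * (m * m ^ m) ^ 3 * (1 + m * ((m * m ^ m) ^ 3 + 1)) : ℕ) : ℝ) with hL'
  have hL'0 : 0 ≤ L' := by positivity
  obtain ⟨p₁, -, hp₁⟩ := exists_large L' δ hδ
  refine ⟨n, hn0, C1 ^ m + 2 ^ m * L' ^ r, by positivity, p₁,
    fun p _ hp ι _ _ a e ha hinj he hNδ hF => ?_⟩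
  have hpp : p.Prime := Fact.out
  have hp0 : (0 : ℝ) < p := by exact_mod_cast hpp.pos
  have hp1 : (1 : ℝ) < p := by exact_mod_cast hpp.one_lt
  have hp1' := hp₁ p hp
  set N : ℝ := (Fintype.card ι : ℝ) with hN
  have hpδ0 : (0 : ℝ) < (p : ℝ) ^ δ := by positivity
  have hN0 : 0 < N := lt_trans hpδ0 hNδ
  have hNn : 0 < Fintype.card ι := by
    rw [hN] at hN0
    exact_mod_cast hN0
  have hN1 : 1 ≤ N := by rw [hN]; exact_mod_cast hNn
  set K : ℕ := ⌊(p : ℝ) ^ ν⌋₊ with hK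
  have hKν : (K : ℝ) ≤ (p : ℝ) ^ ν := Nat.floor_le (by positivity)
  have hKp : K < p := by
    have h1 : (K : ℝ) < p := by
      refine lt_of_le_of_lt hKν ?_
      calc (p : ℝ) ^ ν < (p : ℝ) ^ (1 : ℝ) := Real.rpow_lt_rpow_of_exponent_lt hp1 hν1
        _ = p := Real.rpow_one _
    exact_mod_cast h1
  have hpη : 1 ≤ (p : ℝ) ^ η := Real.one_le_rpow hp1.le hη0.le
  set T : ℝ := CT * (p : ℝ) ^ η with hT
  have hT0 : 0 ≤ T := by positivity
  have hTb : ∀ q : ℕ, 0 < q → q ≤ m ^ m * K → (q.divisors.card : ℝ) ≤ T := by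
    intro q hq hqK
    refine (hCd q hq).trans ?_
    rw [hT, hCT, mul_assoc]
    refine mul_le_mul_of_nonneg_left ?_ hCd0.le
    rw [← Real.mul_rpow (by positivity) hp0.le]
    refine Real.rpow_le_rpow (by positivity) ?_ hη0.le
    have h1 : (q : ℝ) ≤ ((m ^ m * K : ℕ) : ℝ) := by exact_mod_cast hqK
    refine h1.trans ?_
    rw [Nat.cast_mul]
    refine mul_le_mul_of_nonneg_left ?_ (by positivity)
    have h2 : (K : ℝ) < p := by exact_mod_cast hKp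
    exact h2.le
  have hmain := ngc_mono a e ha hinj K (fun i => Nat.le_floor (he i)) hKp T (N ^ (1 - c)) hT0
    (by positivity) m r (by omega) hTb hF hNn L' (hp1'.trans hNδ.le) le_rfl hm0
  rw [← hN] at hmain
  -- first term
  have hf1 : 1 + 2 * ((2 * r : ℕ) * (m ^ m : ℕ) * T) ≤ C1 * (p : ℝ) ^ η := by
    rw [hC1, hT]
    have h0 : 0 ≤ 2 * (((2 * r : ℕ) : ℝ) * ((m ^ m : ℕ) : ℝ) * CT) := by positivity
    calc 1 + 2 * (((2 * r : ℕ) : ℝ) * ((m ^ m : ℕ) : ℝ) * (CT * (p : ℝ) ^ η)) =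
        1 + 2 * (((2 * r : ℕ) : ℝ) * ((m ^ m : ℕ) : ℝ) * CT) * (p : ℝ) ^ η := by ring
      _ ≤ (p : ℝ) ^ η + 2 * (((2 * r : ℕ) : ℝ) * ((m ^ m : ℕ) : ℝ) * CT) * (p : ℝ) ^ η := by
          linarith
      _ = _ := by ring
  have hm' : (m : ℝ) = 2 * n := by rw [hm]; push_cast; ring
  have hA : (p : ℝ) * (N ^ (4 * r) * (N * ((1 + 2 * ((2 * r : ℕ) * (m ^ m : ℕ) * T)) *
      N ^ (1 - c)) ^ m)) ≤ C1 ^ m * N ^ m := by
    have h1 : ((1 + 2 * (((2 * r : ℕ) : ℝ) * (m ^ m : ℕ) * T)) * N ^ (1 - c)) ^ m ≤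
        C1 ^ m * ((p : ℝ) ^ (η * m) * N ^ ((1 - c) * m)) := by
      calc ((1 + 2 * (((2 * r : ℕ) : ℝ) * (m ^ m : ℕ) * T)) * N ^ (1 - c)) ^ m ≤
          (C1 * (p : ℝ) ^ η * N ^ (1 - c)) ^ m := by
            refine pow_le_pow_left₀ (by positivity) ?_ m
            exact mul_le_mul_of_nonneg_right hf1 (by positivity)
        _ = C1 ^ m * (((p : ℝ) ^ η) ^ m * (N ^ (1 - c)) ^ m) := by ring
        _ = _ := by
            rw [← Real.rpow_natCast ((p : ℝ) ^ η), ← Real.rpow_mul hp0.le,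
              ← Real.rpow_natCast (N ^ (1 - c)), ← Real.rpow_mul hN0.le]
    have h2 : N ^ (4 * r) * N * N ^ ((1 - c) * m) = N ^ m * N ^ (4 * r + 1 - c * m) := by
      rw [← Real.rpow_natCast N (4 * r), ← Real.rpow_natCast N m]
      nth_rewrite 2 [← Real.rpow_one N]
      rw [← Real.rpow_add hN0, ← Real.rpow_add hN0, ← Real.rpow_add hN0]
      congr 1
      push_cast
      ring
    have h3 : N ^ (4 * r + 1 - c * m) ≤ (p : ℝ) ^ (-(δ * c * n)) := by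
      have h4 : (4 * r + 1 - c * m : ℝ) ≤ -(c * n) := by
        rw [hm']
        linarith
      calc N ^ (4 * r + 1 - c * m) ≤ N ^ (-(c * n)) := Real.rpow_le_rpow_of_exponent_le hN1 h4
        _ ≤ ((p : ℝ) ^ δ) ^ (-(c * n)) := by
            refine Real.rpow_le_rpow_of_nonpos hpδ0 hNδ.le ?_
            have : 0 ≤ c * n := by positivity
            linarith
        _ = (p : ℝ) ^ (-(δ * c * n)) := by
            rw [← Real.rpow_mul hp0.le]
            congr 1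
            ring
    have h4 : (p : ℝ) * ((p : ℝ) ^ (η * m) * (p : ℝ) ^ (-(δ * c * n))) ≤ 1 := by
      have h5 : (p : ℝ) * ((p : ℝ) ^ (η * m) * (p : ℝ) ^ (-(δ * c * n))) =
          (p : ℝ) ^ (1 + (η * m + -(δ * c * n))) := by
        rw [Real.rpow_add hp0, Real.rpow_one, Real.rpow_add hp0]
      rw [h5]
      refine Real.rpow_le_one_of_one_le_of_nonpos hp1.le ?_
      rw [hm', hη]
      linarith
    calc (p : ℝ) * (N ^ (4 * r) * (N * ((1 + 2 * ((2 * r : ℕ) * (m ^ m : ℕ) * T)) *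
        N ^ (1 - c)) ^ m)) ≤ (p : ℝ) * (N ^ (4 * r) * (N *
          (C1 ^ m * ((p : ℝ) ^ (η * m) * N ^ ((1 - c) * m))))) := by gcongr
      _ = C1 ^ m * ((p : ℝ) * ((p : ℝ) ^ (η * m) * (N ^ (4 * r) * N * N ^ ((1 - c) * m)))) := by
          ring
      _ = C1 ^ m * N ^ m * ((p : ℝ) * ((p : ℝ) ^ (η * m) * N ^ (4 * r + 1 - c * m))) := by
          rw [h2]; ring
      _ ≤ C1 ^ m * N ^ m * ((p : ℝ) * ((p : ℝ) ^ (η * m) * (p : ℝ) ^ (-(δ * c * n)))) := by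
          gcongr
      _ ≤ C1 ^ m * N ^ m * 1 := by gcongr
      _ = _ := mul_one _
  have hB : (p : ℝ) * (N * 2 ^ m * L' ^ r * N ^ (m - r)) ≤ 2 ^ m * L' ^ r * N ^ m := by
    have h1 : (p : ℝ) ≤ N ^ (r - 1) := by
      calc (p : ℝ) = (p : ℝ) ^ (1 : ℝ) := (Real.rpow_one _).symm
        _ ≤ (p : ℝ) ^ (δ * (r - 1)) := Real.rpow_le_rpow_of_exponent_le hp1.le hδr
        _ = ((p : ℝ) ^ δ) ^ ((r : ℝ) - 1) := Real.rpow_mul hp0.le _ _
        _ ≤ N ^ ((r : ℝ) - 1) := Real.rpow_le_rpow hpδ0.le hNδ.le (by linarith)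
        _ = N ^ (r - 1) := by
            rw [← Real.rpow_natCast N (r - 1)]
            congr 1
            rw [Nat.cast_sub hr1']
            norm_num
    calc (p : ℝ) * (N * 2 ^ m * L' ^ r * N ^ (m - r)) ≤
        N ^ (r - 1) * (N * 2 ^ m * L' ^ r * N ^ (m - r)) := by gcongr
      _ = 2 ^ m * L' ^ r * (N ^ (r - 1) * N * N ^ (m - r)) := by ring
      _ = _ := by
          rw [← pow_succ, ← pow_add]
          congr 2
          omega
  calc (p : ℝ) * (ngc (mono a e) m : ℝ) ≤ (p : ℝ) * (N ^ (4 * r) * (N *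
        ((1 + 2 * ((2 * r : ℕ) * (m ^ m : ℕ) * T)) * N ^ (1 - c)) ^ m) +
        N * 2 ^ m * L' ^ r * N ^ (m - r)) := mul_le_mul_of_nonneg_left hmain hp0.le
    _ ≤ C1 ^ m * N ^ m + 2 ^ m * L' ^ r * N ^ m := by
        rw [mul_add]
        exact add_le_add hA hB
    _ = _ := by ring

end Pool.Agent.K7.H77.PF
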