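import Pool.Agent.K7.H77.PF.Family

/-! # Moments over the parameter and all the characters -/

set_option autoImplicit false
set_option linter.unusedSectionVars false

namespace Pool.Agent.K7.H77.PF

open Finset Matrix Polynomial

section

variable {p : ℕ} [Fact p.Prime]
variable {ι : Type*} [Fintype ι] [DecidableEq ι]

theorem char_orth (x y : ZMod p) :
    ‖∑ χ : DirichletCharacter ℂ p, χ x * (starRingEnd ℂ) (χ y)‖ ≤ if x = y then (p : ℝ) else 0 := by
  classical
  have hpp : p.Prime := Fact.out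
  by_cases hy : y = 0
  · have h1 : ∀ χ : DirichletCharacter ℂ p, χ x * (starRingEnd ℂ) (χ y) = 0 := by
      intro χ
      rw [hy, MulChar.map_zero, map_zero, mul_zero]
    rw [sum_congr rfl fun χ _ => h1 χ, sum_const_zero, norm_zero]
    split_ifs <;> positivity
  · have hu : IsUnit y := isUnit_iff_ne_zero.2 hy
    have h1 : ∀ χ : DirichletCharacter ℂ p, χ x * (starRingEnd ℂ) (χ y) = χ y⁻¹ * χ x := by
      intro χ
      have h2 : ‖χ y‖ = 1 := by
        obtain ⟨u, hu'⟩ := hu
        rw [← hu']
        exact χ.unit_norm_eq_one u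
      have h3 : χ y⁻¹ = (χ y)⁻¹ := by
        rw [← MulChar.inv_apply' χ y, MulChar.inv_apply_eq_inv' χ y]
      rw [h3, Complex.inv_eq_conj h2, mul_comm]
    rw [sum_congr rfl fun χ _ => h1 χ, DirichletCharacter.sum_char_inv_mul_char_eq ℂ hu x]
    by_cases hxy : x = y
    · rw [if_pos hxy.symm, if_pos hxy, Complex.norm_natCast]
      exact_mod_cast Nat.totient_le p
    · rw [if_neg (Ne.symm hxy), if_neg hxy, norm_zero]

theorem tm_split (χ : MulChar (ZMod p) ℂ) (G : ι → (ZMod p)[X]) {m : ℕ} (V : Fin (m + 1) → ι)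
    (t : ZMod p) : tm χ G V t =
      χ ((∏ k ∈ univ.filter (fun k : Fin m => Even (k : ℕ)), ep G V k).eval t) *
      (starRingEnd ℂ) (χ ((∏ k ∈ univ.filter (fun k : Fin m => ¬ Even (k : ℕ)), ep G V k).eval t)) := by
  rw [tm_eq, ← prod_filter_mul_prod_filter_not univ (fun k : Fin m => Even (k : ℕ)), eval_prod,
    eval_prod, map_prod, map_prod, map_prod]
  congr 1
  · refine prod_congr rfl fun k hk => ?_
    have h := (mem_filter.1 hk).2
    unfold cc
    rw [if_pos (by simpa using h)]
  · refine prod_congr rfl fun k hk => ?_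
    have h := (mem_filter.1 hk).2
    unfold cc
    rw [if_neg (by simpa using h)]

open Classical in
theorem term_pair (G : ι → (ZMod p)[X]) (D : ℕ)
    (hG : ∀ i, (G i).natDegree ≤ D) {m : ℕ} (V : Fin (m + 1) → ι)
    (hV : ¬ Deg (Rts G) (rt G) (Bd G) V) :
    ‖∑ χ : DirichletCharacter ℂ p, ∑ t : ZMod p, tm χ G V t‖ ≤ (m * D : ℕ) * (p : ℝ) := by
  set φ := algebraMap (ZMod p) (AlgebraicClosure (ZMod p)) with hφ
  set Pe := ∏ k ∈ univ.filter (fun k : Fin m => Even (k : ℕ)), ep G V k with hPe
  set Po := ∏ k ∈ univ.filter (fun k : Fin m => ¬ Even (k : ℕ)), ep G V k with hPo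
  by_cases h0 : ∃ k, ep G V k = 0
  · obtain ⟨k, hk⟩ := h0
    have h1 : ∀ (χ : DirichletCharacter ℂ p) (t : ZMod p), tm χ G V t = 0 := by
      intro χ t
      rw [tm_eq]
      refine prod_eq_zero (mem_univ k) ?_
      rw [hk, eval_zero, MulChar.map_zero]
      unfold cc
      simp
    rw [sum_congr rfl fun χ _ => sum_congr rfl fun t _ => h1 χ t]
    simp only [sum_const_zero, norm_zero]
    positivity
  · push Not at h0
    unfold Deg at hV
    push Not at hV
    obtain ⟨k₀, hB, hk₀⟩ := hV
    set v := rt G (edge V k₀) with hv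
    have hroot : ∀ k, ((ep G V k).map φ).eval v = 0 ↔ k = k₀ := by
      intro k
      have hne : (ep G V k).map φ ≠ 0 := (Polynomial.map_ne_zero_iff φ.injective).2 (h0 k)
      constructor
      · intro h
        by_contra hk
        have h2 := hk₀ k hk
        unfold Rts at h2
        rw [Multiset.mem_toFinset] at h2
        have h3 : 0 < rootMultiplicity v ((ep G V k).map φ) := (rootMultiplicity_pos hne).2 h
        rw [ep_rm, ← count_roots] at h3
        exact h2 (Multiset.count_pos.1 h3)
      · rintro rfl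
        have h3 : 0 < rootMultiplicity v ((ep G V k).map φ) := by
          rw [ep_rm, rt_spec G _ hB]
          exact one_pos
        exact (rootMultiplicity_pos hne).1 h3
    have hne : Pe - Po ≠ 0 := by
      intro h
      have h1 : (Pe.map φ).eval v = (Po.map φ).eval v := by rw [sub_eq_zero.1 h]
      rw [hPe, hPo, Polynomial.map_prod, Polynomial.map_prod, eval_prod, eval_prod] at h1
      by_cases hs : Even (k₀ : ℕ)
      · have h2 : ∏ k ∈ univ.filter (fun k : Fin m => Even (k : ℕ)), ((ep G V k).map φ).eval v = 0 :=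
          prod_eq_zero (mem_filter.2 ⟨mem_univ k₀, hs⟩) ((hroot k₀).2 rfl)
        rw [h2] at h1
        obtain ⟨k, hk, hk'⟩ := prod_eq_zero_iff.1 h1.symm
        have h3 := (hroot k).1 hk'
        rw [h3] at hk
        exact (mem_filter.1 hk).2 hs
      · have h2 : ∏ k ∈ univ.filter (fun k : Fin m => ¬ Even (k : ℕ)),
            ((ep G V k).map φ).eval v = 0 :=
          prod_eq_zero (mem_filter.2 ⟨mem_univ k₀, hs⟩) ((hroot k₀).2 rfl)
        rw [h2] at h1
        obtain ⟨k, hk, hk'⟩ := prod_eq_zero_iff.1 h1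
        have h3 := (hroot k).1 hk'
        rw [h3] at hk
        exact hs (mem_filter.1 hk).2
    have hdep : ∀ k, (ep G V k).natDegree ≤ D := by
      intro k
      unfold ep
      split_ifs
      · exact (natDegree_sub_le _ _).trans (max_le (hG _) (hG _))
      · exact (natDegree_sub_le _ _).trans (max_le (hG _) (hG _))
    have hd : ∀ S : Finset (Fin m), (∏ k ∈ S, ep G V k).natDegree ≤ m * D := by
      intro S
      refine (natDegree_prod_le _ _).trans ((sum_le_sum fun k _ => hdep k).trans ?_)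
      rw [sum_const, smul_eq_mul]
      refine Nat.mul_le_mul_right _ ((card_le_univ S).trans ?_)
      rw [Fintype.card_fin]
    have hdeg : (Pe - Po).natDegree ≤ m * D :=
      (natDegree_sub_le _ _).trans (max_le (hd _) (hd _))
    rw [sum_comm]
    have h1 : ∀ t : ZMod p, ‖∑ χ : DirichletCharacter ℂ p, tm χ G V t‖ ≤
        if Pe.eval t = Po.eval t then (p : ℝ) else 0 := by
      intro t
      have e : ∀ χ : DirichletCharacter ℂ p, tm χ G V t =
          χ (Pe.eval t) * (starRingEnd ℂ) (χ (Po.eval t)) := fun χ => tm_split χ G V t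
      rw [sum_congr rfl fun χ _ => e χ]
      exact char_orth _ _
    refine (norm_sum_le _ _).trans ((sum_le_sum fun t _ => h1 t).trans ?_)
    rw [← sum_filter, sum_const, nsmul_eq_mul]
    refine mul_le_mul_of_nonneg_right ?_ (Nat.cast_nonneg _)
    have h2 : (univ.filter fun t : ZMod p => Pe.eval t = Po.eval t) ⊆ (Pe - Po).roots.toFinset := by
      intro t ht
      rw [Multiset.mem_toFinset, mem_roots hne, IsRoot, eval_sub, sub_eq_zero]
      exact (mem_filter.1 ht).2
    have h3 := (card_le_card h2).trans ((Multiset.toFinset_card_le _).trans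
      ((card_roots' _).trans hdeg))
    exact_mod_cast h3

open Classical in
theorem sum_trace_pair (G : ι → (ZMod p)[X]) (D : ℕ)
    (hG : ∀ i, (G i).natDegree ≤ D) (n : ℕ) (hn : n ≠ 0) :
    ‖∑ χ : DirichletCharacter ℂ p, ∑ t : ZMod p, ((Km χ G t * (Km χ G t)ᴴ) ^ n).trace‖ ≤
      (p : ℝ) ^ 2 *
        (Set.ncard {V : Fin (2 * n + 1) → ι | Deg (Rts G) (rt G) (Bd G) V} : ℝ) +
      (2 * n * D : ℕ) * (p : ℝ) * (Fintype.card ι : ℝ) ^ (2 * n) := by
  have hpp : p.Prime := Fact.out
  have hp0 : (0 : ℝ) < p := by exact_mod_cast hpp.pos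
  have hcard : (Fintype.card (DirichletCharacter ℂ p) : ℝ) ≤ p := by
    have h1 : Fintype.card (DirichletCharacter ℂ p) = p.totient := by
      rw [← Nat.card_eq_fintype_card]
      exact DirichletCharacter.card_eq_totient_of_hasEnoughRootsOfUnity ℂ p
    rw [h1]
    exact_mod_cast Nat.totient_le p
  have e1 : ∑ χ : DirichletCharacter ℂ p, ∑ t : ZMod p, ((Km χ G t * (Km χ G t)ᴴ) ^ n).trace =
      ∑ V : Fin (2 * n + 1) → ι,
      if V 0 = V (Fin.last (2 * n)) then
        ∑ χ : DirichletCharacter ℂ p, ∑ t : ZMod p, tm χ G V t else 0 := by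
    simp_rw [trace_eq]
    have e2 : ∀ χ : DirichletCharacter ℂ p, ∑ t : ZMod p, ∑ V : Fin (2 * n + 1) → ι,
        (if V 0 = V (Fin.last (2 * n)) then tm χ G V t else 0) =
        ∑ V : Fin (2 * n + 1) → ι, ∑ t : ZMod p,
        (if V 0 = V (Fin.last (2 * n)) then tm χ G V t else 0) := fun χ => sum_comm
    rw [sum_congr rfl fun χ _ => e2 χ, sum_comm]
    refine sum_congr rfl fun V _ => ?_
    split_ifs
    · rfl
    · simp
  have e2 : ∀ V : Fin (2 * n + 1) → ι,
      ‖if V 0 = V (Fin.last (2 * n)) then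
        ∑ χ : DirichletCharacter ℂ p, ∑ t : ZMod p, tm χ G V t else 0‖ ≤
        (if Deg (Rts G) (rt G) (Bd G) V then (p : ℝ) ^ 2 else 0) +
        (if V 0 = V (Fin.last (2 * n)) then (2 * n * D : ℕ) * (p : ℝ) else 0) := by
    intro V
    by_cases h : V 0 = V (Fin.last (2 * n))
    · rw [if_pos h, if_pos h]
      by_cases hd : Deg (Rts G) (rt G) (Bd G) V
      · rw [if_pos hd]
        have h1 : ∀ χ : DirichletCharacter ℂ p, ‖∑ t : ZMod p, tm χ G V t‖ ≤ p := by
          intro χ
          refine (norm_sum_le _ _).trans ((sum_le_sum fun t _ => tm_norm χ G V t).trans ?_)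
          rw [sum_const, card_univ, nsmul_eq_mul, mul_one, ZMod.card]
        have h3 : ‖∑ χ : DirichletCharacter ℂ p, ∑ t : ZMod p, tm χ G V t‖ ≤ (p : ℝ) ^ 2 := by
          refine (norm_sum_le _ _).trans ((sum_le_sum fun χ _ => h1 χ).trans ?_)
          rw [sum_const, card_univ, nsmul_eq_mul, sq]
          exact mul_le_mul_of_nonneg_right hcard hp0.le
        have h2 : 0 ≤ ((2 * n * D : ℕ) : ℝ) * (p : ℝ) := by positivity
        linarith
      · rw [if_neg hd, zero_add]
        exact term_pair G D hG V hd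
    · rw [if_neg h, if_neg h, norm_zero, add_zero]
      split_ifs <;> positivity
  rw [e1]
  refine (norm_sum_le _ _).trans ((sum_le_sum fun V _ => e2 V).trans ?_)
  rw [sum_add_distrib]
  refine add_le_add (le_of_eq ?_) ?_
  · rw [← sum_filter, sum_const, nsmul_eq_mul, mul_comm, Set.ncard_eq_toFinset_card',
      Set.toFinset_ofPred]
  · rw [← sum_filter, sum_const, nsmul_eq_mul, mul_comm]
    refine mul_le_mul_of_nonneg_left ?_ (by positivity)
    have h1 := closed_card (ι := ι) (2 * n) (by omega)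
    exact_mod_cast h1

end

end Pool.Agent.K7.H77.PF
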