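import Pool.Agent.K7.H77.PF.Pair

/-! # Families of polynomials: almost all parameters -/

set_option autoImplicit false
set_option linter.unusedSectionVars false

namespace Pool.Agent.K7.H77.PF

open Finset Matrix Polynomial
open scoped ComplexOrder

theorem exists_large (C η : ℝ) (hη : 0 < η) : ∃ p₀ : ℕ, 2 ≤ p₀ ∧ ∀ p : ℕ, p₀ ≤ p →
    C ≤ (p : ℝ) ^ η := by
  have h := (tendsto_rpow_atTop hη).comp tendsto_natCast_atTop_atTop
  obtain ⟨N, hN⟩ := Filter.eventually_atTop.1 (h.eventually_ge_atTop C)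
  exact ⟨max N 2, le_max_right _ _, fun p hp => hN p ((le_max_left _ _).trans hp)⟩

theorem count_le {α : Type*} [Fintype α] (S : Set α) (T : α → ℝ) (hT : ∀ a, 0 ≤ T a) (lam : ℝ)
    (h : ∀ a ∈ S, lam ≤ T a) : (S.ncard : ℝ) * lam ≤ ∑ a, T a := by
  classical
  rw [Set.ncard_eq_toFinset_card', ← nsmul_eq_mul, ← sum_const]
  refine (sum_le_sum (g := T) fun a ha => h a (Set.mem_toFinset.1 ha)).trans ?_
  exact sum_le_sum_of_subset_of_nonneg (subset_univ _) fun a _ _ => hT a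

section

variable {p : ℕ} [Fact p.Prime]
variable {ι : Type*} [Fintype ι] [DecidableEq ι]

/-- for this character and this parameter some bilinear form with the kernel
`χ (G i (t) - G j (t))` is large -/
def Large (τ : ℝ) (χ : DirichletCharacter ℂ p) (G : ι → (ZMod p)[X]) (t : ZMod p) : Prop :=
  ∃ f g : ι → ℂ, (p : ℝ) ^ (-τ) * (Fintype.card ι : ℝ) *
    (Real.sqrt (∑ i, ‖f i‖ ^ 2) * Real.sqrt (∑ i, ‖g i‖ ^ 2)) <
      ‖∑ i, ∑ j, f i * g j * χ ((G i).eval t - (G j).eval t)‖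

theorem trace_nonneg (K : Matrix ι ι ℂ) (n : ℕ) : 0 ≤ (((K * Kᴴ) ^ n).trace).re := by
  have h1 : ((K * Kᴴ) ^ n).PosSemidef := (posSemidef_self_mul_conjTranspose K).pow n
  have h2 := h1.trace_nonneg
  exact (Complex.le_def.1 h2).1

theorem large_trace (τ : ℝ) (χ : DirichletCharacter ℂ p) (G : ι → (ZMod p)[X]) (t : ZMod p)
    (n : ℕ) (hn : n ≠ 0) (h : Large τ χ G t) :
    ((p : ℝ) ^ (-τ) * (Fintype.card ι : ℝ)) ^ (2 * n) ≤
      (((Km χ G t * (Km χ G t)ᴴ) ^ n).trace).re := by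
  obtain ⟨f, g, hfg⟩ := h
  have hb := bilin_pow (Km χ G t) n hn f g
  have e : ∑ i, ∑ j, f i * g j * Km χ G t i j =
      ∑ i, ∑ j, f i * g j * χ ((G i).eval t - (G j).eval t) := by
    refine sum_congr rfl fun i _ => sum_congr rfl fun j _ => ?_
    unfold Km
    rw [Matrix.of_apply, eval_sub]
  rw [e] at hb
  set S := ‖∑ i, ∑ j, f i * g j * χ ((G i).eval t - (G j).eval t)‖ with hS
  set a := ∑ i, ‖f i‖ ^ 2 with ha
  set b := ∑ i, ‖g i‖ ^ 2 with hbb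
  have ha0 : 0 ≤ a := sum_nonneg fun i _ => by positivity
  have hb0 : 0 ≤ b := sum_nonneg fun i _ => by positivity
  set T := (((Km χ G t * (Km χ G t)ᴴ) ^ n).trace).re with hT
  have hT0 : 0 ≤ T := trace_nonneg _ n
  set lam := (p : ℝ) ^ (-τ) * (Fintype.card ι : ℝ) with hlam
  have hlam0 : 0 ≤ lam := by positivity
  have hS0 : 0 < S := lt_of_le_of_lt (by positivity) hfg
  have hab : 0 < a ^ n * b ^ n := by
    by_contra hcon
    have h0 : a ^ n * b ^ n = 0 := le_antisymm (not_lt.1 hcon) (by positivity)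
    rw [h0, zero_mul] at hb
    have : 0 < S ^ (2 * n) := pow_pos hS0 _
    linarith
  have h1 : (lam * (Real.sqrt a * Real.sqrt b)) ^ (2 * n) ≤ S ^ (2 * n) :=
    pow_le_pow_left₀ (by positivity) hfg.le _
  have h2 : (lam * (Real.sqrt a * Real.sqrt b)) ^ (2 * n) = lam ^ (2 * n) * (a ^ n * b ^ n) := by
    have e1 : (Real.sqrt a) ^ (2 * n) = a ^ n := by rw [pow_mul, Real.sq_sqrt ha0]
    have e2 : (Real.sqrt b) ^ (2 * n) = b ^ n := by rw [pow_mul, Real.sq_sqrt hb0]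
    rw [mul_pow lam, mul_pow (Real.sqrt a), e1, e2]
  rw [h2] at h1
  have h3 : lam ^ (2 * n) * (a ^ n * b ^ n) ≤ T * (a ^ n * b ^ n) := by
    refine h1.trans (hb.trans (le_of_eq ?_))
    ring
  exact le_of_mul_le_mul_right h3 hab

/-- the number of degenerate walks with `m` edges -/
noncomputable def dcount (G : ι → (ZMod p)[X]) (m : ℕ) : ℕ :=
  Set.ncard {V : Fin (m + 1) → ι | Deg (Rts G) (rt G) (Bd G) V}

theorem dcount_le (G : ι → (ZMod p)[X]) (D : ℕ) (hG : ∀ i, (G i).natDegree ≤ D) (c : ℝ) (n₁ : ℕ)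
    (hN : 0 < Fintype.card ι)
    (hc : (1 + ((D + 1) * (2 * n₁)) * (D + 1) : ℕ) ≤ (Fintype.card ι : ℝ) ^ c)
    (h1 : ∀ i, (Set.ncard {j : ι | Bd G (i, j)} : ℝ) ≤ (Fintype.card ι : ℝ) ^ (1 - c))
    (h2 : ∀ v i, (Set.ncard {j : ι | v ∈ Rts G (i, j)} : ℝ) ≤ (Fintype.card ι : ℝ) ^ (1 - c)) :
    (dcount G (2 * ((D + 1) * n₁)) : ℝ) ≤
      (2 ^ (2 * ((D + 1) * n₁)) * ((1 + ((D + 1) * (2 * n₁)) * (D + 1) : ℕ) : ℝ) ^ (2 * n₁)) *
      (Fintype.card ι : ℝ) ^ (2 * ((D + 1) * n₁)) * (Fintype.card ι : ℝ) ^ (1 - 2 * n₁ * c) := by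
  classical
  set N : ℝ := (Fintype.card ι : ℝ) with hNd
  have hN0 : 0 < N := by rw [hNd]; exact_mod_cast hN
  set C₁ : ℕ := 1 + ((D + 1) * (2 * n₁)) * (D + 1) with hC₁
  have hC₁0 : (0 : ℝ) < C₁ := by rw [hC₁]; positivity
  have hL : ∀ {S : Set ι}, (S.ncard : ℝ) ≤ N ^ (1 - c) → S.ncard ≤ ⌊N ^ (1 - c)⌋₊ :=
    fun h => Nat.le_floor h
  have h3 := card_Deg (Rts G) (rt G) (Bd G) D ⌊N ^ (1 - c)⌋₊ (Rts_card G D hG) (rt_mem G)
    (fun i => hL (h1 i)) (fun v i => hL (h2 v i)) (2 * n₁) hN (C₁ * N ^ (1 - c))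
    (by positivity) (by
      have : N = N ^ c * N ^ (1 - c) := by
        rw [← Real.rpow_add hN0]
        norm_num
      rw [← hNd]
      calc (C₁ : ℝ) * N ^ (1 - c) ≤ N ^ c * N ^ (1 - c) :=
            mul_le_mul_of_nonneg_right hc (by positivity)
        _ = N := this.symm) (by
      rw [Nat.cast_mul, mul_comm]
      exact mul_le_mul_of_nonneg_left (Nat.floor_le (by positivity)) (Nat.cast_nonneg _))
  have e : (D + 1) * (2 * n₁) = 2 * ((D + 1) * n₁) := by ring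
  change (dcount G ((D + 1) * (2 * n₁)) : ℝ) ≤ _ at h3
  rw [← hNd] at h3
  rw [e] at h3
  refine h3.trans (le_of_eq ?_)
  have e2 : (C₁ * N ^ (1 - c)) ^ (2 * n₁) = (C₁ : ℝ) ^ (2 * n₁) * N ^ ((1 - c) * (2 * n₁)) := by
    rw [mul_pow, Real.rpow_mul hN0.le]
    congr 1
    rw [← Real.rpow_natCast]
    push_cast
    rfl
  have e3 : N * N ^ (D * (2 * n₁)) * N ^ ((1 - c) * (2 * n₁)) =
      N ^ (2 * ((D + 1) * n₁)) * N ^ (1 - 2 * n₁ * c) := by
    have h4 : N * N ^ (D * (2 * n₁)) * N ^ ((1 - c) * (2 * n₁)) =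
        N ^ ((1 : ℝ) + ((D * (2 * n₁) : ℕ) : ℝ) + (1 - c) * (2 * n₁)) := by
      rw [Real.rpow_add hN0, Real.rpow_add hN0, Real.rpow_one, Real.rpow_natCast]
    have h5 : N ^ (2 * ((D + 1) * n₁)) * N ^ (1 - 2 * n₁ * c) =
        N ^ (((2 * ((D + 1) * n₁) : ℕ) : ℝ) + (1 - 2 * n₁ * c)) := by
      rw [Real.rpow_add hN0, Real.rpow_natCast]
    rw [h4, h5]
    congr 1
    push_cast
    ring
  rw [e2]
  calc N * 2 ^ (2 * ((D + 1) * n₁)) * N ^ (D * (2 * n₁)) *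
        ((C₁ : ℝ) ^ (2 * n₁) * N ^ ((1 - c) * (2 * n₁))) =
      (2 ^ (2 * ((D + 1) * n₁)) * (C₁ : ℝ) ^ (2 * n₁)) *
        (N * N ^ (D * (2 * n₁)) * N ^ ((1 - c) * (2 * n₁))) := by ring
    _ = _ := by rw [e3]; ring

end

/-- almost all parameters, for every character and for all the characters together -/
theorem family (δ c ε : ℝ) (hδ : 0 < δ) (hc : 0 < c) (hε : 0 < ε) (D : ℕ) :
    ∃ τ : ℝ, 0 < τ ∧ ∃ p₀ : ℕ, ∀ (p : ℕ) [Fact p.Prime], p₀ ≤ p →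
      ∀ (ι : Type) [Fintype ι] [DecidableEq ι] (G : ι → (ZMod p)[X]),
        (∀ i, (G i).natDegree ≤ D) → (p : ℝ) ^ δ < (Fintype.card ι : ℝ) →
        (∀ i, (Set.ncard {j : ι | Bd G (i, j)} : ℝ) ≤ (Fintype.card ι : ℝ) ^ (1 - c)) →
        (∀ v i, (Set.ncard {j : ι | v ∈ Rts G (i, j)} : ℝ) ≤ (Fintype.card ι : ℝ) ^ (1 - c)) →
        (∀ χ : DirichletCharacter ℂ p, χ ≠ 1 →
          (Set.ncard {t : ZMod p | Large τ χ G t} : ℝ) ≤ (p : ℝ) ^ (1 / 2 + ε)) ∧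
        (Set.ncard {q : ZMod p × DirichletCharacter ℂ p | Large τ q.2 G q.1} : ℝ) ≤
          (p : ℝ) ^ (1 + ε) := by
  obtain ⟨n₁, hn₁⟩ : ∃ n₁ : ℕ, (1 / δ + 1) / (2 * c) < n₁ := exists_nat_gt _
  have hn₁0 : 0 < n₁ := by
    have : (0 : ℝ) < n₁ := lt_trans (by positivity) hn₁
    exact_mod_cast this
  have hn₁' : 1 ≤ δ * (2 * n₁ * c - 1) := by
    rw [div_lt_iff₀ (by positivity)] at hn₁
    have h1 : 1 / δ ≤ 2 * n₁ * c - 1 := by linarith
    calc (1 : ℝ) = δ * (1 / δ) := by field_simp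
      _ ≤ _ := mul_le_mul_of_nonneg_left h1 hδ.le
  set n : ℕ := (D + 1) * n₁ with hn
  have hn0 : n ≠ 0 := by
    rw [hn]
    positivity
  have hnr : (0 : ℝ) < n := by
    have : 0 < n := Nat.pos_of_ne_zero hn0
    exact_mod_cast this
  set C₁ : ℕ := 1 + ((D + 1) * (2 * n₁)) * (D + 1) with hC₁
  set C₂ : ℝ := 2 ^ (2 * n) * (C₁ : ℝ) ^ (2 * n₁) with hC₂
  have hC₂0 : 0 ≤ C₂ := by positivity
  set C₃ : ℝ := C₂ + (2 * n * D : ℕ) with hC₃
  have hC₃0 : 0 ≤ C₃ := by positivity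
  set τ : ℝ := ε / (4 * n) with hτ
  have hτ0 : 0 < τ := by positivity
  obtain ⟨p₁, hp₁2, hp₁⟩ := exists_large (C₁ : ℝ) (δ * c) (by positivity)
  obtain ⟨p₂, -, hp₂⟩ := exists_large C₃ (ε / 2) (by positivity)
  refine ⟨τ, hτ0, max p₁ p₂, fun p _ hp ι _ _ G hG hNδ h1 h2 => ?_⟩
  have hpp : p.Prime := Fact.out
  have hp0 : (0 : ℝ) < p := by exact_mod_cast hpp.pos
  have hp1 : (1 : ℝ) ≤ p := by exact_mod_cast hpp.one_lt.le
  have hp1' := hp₁ p ((le_max_left _ _).trans hp)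
  have hp2' := hp₂ p ((le_max_right _ _).trans hp)
  set N : ℝ := (Fintype.card ι : ℝ) with hN
  have hN0 : 0 < N := lt_trans (by positivity) hNδ
  have hNn : 0 < Fintype.card ι := by
    rw [hN] at hN0
    exact_mod_cast hN0
  have hNc : (C₁ : ℝ) ≤ N ^ c := by
    refine hp1'.trans ?_
    rw [Real.rpow_mul hp0.le]
    exact Real.rpow_le_rpow (by positivity) hNδ.le hc.le
  have hd := dcount_le G D hG c n₁ hNn hNc h1 h2
  rw [← hN, ← hn, ← hC₁] at hd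
  change (dcount G (2 * n) : ℝ) ≤ C₂ * N ^ (2 * n) * N ^ (1 - 2 * n₁ * c) at hd
  have hNp : N ^ (1 - 2 * n₁ * c) ≤ (p : ℝ)⁻¹ := by
    have h3 : (0 : ℝ) ≤ 2 * n₁ * c - 1 := by
      by_contra hcon
      push Not at hcon
      have : δ * (2 * n₁ * c - 1) < 0 := mul_neg_of_pos_of_neg hδ hcon
      linarith
    have h4 : N ^ (1 - 2 * n₁ * c) = (N ^ (2 * n₁ * c - 1))⁻¹ := by
      rw [← Real.rpow_neg hN0.le]
      congr 1
      ring
    rw [h4]
    apply inv_anti₀ hp0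
    calc (p : ℝ) = (p : ℝ) ^ (1 : ℝ) := (Real.rpow_one _).symm
      _ ≤ (p : ℝ) ^ (δ * (2 * n₁ * c - 1)) := Real.rpow_le_rpow_of_exponent_le hp1 hn₁'
      _ = ((p : ℝ) ^ δ) ^ (2 * n₁ * c - 1) := Real.rpow_mul hp0.le _ _
      _ ≤ N ^ (2 * n₁ * c - 1) := Real.rpow_le_rpow (by positivity) hNδ.le h3
  have hd' : (p : ℝ) * (dcount G (2 * n) : ℝ) ≤ C₂ * N ^ (2 * n) := by
    calc (p : ℝ) * (dcount G (2 * n) : ℝ) ≤ p * (C₂ * N ^ (2 * n) * N ^ (1 - 2 * n₁ * c)) :=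
          mul_le_mul_of_nonneg_left hd hp0.le
      _ ≤ p * (C₂ * N ^ (2 * n) * (p : ℝ)⁻¹) := by
          refine mul_le_mul_of_nonneg_left (mul_le_mul_of_nonneg_left hNp ?_) hp0.le
          positivity
      _ = C₂ * N ^ (2 * n) := by
          field_simp
  have hlam : ((p : ℝ) ^ (-τ) * N) ^ (2 * n) = (p : ℝ) ^ (-(ε / 2)) * N ^ (2 * n) := by
    rw [mul_pow, ← Real.rpow_natCast ((p : ℝ) ^ (-τ)), ← Real.rpow_mul hp0.le]
    congr 2
    rw [hτ]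
    push_cast
    field_simp
    ring
  have hsq1 : (1 : ℝ) ≤ Real.sqrt p := by
    rw [Real.one_le_sqrt]
    exact hp1
  have fin : ∀ x M : ℝ, 0 ≤ M → x * ((p : ℝ) ^ (-τ) * N) ^ (2 * n) ≤ C₃ * M * N ^ (2 * n) →
      x ≤ M * (p : ℝ) ^ ε := by
    intro x M hM hx
    rw [hlam] at hx
    have h3 : 0 < N ^ (2 * n) := by positivity
    have h4 : x * (p : ℝ) ^ (-(ε / 2)) ≤ C₃ * M := by
      refine le_of_mul_le_mul_right ?_ h3
      calc x * (p : ℝ) ^ (-(ε / 2)) * N ^ (2 * n) = x * ((p : ℝ) ^ (-(ε / 2)) * N ^ (2 * n)) := by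
            ring
        _ ≤ _ := hx
    calc x = x * (p : ℝ) ^ (-(ε / 2)) * (p : ℝ) ^ (ε / 2) := by
          rw [mul_assoc, ← Real.rpow_add hp0]
          norm_num
      _ ≤ C₃ * M * (p : ℝ) ^ (ε / 2) := mul_le_mul_of_nonneg_right h4 (by positivity)
      _ ≤ (p : ℝ) ^ (ε / 2) * M * (p : ℝ) ^ (ε / 2) := by gcongr
      _ = M * ((p : ℝ) ^ (ε / 2) * (p : ℝ) ^ (ε / 2)) := by ring
      _ = M * (p : ℝ) ^ ε := by
          rw [← Real.rpow_add hp0]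
          congr 2
          ring
  constructor
  · intro χ hχ
    have h3 := sum_trace χ hχ G D hG n hn0
    have h4 := count_le {t : ZMod p | Large τ χ G t}
      (fun t => (((Km χ G t * (Km χ G t)ᴴ) ^ n).trace).re) (fun t => trace_nonneg _ n)
      (((p : ℝ) ^ (-τ) * N) ^ (2 * n)) (fun t ht => large_trace τ χ G t n hn0 ht)
    have h5 : ∑ t : ZMod p, (((Km χ G t * (Km χ G t)ᴴ) ^ n).trace).re ≤
        C₃ * Real.sqrt p * N ^ (2 * n) := by
      rw [← Complex.re_sum]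
      refine (Complex.re_le_norm _).trans (h3.trans ?_)
      rw [ZMod.card]
      change (p : ℝ) * (dcount G (2 * n) : ℝ) + (2 * n * D : ℕ) * Real.sqrt p * N ^ (2 * n) ≤ _
      have h6 : C₂ * N ^ (2 * n) ≤ C₂ * Real.sqrt p * N ^ (2 * n) := by
        refine mul_le_mul_of_nonneg_right ?_ (by positivity)
        nlinarith
      calc _ ≤ C₂ * Real.sqrt p * N ^ (2 * n) + (2 * n * D : ℕ) * Real.sqrt p * N ^ (2 * n) :=
            add_le_add (hd'.trans h6) le_rfl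
        _ = _ := by rw [hC₃]; ring
    have h6 := fin _ _ (Real.sqrt_nonneg p) (h4.trans h5)
    refine h6.trans (le_of_eq ?_)
    rw [Real.sqrt_eq_rpow, ← Real.rpow_add hp0]
  · have h3 := sum_trace_pair G D hG n hn0
    have h4 := count_le {q : ZMod p × DirichletCharacter ℂ p | Large τ q.2 G q.1}
      (fun q => (((Km q.2 G q.1 * (Km q.2 G q.1)ᴴ) ^ n).trace).re) (fun q => trace_nonneg _ n)
      (((p : ℝ) ^ (-τ) * N) ^ (2 * n)) (fun q hq => large_trace τ q.2 G q.1 n hn0 hq)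
    have h5 : ∑ q : ZMod p × DirichletCharacter ℂ p,
        (((Km q.2 G q.1 * (Km q.2 G q.1)ᴴ) ^ n).trace).re ≤ C₃ * p * N ^ (2 * n) := by
      rw [Fintype.sum_prod_type, sum_comm]
      have e1 : ∑ χ : DirichletCharacter ℂ p, ∑ t : ZMod p,
          (((Km χ G t * (Km χ G t)ᴴ) ^ n).trace).re =
          (∑ χ : DirichletCharacter ℂ p, ∑ t : ZMod p,
            ((Km χ G t * (Km χ G t)ᴴ) ^ n).trace).re := by
        simp only [Complex.re_sum]
      simp only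
      rw [e1]
      refine (Complex.re_le_norm _).trans (h3.trans ?_)
      change (p : ℝ) ^ 2 * (dcount G (2 * n) : ℝ) + (2 * n * D : ℕ) * p * N ^ (2 * n) ≤ _
      calc _ = p * ((p : ℝ) * (dcount G (2 * n) : ℝ)) + (2 * n * D : ℕ) * p * N ^ (2 * n) := by ring
        _ ≤ p * (C₂ * N ^ (2 * n)) + (2 * n * D : ℕ) * p * N ^ (2 * n) :=
            add_le_add (mul_le_mul_of_nonneg_left hd' hp0.le) le_rfl
        _ = _ := by rw [hC₃]; ring
    have h6 := fin _ _ hp0.le (h4.trans h5)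
    refine h6.trans (le_of_eq ?_)
    rw [Real.rpow_add hp0, Real.rpow_one]

end Pool.Agent.K7.H77.PF
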