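import Pool.Agent.K7.H77.PF.Param

/-! # Projections of planar sets -/

set_option autoImplicit false
set_option linter.unusedSectionVars false

namespace Pool.Agent.K7.H77.PF

open Finset Matrix Polynomial

section

variable {p : ℕ} [Fact p.Prime]
variable {ι : Type*} [Fintype ι] [DecidableEq ι]

/-- a large difference sum gives a large bilinear form -/
theorem large_of_set (τ : ℝ) (hτ : 0 < τ) (χ : DirichletCharacter ℂ p) (G : ι → (ZMod p)[X])
    (t : ZMod p) (A : Finset (ZMod p)) (hA0 : A.Nonempty) (hA : ∀ a ∈ A, ∃ i, (G i).eval t = a)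
    (hN : (Fintype.card ι : ℝ) ≤ (p : ℝ) ^ (τ / 3) * A.card)
    (hbig : (A.card : ℝ) ^ (2 - τ / 3) ≤ ‖∑ a ∈ A, ∑ b ∈ A, χ (a - b)‖) : Large τ χ G t := by
  classical
  have hpp : p.Prime := Fact.out
  have hp0 : (0 : ℝ) < p := by exact_mod_cast hpp.pos
  have hp1 : (1 : ℝ) < p := by exact_mod_cast hpp.one_lt
  have hAc : (0 : ℝ) < A.card := by exact_mod_cast hA0.card_pos
  have hAp : (A.card : ℝ) ≤ p := by
    have h := card_le_univ A
    rw [ZMod.card] at h
    exact_mod_cast h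
  have hne : Nonempty ι := by
    obtain ⟨a, ha⟩ := hA0
    exact ⟨(hA a ha).choose⟩
  choose! s hs using hA
  have hinj : Set.InjOn s (A : Set (ZMod p)) := by
    intro a ha b hb hab
    rw [← hs a ha, ← hs b hb, hab]
  set S : Finset ι := A.image s with hS
  have hScard : S.card = A.card := card_image_of_injOn hinj
  set f : ι → ℂ := fun i => if i ∈ S then 1 else 0 with hf
  have hnf : ∑ i, ‖f i‖ ^ 2 = A.card := by
    have h1 : ∀ i, ‖f i‖ ^ 2 = if i ∈ S then (1 : ℝ) else 0 := by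
      intro i
      rw [hf]
      simp only
      split_ifs <;> simp
    rw [sum_congr rfl fun i _ => h1 i, sum_boole, filter_mem_eq_inter, univ_inter, hScard]
  have hsum : ∑ i, ∑ j, f i * f j * χ ((G i).eval t - (G j).eval t) =
      ∑ a ∈ A, ∑ b ∈ A, χ (a - b) := by
    have h1 : ∀ g : ι → ℂ, ∑ i, f i * g i = ∑ a ∈ A, g (s a) := by
      intro g
      have h2 : ∀ i, f i * g i = if i ∈ S then g i else 0 := by
        intro i
        rw [hf]
        simp only
        split_ifs <;> simp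
      rw [sum_congr rfl fun i _ => h2 i, ← sum_filter, filter_mem_eq_inter, univ_inter, hS,
        sum_image hinj]
    have h3 : ∀ i, ∑ j, f i * f j * χ ((G i).eval t - (G j).eval t) =
        f i * ∑ j, f j * χ ((G i).eval t - (G j).eval t) := by
      intro i
      rw [mul_sum]
      exact sum_congr rfl fun j _ => by ring
    rw [sum_congr rfl fun i _ => h3 i, h1]
    refine sum_congr rfl fun a ha => ?_
    rw [h1]
    refine sum_congr rfl fun b hb => ?_
    rw [hs a ha, hs b hb]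
  refine ⟨f, f, ?_⟩
  rw [hnf, hsum, Real.mul_self_sqrt hAc.le]
  refine lt_of_lt_of_le ?_ hbig
  have h4 : (A.card : ℝ) ^ (2 - τ / 3) = (A.card : ℝ) * A.card * (A.card : ℝ) ^ (-(τ / 3)) := by
    rw [sub_eq_add_neg, Real.rpow_add hAc, Real.rpow_two, sq]
  have h5 : (p : ℝ) ^ (-(τ / 3)) ≤ (A.card : ℝ) ^ (-(τ / 3)) :=
    Real.rpow_le_rpow_of_nonpos hAc hAp (by linarith)
  calc (p : ℝ) ^ (-τ) * (Fintype.card ι : ℝ) * A.card ≤
        (p : ℝ) ^ (-τ) * ((p : ℝ) ^ (τ / 3) * A.card) * A.card := by gcongr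
    _ = (A.card : ℝ) * A.card * ((p : ℝ) ^ (-τ) * (p : ℝ) ^ (τ / 3)) := by ring
    _ = (A.card : ℝ) * A.card * (p : ℝ) ^ (-τ + τ / 3) := by rw [← Real.rpow_add hp0]
    _ < (A.card : ℝ) * A.card * (p : ℝ) ^ (-(τ / 3)) := by
        refine mul_lt_mul_of_pos_left ?_ (by positivity)
        exact Real.rpow_lt_rpow_of_exponent_lt hp1 (by linarith)
    _ ≤ _ := by
        rw [h4]
        exact mul_le_mul_of_nonneg_left h5 (by positivity)

/-- the affine function of a point -/
noncomputable def lin (P : Finset (ZMod p × ZMod p)) (u : {u // u ∈ P}) : (ZMod p)[X] :=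
  C u.1.1 + C u.1.2 * X

theorem lin_deg (P : Finset (ZMod p × ZMod p)) (u : {u // u ∈ P}) : (lin P u).natDegree ≤ 1 := by
  unfold lin
  refine (natDegree_add_le _ _).trans (max_le ?_ ?_)
  · rw [natDegree_C]; omega
  · exact (natDegree_C_mul_le _ _).trans natDegree_X_le

theorem lin_eval (P : Finset (ZMod p × ZMod p)) (u : {u // u ∈ P}) (t : ZMod p) :
    (lin P u).eval t = u.1.1 + t * u.1.2 := by
  unfold lin
  rw [eval_add, eval_mul, eval_C, eval_C, eval_X]
  ring

theorem lin_sub (P : Finset (ZMod p × ZMod p)) (u w : {u // u ∈ P}) :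
    lin P u - lin P w = C (u.1.1 - w.1.1) + C (u.1.2 - w.1.2) * X := by
  unfold lin
  rw [C_sub, C_sub]
  ring

/-- points on different horizontal lines give a simple root -/
theorem lin_bad (P : Finset (ZMod p × ZMod p)) (u w : {u // u ∈ P}) (h : Bd (lin P) (u, w)) :
    w.1.2 = u.1.2 := by
  by_contra hne
  apply h
  set φ := algebraMap (ZMod p) (AlgebraicClosure (ZMod p)) with hφ
  set a := φ (u.1.1 - w.1.1) with ha
  set b := φ (u.1.2 - w.1.2) with hb
  have hb0 : b ≠ 0 := by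
    rw [hb, _root_.map_ne_zero]
    exact sub_ne_zero.2 (Ne.symm hne)
  have e : dp (lin P) (u, w) = C b * (X - C (-(a / b))) := by
    unfold dp
    rw [lin_sub, Polynomial.map_add, Polynomial.map_mul, map_C, map_C, map_X, ← hφ, ← ha, ← hb,
      mul_sub, ← C_mul]
    have : b * -(a / b) = -a := by field_simp
    rw [this, C_neg]
    ring
  refine ⟨-(a / b), ?_⟩
  rw [e, rootMultiplicity_mul (mul_ne_zero (C_ne_zero.2 hb0) (X_sub_C_ne_zero _)),
    rootMultiplicity_C, rootMultiplicity_X_sub_C_self]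

/-- points that coincide in a direction are on a line -/
theorem lin_root (P : Finset (ZMod p × ZMod p)) (u : {u // u ∈ P})
    (v : AlgebraicClosure (ZMod p)) (w₀ : {u // u ∈ P}) (h₀ : v ∈ Rts (lin P) (u, w₀)) :
    ∃ t : ZMod p, ∀ w : {u // u ∈ P}, v ∈ Rts (lin P) (u, w) →
      1 * w.1.1 + t * w.1.2 = u.1.1 + t * u.1.2 := by
  set φ := algebraMap (ZMod p) (AlgebraicClosure (ZMod p)) with hφ
  have key : ∀ w : {u // u ∈ P}, v ∈ Rts (lin P) (u, w) →
      φ (u.1.1 - w.1.1) + φ (u.1.2 - w.1.2) * v = 0 ∧ u ≠ w := by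
    intro w hw
    obtain ⟨h1, h2⟩ := (mem_Rts _ _ _).1 hw
    unfold dp at h2
    rw [lin_sub, Polynomial.map_add, Polynomial.map_mul, map_C, map_C, map_X, eval_add, eval_mul,
      eval_C, eval_C, eval_X] at h2
    exact ⟨h2, fun h => h1 (by rw [h])⟩
  obtain ⟨h1, h2⟩ := key w₀ h₀
  have hb0 : u.1.2 - w₀.1.2 ≠ 0 := by
    intro h3
    rw [h3, map_zero, zero_mul, add_zero, map_eq_zero] at h1
    apply h2
    apply Subtype.ext
    exact Prod.ext (sub_eq_zero.1 h1) (sub_eq_zero.1 h3)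
  set t : ZMod p := -((u.1.1 - w₀.1.1) / (u.1.2 - w₀.1.2)) with ht
  have hφb : φ (u.1.2 - w₀.1.2) ≠ 0 := by rwa [_root_.map_ne_zero]
  have hv : v = φ t := by
    rw [ht, map_neg, map_div₀]
    field_simp
    linear_combination h1
  refine ⟨t, fun w hw => ?_⟩
  obtain ⟨h3, -⟩ := key w hw
  rw [hv, ← map_mul, ← map_add, map_eq_zero] at h3
  linear_combination -h3

end

/-- projections of planar sets -/
theorem planar (δ c ε : ℝ) (hδ : 0 < δ) (hc : 0 < c) (hε : 0 < ε) :
    ∃ τ : ℝ, 0 < τ ∧ ∃ p₀ : ℕ, ∀ (p : ℕ) [Fact p.Prime], p₀ ≤ p →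
      ∀ P : Finset (ZMod p × ZMod p), (p : ℝ) ^ δ < (P.card : ℝ) →
        (∀ α β γ : ZMod p, (α ≠ 0 ∨ β ≠ 0) →
          ((P.filter (fun z => α * z.1 + β * z.2 = γ)).card : ℝ) ≤ (P.card : ℝ) ^ (1 - c)) →
        (∀ χ : DirichletCharacter ℂ p, χ ≠ 1 →
          (Set.ncard {t : ZMod p | Large τ χ (lin P) t} : ℝ) ≤ (p : ℝ) ^ (1 / 2 + ε)) ∧
        (Set.ncard {q : ZMod p × DirichletCharacter ℂ p | Large τ q.2 (lin P) q.1} : ℝ) ≤
          (p : ℝ) ^ (1 + ε) := by
  classical
  obtain ⟨τ, hτ, p₀, h⟩ := family δ c ε hδ hc hε 1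
  refine ⟨τ, hτ, p₀, fun p _ hp P hP hl => ?_⟩
  have hcard : (Fintype.card {u // u ∈ P} : ℝ) = (P.card : ℝ) := by
    rw [Fintype.card_coe]
  have hfil : ∀ (Q : ZMod p × ZMod p → Prop) [DecidablePred Q] (S : Set {u // u ∈ P}),
      (∀ w ∈ S, Q w.1) → S.ncard ≤ (P.filter Q).card := by
    intro Q _ S hS
    rw [Set.ncard_eq_toFinset_card']
    refine card_le_card_of_injOn (fun w => w.1) ?_ ?_
    · intro w hw
      have h1 := hS w (Set.mem_toFinset.1 (mem_coe.1 hw))
      exact mem_coe.2 (mem_filter.2 ⟨w.2, h1⟩)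
    · intro w _ w' _ hww
      exact Subtype.ext hww
  refine h p hp {u // u ∈ P} (lin P) (lin_deg P) (by rw [hcard]; exact hP) ?_ ?_
  · intro u
    rw [hcard]
    refine le_trans ?_ (hl 0 1 u.1.2 (Or.inr one_ne_zero))
    have h1 := hfil (fun z => 0 * z.1 + 1 * z.2 = u.1.2) {w | Bd (lin P) (u, w)} (fun w hw => by
      have := lin_bad P u w hw
      rw [zero_mul, zero_add, one_mul]
      exact this)
    exact_mod_cast h1
  · intro v u
    rw [hcard]
    by_cases hne : ∃ w₀, v ∈ Rts (lin P) (u, w₀)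
    · obtain ⟨w₀, hw₀⟩ := hne
      obtain ⟨t, ht⟩ := lin_root P u v w₀ hw₀
      refine le_trans ?_ (hl 1 t (u.1.1 + t * u.1.2) (Or.inl one_ne_zero))
      have h1 := hfil (fun z => 1 * z.1 + t * z.2 = u.1.1 + t * u.1.2)
        {w | v ∈ Rts (lin P) (u, w)} (fun w hw => ht w hw)
      exact_mod_cast h1
    · push Not at hne
      have h1 : {w | v ∈ Rts (lin P) (u, w)} = ∅ := by
        ext w
        simp only [Set.mem_ofPred_eq, Set.mem_empty_iff_false, iff_false]
        exact hne w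
      rw [h1, Set.ncard_empty]
      simp only [Nat.cast_zero]
      positivity

end Pool.Agent.K7.H77.PF
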