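import Pool.Agent.K7.H77.PF.Image2

/-! # Projections of planar sets: bilinear forms and all dense subsets -/

set_option autoImplicit false
set_option linter.unusedSectionVars false

namespace Pool.Agent.K7.H77.PF

open Finset Matrix Polynomial

theorem lin_injective {p : ℕ} [Fact p.Prime] (P : Finset (ZMod p × ZMod p)) :
    Function.Injective (lin P) := by
  intro u w h
  have h0 : (lin P u).eval 0 = (lin P w).eval 0 := by rw [h]
  have h1 : (lin P u).eval 1 = (lin P w).eval 1 := by rw [h]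
  rw [lin_eval, lin_eval] at h0 h1
  simp only [zero_mul, add_zero, one_mul] at h0 h1
  rw [h0] at h1
  exact Subtype.ext (Prod.ext h0 (add_left_cancel h1))

/-- projections of planar sets -/
theorem planar2 (δ c ε : ℝ) (hδ : 0 < δ) (hc : 0 < c) (hε : 0 < ε) :
    ∃ τ : ℝ, 0 < τ ∧ ∃ p₀ : ℕ, ∀ (p : ℕ) [Fact p.Prime], p₀ ≤ p →
      ∀ P : Finset (ZMod p × ZMod p), (p : ℝ) ^ δ < (P.card : ℝ) →
        (∀ α β γ : ZMod p, (α ≠ 0 ∨ β ≠ 0) →
          ((P.filter (fun z => α * z.1 + β * z.2 = γ)).card : ℝ) ≤ (P.card : ℝ) ^ (1 - c)) →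
        (∀ χ : DirichletCharacter ℂ p, χ ≠ 1 →
          (Set.ncard {t : ZMod p | Exc τ χ (lin P) t} : ℝ) ≤ (p : ℝ) ^ (1 / 2 + ε)) ∧
        (Set.ncard {q : ZMod p × DirichletCharacter ℂ p | Exc τ q.2 (lin P) q.1} : ℝ) ≤
          (p : ℝ) ^ (1 + ε) := by
  classical
  obtain ⟨τ, hτ, p₀, h⟩ := family2 δ c ε hδ hc hε 1
  refine ⟨τ, hτ, p₀, fun p _ hp P hP hl => ?_⟩
  have hcard : (Fintype.card {u // u ∈ P} : ℝ) = (P.card : ℝ) := by
    rw [Fintype.card_coe]
  have hfil : ∀ (Q : ZMod p × ZMod p → Prop) [DecidablePred Q] (S : Set {u // u ∈ P}),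
      (∀ w ∈ S, Q w.1) → S.ncard ≤ (P.filter Q).card := by
    intro Q _ S hS
    rw [Set.ncard_eq_toFinset_card']
    refine card_le_card_of_injOn (fun w => w.1) ?_ ?_
    · intro w hw
      have h1 := hS w (Set.mem_toFinset.1 (mem_coe.1 hw))
      exact mem_coe.2 (mem_filter.2 ⟨w.2, h1⟩)
    · intro w _ w' _ hww
      exact Subtype.ext hww
  refine h p hp {u // u ∈ P} (lin P) (lin_injective P) (lin_deg P) (by rw [hcard]; exact hP) ?_ ?_
  · intro u
    rw [hcard]
    refine le_trans ?_ (hl 0 1 u.1.2 (Or.inr one_ne_zero))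
    have h1 := hfil (fun z => 0 * z.1 + 1 * z.2 = u.1.2) {w | Bd (lin P) (u, w)} (fun w hw => by
      have := lin_bad P u w hw
      rw [zero_mul, zero_add, one_mul]
      exact this)
    exact_mod_cast h1
  · intro v u
    rw [hcard]
    by_cases hne : ∃ w₀, v ∈ Rts (lin P) (u, w₀)
    · obtain ⟨w₀, hw₀⟩ := hne
      obtain ⟨t, ht⟩ := lin_root P u v w₀ hw₀
      refine le_trans ?_ (hl 1 t (u.1.1 + t * u.1.2) (Or.inl one_ne_zero))
      have h1 := hfil (fun z => 1 * z.1 + t * z.2 = u.1.1 + t * u.1.2)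
        {w | v ∈ Rts (lin P) (u, w)} (fun w hw => ht w hw)
      exact_mod_cast h1
    · push Not at hne
      have h1 : {w | v ∈ Rts (lin P) (u, w)} = ∅ := by
        ext w
        simp only [Set.mem_ofPred_eq, Set.mem_empty_iff_false, iff_false]
        exact hne w
      rw [h1, Set.ncard_empty]
      simp only [Nat.cast_zero]
      positivity

end Pool.Agent.K7.H77.PF
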