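import Pool.Agent.H341R2.RootBound

/-! # Power sums: bounds for the multiples of one index are enough -/

set_option autoImplicit false

namespace Pool.Agent.K7.H77.PF

open Polynomial Finset Pool.Agent.H341R2.Sharp

/-- the Newton identities between the coefficients of `a` and the power sums `S` -/
def NI (a : ℂ[X]) (S : ℕ → ℂ) : Prop :=
  ∀ n : ℕ, (n : ℂ) * a.coeff n = ∑ m ∈ Icc 1 n, a.coeff (n - m) * S m

/-- the generating function of the power sums -/
noncomputable def sgen (S : ℕ → ℂ) : PowerSeries ℂ := PowerSeries.mk fun m => if m = 0 then 0 else S m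

/-- `n a_n` -/
noncomputable def dgen (a : ℂ[X]) : PowerSeries ℂ := PowerSeries.mk fun n => (n : ℂ) * a.coeff n

theorem dgen_eq (a : ℂ[X]) : dgen a = ((X * derivative a : ℂ[X]) : PowerSeries ℂ) := by
  ext n
  rw [dgen, PowerSeries.coeff_mk, Polynomial.coeff_coe]
  cases n with
  | zero => simp
  | succ n =>
    rw [coeff_X_mul, coeff_derivative]
    push_cast
    ring

theorem NI_iff (a : ℂ[X]) (S : ℕ → ℂ) : NI a S ↔ dgen a = (a : PowerSeries ℂ) * sgen S := by
  have key : ∀ n, PowerSeries.coeff n ((a : PowerSeries ℂ) * sgen S) =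
      ∑ m ∈ Icc 1 n, a.coeff (n - m) * S m := by
    intro n
    rw [PowerSeries.coeff_mul, Nat.sum_antidiagonal_eq_sum_range_succ_mk]
    simp only [Polynomial.coeff_coe, sgen, PowerSeries.coeff_mk]
    rw [← sum_range_reflect]
    have h3 : (range (n + 1)).filter (fun m => m ≠ 0) = Icc 1 n := by
      ext m
      simp only [mem_filter, mem_range, mem_Icc]
      omega
    rw [← h3, sum_filter]
    refine sum_congr rfl fun m hm => ?_
    rw [mem_range] at hm
    have e1 : n + 1 - 1 - m = n - m := by omega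
    have e2 : n - (n - m) = m := by omega
    rw [e1, e2]
    by_cases h0 : m = 0 <;> simp [h0]
  constructor
  · intro h
    ext n
    rw [key, dgen, PowerSeries.coeff_mk]
    exact h n
  · intro h n
    rw [← key, ← h, dgen, PowerSeries.coeff_mk]

theorem NI_mul (a b : ℂ[X]) (S T : ℕ → ℂ) (h1 : NI a S) (h2 : NI b T) :
    NI (a * b) (fun m => S m + T m) := by
  rw [NI_iff] at *
  have e1 : dgen (a * b) = dgen a * (b : PowerSeries ℂ) + (a : PowerSeries ℂ) * dgen b := by
    rw [dgen_eq, dgen_eq, dgen_eq, ← Polynomial.coe_mul, ← Polynomial.coe_mul,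
      ← Polynomial.coe_add]
    congr 1
    rw [derivative_mul]
    ring
  have e2 : sgen (fun m => S m + T m) = sgen S + sgen T := by
    ext m
    simp only [sgen, map_add, PowerSeries.coeff_mk]
    split_ifs <;> simp
  rw [e1, e2, h1, h2, Polynomial.coe_mul]
  ring

theorem NI_one : NI 1 (fun _ => 0) := by
  intro n
  rw [sum_congr rfl fun m _ => mul_zero _, sum_const_zero, coeff_one]
  split_ifs with h <;> simp [h]

theorem NI_prod {κ : Type*} (s : Finset κ) (a : κ → ℂ[X]) (S : κ → ℕ → ℂ)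
    (h : ∀ i ∈ s, NI (a i) (S i)) : NI (∏ i ∈ s, a i) (fun m => ∑ i ∈ s, S i m) := by
  classical
  induction s using Finset.induction_on with
  | empty => simpa using NI_one
  | insert i s hi ih =>
    rw [prod_insert hi]
    have h1 := NI_mul _ _ _ _ (h i (mem_insert_self i s)) (ih fun j hj => h j (mem_insert_of_mem hj))
    have e : (fun m => ∑ j ∈ insert i s, S j m) = fun m => S i m + ∑ j ∈ s, S j m := by
      ext m
      rw [sum_insert hi]
    rw [e]
    exact h1

theorem coeff_scale (a : ℂ[X]) (c : ℂ) (n : ℕ) : (a.comp (C c * X)).coeff n = c ^ n * a.coeff n := by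
  rw [comp_C_mul_X_coeff, mul_comm]

theorem NI_scale (a : ℂ[X]) (S : ℕ → ℂ) (h : NI a S) (c : ℂ) :
    NI (a.comp (C c * X)) (fun m => c ^ m * S m) := by
  intro n
  rw [coeff_scale]
  have h1 := h n
  calc (n : ℂ) * (c ^ n * a.coeff n) = c ^ n * ((n : ℂ) * a.coeff n) := by ring
    _ = ∑ m ∈ Icc 1 n, c ^ n * (a.coeff (n - m) * S m) := by rw [h1, mul_sum]
    _ = _ := by
      refine sum_congr rfl fun m hm => ?_
      rw [mem_Icc] at hm
      rw [coeff_scale]
      have e : c ^ n = c ^ (n - m) * c ^ m := by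
        rw [← pow_add]
        congr 1
        omega
      rw [e]
      ring

/-- if the power sums with index divisible by `m₀` are at most `C r ^ m` then all the roots have
absolute value at least `1 / r` -/
theorem root_norm_mul (a : ℂ[X]) (ha0 : a.coeff 0 = 1) (S : ℕ → ℂ) (r C : ℝ) (hr : 0 < r)
    (hC : 0 ≤ C) (m₀ : ℕ) (hm₀ : 0 < m₀) (hS : ∀ m, 1 ≤ m → m₀ ∣ m → ‖S m‖ ≤ C * r ^ m)
    (hid : NI a S) (z : ℂ) (hz : a.eval z = 0) : 1 ≤ r * ‖z‖ := by
  have hprim := Complex.isPrimitiveRoot_exp m₀ hm₀.ne'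
  set ζ := Complex.exp (2 * Real.pi * Complex.I / m₀) with hζ
  set A : ℂ[X] := ∏ j ∈ range m₀, a.comp (Polynomial.C (ζ ^ j) * X) with hA
  have h1 : NI A (fun m => ∑ j ∈ range m₀, (ζ ^ j) ^ m * S m) :=
    NI_prod _ _ _ fun j _ => NI_scale a S hid (ζ ^ j)
  have h2 : ∀ m, ∑ j ∈ range m₀, (ζ ^ j) ^ m * S m = if m₀ ∣ m then (m₀ : ℂ) * S m else 0 := by
    intro m
    rw [← sum_mul]
    have e1 : ∑ j ∈ range m₀, (ζ ^ j) ^ m = ∑ j ∈ range m₀, (ζ ^ m) ^ j := by
      refine sum_congr rfl fun j _ => ?_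
      rw [← pow_mul, ← pow_mul, mul_comm]
    rw [e1]
    split_ifs with hd
    · have h3 : ζ ^ m = 1 := (hprim.pow_eq_one_iff_dvd m).2 hd
      rw [h3]
      simp
    · have h3 : ζ ^ m ≠ 1 := fun h => hd ((hprim.pow_eq_one_iff_dvd m).1 h)
      rw [geom_sum_eq h3, ← pow_mul, mul_comm m m₀, pow_mul, hprim.pow_eq_one, one_pow, sub_self,
        zero_div, zero_mul]
  have hA0 : A.coeff 0 = 1 := by
    rw [coeff_zero_eq_eval_zero, hA, eval_prod]
    refine prod_eq_one fun j _ => ?_
    rw [eval_comp, eval_mul, eval_C, eval_X, mul_zero, ← coeff_zero_eq_eval_zero, ha0]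
  have hAz : A.eval z = 0 := by
    rw [hA, eval_prod]
    refine prod_eq_zero (mem_range.2 hm₀) ?_
    rw [eval_comp, eval_mul, eval_C, eval_X, pow_zero, one_mul, hz]
  refine root_norm A hA0 (fun m => ∑ j ∈ range m₀, (ζ ^ j) ^ m * S m) r (m₀ * C) hr (by positivity)
    ?_ h1 z hAz
  intro m hm
  rw [h2]
  split_ifs with hd
  · rw [norm_mul, Complex.norm_natCast, mul_assoc]
    exact mul_le_mul_of_nonneg_left (hS m hm hd) (Nat.cast_nonneg _)
  · rw [norm_zero]
    positivity

/-- `coeff_one_bound` from the multiples of one index -/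
theorem coeff_one_mul (a : ℂ[X]) (ha0 : a.coeff 0 = 1) (S : ℕ → ℂ) (r C : ℝ) (hr : 0 < r)
    (hC : 0 ≤ C) (m₀ : ℕ) (hm₀ : 0 < m₀) (hS : ∀ m, 1 ≤ m → m₀ ∣ m → ‖S m‖ ≤ C * r ^ m)
    (hid : NI a S)
    (k : ℕ) (hk : a.natDegree ≤ k) : ‖a.coeff 1‖ ≤ k * r := by
  have ha : a ≠ 0 := by
    rintro rfl
    simp at ha0
  have h0 : a.eval 0 = 1 := by rw [← coeff_zero_eq_eval_zero, ha0]
  have h1 := (IsAlgClosed.splits a).eval_derivative_div_eval_of_ne_zero (x := 0)
    (by rw [h0]; exact one_ne_zero)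
  have h2 : a.derivative.eval 0 = a.coeff 1 := by
    rw [← coeff_zero_eq_eval_zero, coeff_derivative]
    simp
  rw [h0, div_one, h2] at h1
  rw [h1]
  refine (Multiset.le_sum_of_subadditive norm norm_zero.le (fun x y => norm_add_le x y) _).trans ?_
  have h3 : ((a.roots.map fun z => 1 / (0 - z)).map norm).sum ≤ (a.roots.map fun _ => r).sum := by
    rw [Multiset.map_map]
    apply Multiset.sum_map_le_sum_map
    intro z hz
    rw [mem_roots ha] at hz
    have h4 := root_norm_mul a ha0 S r C hr hC m₀ hm₀ hS hid z hz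
    have hz0 : 0 < ‖z‖ := by
      rcases (norm_nonneg z).eq_or_lt with h | h
      · rw [← h, mul_zero] at h4
        linarith
      · exact h
    simp only [Function.comp, zero_sub, norm_div, norm_one, norm_neg]
    rw [div_le_iff₀ hz0]
    exact h4
  refine h3.trans ?_
  rw [Multiset.map_const', Multiset.sum_replicate, nsmul_eq_mul]
  refine mul_le_mul_of_nonneg_right ?_ hr.le
  exact_mod_cast (card_roots' a).trans hk

end Pool.Agent.K7.H77.PF
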