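import Pool.Agent.K7.H77.PF.LA
import Pool.Agent.K7.H77.PF.Comb

/-! # Traces of products of matrices as sums over closed walks -/

set_option autoImplicit false
set_option linter.unusedSectionVars false

namespace Pool.Agent.K7.H77.PF

open Finset Matrix

section

variable {ι : Type*} [Fintype ι] [DecidableEq ι]

/-- the product of the first `m` matrices -/
noncomputable def wp (A : ℕ → Matrix ι ι ℂ) : ℕ → Matrix ι ι ℂ
  | 0 => 1
  | m + 1 => wp A m * A m

theorem wp_apply (A : ℕ → Matrix ι ι ℂ) (m : ℕ) (i j : ι) :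
    wp A m i j = ∑ V : Fin (m + 1) → ι, if V 0 = i ∧ V (Fin.last m) = j then
      ∏ k : Fin m, A k (V k.castSucc) (V k.succ) else 0 := by
  induction m generalizing j with
  | zero =>
    rw [sum_snoc]
    simp only [wp, univ_unique, sum_singleton, Matrix.one_apply]
    have h : ∀ x : ι, ((Fin.snoc (default : Fin 0 → ι) x : Fin (0 + 1) → ι) 0) = x := fun x => rfl
    have h' : ∀ x : ι, ((Fin.snoc (default : Fin 0 → ι) x : Fin (0 + 1) → ι) (Fin.last 0)) = x :=
      fun x => rfl
    simp only [h, h', univ_eq_empty, prod_empty]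
    by_cases hij : i = j
    · subst hij
      rw [if_pos rfl, sum_eq_single i]
      · simp
      · intro x _ hx
        rw [if_neg]
        rintro ⟨h1, -⟩
        exact hx h1
      · intro h1
        exact absurd (mem_univ i) h1
    · rw [if_neg hij, sum_eq_zero]
      intro x _
      rw [if_neg]
      rintro ⟨h1, h2⟩
      exact hij (h1.symm.trans h2)
  | succ m ih =>
    rw [sum_snoc]
    have e1 : wp A (m + 1) i j = ∑ l, wp A m i l * A m l j := by
      rw [wp, Matrix.mul_apply]
    rw [e1]
    have e2 : ∀ l, wp A m i l * A m l j = ∑ W : Fin (m + 1) → ι,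
        if W 0 = i ∧ W (Fin.last m) = l then
          (∏ k : Fin m, A k (W k.castSucc) (W k.succ)) * A m l j else 0 := by
      intro l
      rw [ih, sum_mul]
      refine sum_congr rfl fun W _ => ?_
      split_ifs <;> simp
    rw [sum_congr rfl fun l _ => e2 l, sum_comm]
    refine sum_congr rfl fun W _ => ?_
    have h0 : ∀ x : ι, (Fin.snoc W x : Fin (m + 1 + 1) → ι) 0 = W 0 := by
      intro x
      have := Fin.snoc_castSucc (α := fun _ : Fin (m + 1 + 1) => ι) x W 0
      simpa using this
    have hl : ∀ x : ι, (Fin.snoc W x : Fin (m + 1 + 1) → ι) (Fin.last (m + 1)) = x := by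
      intro x
      exact Fin.snoc_last (α := fun _ : Fin (m + 1 + 1) => ι) x W
    have hp : ∀ x : ι, ∏ k : Fin (m + 1), A k ((Fin.snoc W x : Fin (m + 1 + 1) → ι) k.castSucc)
        ((Fin.snoc W x : Fin (m + 1 + 1) → ι) k.succ) =
        (∏ k : Fin m, A k (W k.castSucc) (W k.succ)) * A m (W (Fin.last m)) x := by
      intro x
      rw [Fin.prod_univ_castSucc]
      congr 1
      · refine prod_congr rfl fun k _ => ?_
        have h1 := congrArg Prod.fst (edge_snoc_castSucc W x k)
        have h2 := congrArg Prod.snd (edge_snoc_castSucc W x k)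
        simp only [edge] at h1 h2
        rw [h1, h2]
        rfl
      · have h1 := congrArg Prod.fst (edge_snoc_last W x)
        have h2 := congrArg Prod.snd (edge_snoc_last W x)
        simp only [edge] at h1 h2
        rw [h1, h2]
        rfl
    simp only [h0, hl, hp]
    by_cases hW : W 0 = i
    · rw [sum_eq_single (W (Fin.last m)), sum_eq_single j]
      · simp [hW]
      · intro x _ hx
        rw [if_neg]
        rintro ⟨-, h1⟩
        exact hx h1
      · intro h1
        exact absurd (mem_univ j) h1
      · intro x _ hx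
        rw [if_neg]
        rintro ⟨-, h1⟩
        exact hx h1.symm
      · intro h1
        exact absurd (mem_univ _) h1
    · rw [sum_eq_zero, sum_eq_zero]
      · intro x _
        rw [if_neg]
        rintro ⟨h1, -⟩
        exact hW h1
      · intro x _
        rw [if_neg]
        rintro ⟨h1, -⟩
        exact hW h1

theorem wp_trace (A : ℕ → Matrix ι ι ℂ) (m : ℕ) :
    (wp A m).trace = ∑ V : Fin (m + 1) → ι, if V 0 = V (Fin.last m) then
      ∏ k : Fin m, A k (V k.castSucc) (V k.succ) else 0 := by
  rw [Matrix.trace]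
  simp only [Matrix.diag_apply, wp_apply]
  rw [sum_comm]
  refine sum_congr rfl fun V _ => ?_
  rw [sum_eq_single (V (Fin.last m))]
  · by_cases h : V 0 = V (Fin.last m)
    · rw [if_pos ⟨h, rfl⟩, if_pos h]
    · rw [if_neg h, if_neg]
      rintro ⟨h1, -⟩
      exact h h1
  · intro x _ hx
    rw [if_neg]
    rintro ⟨-, h1⟩
    exact hx h1.symm
  · intro h1
    exact absurd (mem_univ _) h1

theorem wp_alt (K : Matrix ι ι ℂ) (n : ℕ) :
    wp (fun k => if Even k then K else Kᴴ) (2 * n) = (K * Kᴴ) ^ n := by
  induction n with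
  | zero => rfl
  | succ n ih =>
    have e : 2 * (n + 1) = (2 * n + 1) + 1 := by ring
    rw [e, wp, wp, ih]
    have h1 : Even (2 * n) := even_two_mul n
    have h2 : ¬ Even (2 * n + 1) := by
      rw [Nat.not_even_iff_odd]
      exact odd_two_mul_add_one n
    rw [if_pos h1, if_neg h2, pow_succ, Matrix.mul_assoc]

theorem closed_card (m : ℕ) (hm : m ≠ 0) :
    ((univ : Finset (Fin (m + 1) → ι)).filter fun V => V 0 = V (Fin.last m)).card ≤
      Fintype.card ι ^ m := by
  classical
  have h : (univ : Finset (Fin m → ι)).card = Fintype.card ι ^ m := by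
    rw [card_univ, Fintype.card_fun, Fintype.card_fin]
  rw [← h]
  refine card_le_card_of_injOn (fun V => fun k : Fin m => V k.castSucc) (fun _ _ => mem_coe.2 (mem_univ _)) ?_
  intro V hV V' hV' hVV
  have h1 := (mem_filter.1 (mem_coe.1 hV)).2
  have h2 := (mem_filter.1 (mem_coe.1 hV')).2
  have h3 : ∀ k : Fin m, V k.castSucc = V' k.castSucc := fun k => congrFun hVV k
  obtain ⟨m', rfl⟩ : ∃ m', m = m' + 1 := ⟨m - 1, by omega⟩
  funext k
  refine Fin.lastCases ?_ (fun k => h3 k) k
  rw [← h1, ← h2]
  exact h3 0

end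

end Pool.Agent.K7.H77.PF
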